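import Pool.Agent.TH816.MQ.Mas

/-! Almost prime Cunningham chains that end at consecutive primes. -/

set_option autoImplicit false

open Finset Filter

namespace Pool.Agent.TH816.MQ

/-- rough numbers have few prime factors -/
theorem pow_card_le (y : ℝ) (hy : 0 ≤ y) : ∀ N : ℕ, N ≠ 0 → (∀ ℓ : ℕ, ℓ.Prime → ℓ ∣ N → y < ℓ) →
    y ^ (ArithmeticFunction.cardFactors N) ≤ N := by
  intro N
  induction N using induction_on_primes with
  | zero => intro h; exact absurd rfl h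
  | one => intro _ _; simp
  | prime_mul p a hp ih =>
    intro h0 h
    have ha : a ≠ 0 := fun h1 => h0 (by rw [h1, mul_zero])
    rw [ArithmeticFunction.cardFactors_mul hp.ne_zero ha,
      ArithmeticFunction.cardFactors_apply_prime hp, pow_add, pow_one]
    push_cast
    have h1 := ih ha (fun ℓ hℓ hd => h ℓ hℓ (hd.mul_left _))
    have h2 := h p hp (Dvd.intro _ rfl)
    exact mul_le_mul h2.le h1 (by positivity) (by positivity)

theorem omega_le {δ : ℝ} (hδ : 0 < δ) : ∃ x₀ : ℕ, ∀ x : ℕ, x₀ ≤ x → ∀ c N : ℕ, N ≠ 0 →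
    N ≤ c * x → c ≤ x → (∀ ℓ : ℕ, ℓ.Prime → ℓ ∣ N → (x : ℝ) ^ δ < ℓ) →
    ArithmeticFunction.cardFactors N ≤ ⌈2 / δ⌉₊ := by
  refine ⟨2, fun x hx c N hN hNx hc h => ?_⟩
  have hx2 : (2 : ℝ) ≤ x := by exact_mod_cast hx
  have hx0 : (0 : ℝ) < x := by linarith
  have h1 := pow_card_le ((x : ℝ) ^ δ) (by positivity) N hN h
  have h2 : (N : ℝ) ≤ (x : ℝ) ^ (2 : ℝ) := by
    have : N ≤ x * x := hNx.trans (Nat.mul_le_mul_right _ hc)
    rw [Real.rpow_two, sq]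
    exact_mod_cast this
  rw [← Real.rpow_natCast, ← Real.rpow_mul hx0.le] at h1
  have h3 := h1.trans h2
  have h4 : δ * (ArithmeticFunction.cardFactors N : ℕ) ≤ 2 :=
    (Real.rpow_le_rpow_left_iff (by linarith)).1 h3
  have h5 : ((ArithmeticFunction.cardFactors N : ℕ) : ℝ) ≤ 2 / δ := by
    rw [le_div_iff₀ hδ]
    linarith
  exact_mod_cast h5.trans (Nat.le_ceil _)

/-- `(n, n + B]` contains at least `m` primes, and all its primes have the property `P` -/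
def Str (m B : ℕ) (P : ℕ → Prop) (n : ℕ) : Prop :=
  m ≤ ((Ioc n (n + B)).filter Nat.Prime).card ∧ ∀ p ∈ Ioc n (n + B), p.Prime → P p

theorem Str.mono {m B : ℕ} {P Q : ℕ → Prop} {n : ℕ} (h : Str m B P n)
    (hPQ : ∀ p ∈ Ioc n (n + B), p.Prime → P p → Q p) : Str m B Q n :=
  ⟨h.1, fun p hp hpp => hPQ p hp hpp (h.2 p hp hpp)⟩

/-- almost prime Cunningham chain of the first kind of length `k` with last term `p` -/
def Chain1 (k R : ℕ) (y : ℝ) (p : ℕ) : Prop :=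
  ∃ c : ℕ → ℕ, c (k - 1) = p ∧ (∀ i, i + 1 < k → c (i + 1) = 2 * c i + 1) ∧
    ∀ i < k, ArithmeticFunction.cardFactors (c i) ≤ R ∧ ∀ ℓ : ℕ, ℓ.Prime → ℓ ∣ c i → y < ℓ

/-- almost prime Cunningham chain of the second kind of length `k` with last term `p` -/
def Chain2 (k R : ℕ) (y : ℝ) (p : ℕ) : Prop :=
  ∃ c : ℕ → ℕ, c (k - 1) = p ∧ (∀ i, i + 1 < k → c (i + 1) + 1 = 2 * c i) ∧
    ∀ i < k, ArithmeticFunction.cardFactors (c i) ≤ R ∧ ∀ ℓ : ℕ, ℓ.Prime → ℓ ∣ c i → y < ℓ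

theorem chain1_of {k : ℕ} {p : ℕ} {δ : ℝ} {x : ℕ} (hp : 2 ^ k ∣ p + 1)
    (h : ∀ i < k, (p + 1) / 2 ^ i - 1 ≠ 0 ∧ ∀ ℓ : ℕ, ℓ.Prime → ℓ ∣ (p + 1) / 2 ^ i - 1 → (x : ℝ) ^ δ < ℓ)
    (hΩ : ∀ N : ℕ, N ≠ 0 → N ≤ p → (∀ ℓ : ℕ, ℓ.Prime → ℓ ∣ N → (x : ℝ) ^ δ < ℓ) →
      ArithmeticFunction.cardFactors N ≤ ⌈2 / δ⌉₊) :
    Chain1 k ⌈2 / δ⌉₊ ((x : ℝ) ^ δ) p := by
  refine ⟨fun i => (p + 1) / 2 ^ (k - 1 - i) - 1, ?_, ?_, ?_⟩
  · simp
  · intro i hi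
    obtain ⟨u, hu⟩ := hp
    have e1 : (p + 1) / 2 ^ (k - 1 - i) = 2 ^ (i + 1) * u := by
      rw [hu, show 2 ^ k * u = 2 ^ (k - 1 - i) * (2 ^ (i + 1) * u) by
        rw [← mul_assoc, ← pow_add]; congr 2; omega]
      exact Nat.mul_div_cancel_left _ (by positivity)
    have e2 : (p + 1) / 2 ^ (k - 1 - (i + 1)) = 2 ^ (i + 2) * u := by
      rw [hu, show 2 ^ k * u = 2 ^ (k - 1 - (i + 1)) * (2 ^ (i + 2) * u) by
        rw [← mul_assoc, ← pow_add]; congr 2; omega]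
      exact Nat.mul_div_cancel_left _ (by positivity)
    have hu0 : 0 < u := by
      rcases Nat.eq_zero_or_pos u with h0 | h0
      · rw [h0, mul_zero] at hu; omega
      · exact h0
    show (p + 1) / 2 ^ (k - 1 - (i + 1)) - 1 = 2 * ((p + 1) / 2 ^ (k - 1 - i) - 1) + 1
    rw [e1, e2]
    have h2 : 1 ≤ 2 ^ i * u := Nat.mul_pos (by positivity) hu0
    have e3 : 2 ^ (i + 1) * u = 2 * (2 ^ i * u) := by rw [pow_succ]; ring
    have e4 : 2 ^ (i + 2) * u = 4 * (2 ^ i * u) := by rw [pow_add]; ring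
    rw [e3, e4]
    omega
  · intro i hi
    obtain ⟨h1, h2⟩ := h (k - 1 - i) (by omega)
    refine ⟨hΩ _ h1 ?_ h2, h2⟩
    have := Nat.div_le_self (p + 1) (2 ^ (k - 1 - i))
    show (p + 1) / 2 ^ (k - 1 - i) - 1 ≤ p
    omega

theorem chain2_of {k : ℕ} {p : ℕ} {δ : ℝ} {x : ℕ} (hp1 : 1 < p) (hp : 2 ^ k ∣ p - 1)
    (h : ∀ i < k, ∀ ℓ : ℕ, ℓ.Prime → ℓ ∣ (p - 1) / 2 ^ i + 1 → (x : ℝ) ^ δ < ℓ)
    (hΩ : ∀ N : ℕ, N ≠ 0 → N ≤ p → (∀ ℓ : ℕ, ℓ.Prime → ℓ ∣ N → (x : ℝ) ^ δ < ℓ) →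
      ArithmeticFunction.cardFactors N ≤ ⌈2 / δ⌉₊) :
    Chain2 k ⌈2 / δ⌉₊ ((x : ℝ) ^ δ) p := by
  refine ⟨fun i => (p - 1) / 2 ^ (k - 1 - i) + 1, ?_, ?_, ?_⟩
  · simp only [tsub_self, pow_zero, Nat.div_one]
    omega
  · intro i hi
    obtain ⟨u, hu⟩ := hp
    have e1 : (p - 1) / 2 ^ (k - 1 - i) = 2 ^ (i + 1) * u := by
      rw [hu, show 2 ^ k * u = 2 ^ (k - 1 - i) * (2 ^ (i + 1) * u) by
        rw [← mul_assoc, ← pow_add]; congr 2; omega]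
      exact Nat.mul_div_cancel_left _ (by positivity)
    have e2 : (p - 1) / 2 ^ (k - 1 - (i + 1)) = 2 ^ (i + 2) * u := by
      rw [hu, show 2 ^ k * u = 2 ^ (k - 1 - (i + 1)) * (2 ^ (i + 2) * u) by
        rw [← mul_assoc, ← pow_add]; congr 2; omega]
      exact Nat.mul_div_cancel_left _ (by positivity)
    show (p - 1) / 2 ^ (k - 1 - (i + 1)) + 1 + 1 = 2 * ((p - 1) / 2 ^ (k - 1 - i) + 1)
    rw [e1, e2]
    have e3 : 2 ^ (i + 1) * u = 2 * (2 ^ i * u) := by rw [pow_succ]; ring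
    have e4 : 2 ^ (i + 2) * u = 4 * (2 ^ i * u) := by rw [pow_add]; ring
    rw [e3, e4]
    ring
  · intro i hi
    have h2 := h (k - 1 - i) (by omega)
    refine ⟨hΩ _ (Nat.succ_ne_zero _) ?_ h2, h2⟩
    have := Nat.div_le_self (p - 1) (2 ^ (k - 1 - i))
    show (p - 1) / 2 ^ (k - 1 - i) + 1 ≤ p
    omega

/-- the first kind -/
theorem first_kind (k m : ℕ) (hk : 1 ≤ k) : ∃ (δ : ℝ) (R C : ℕ), 0 < δ ∧ ∀ f a : ℕ, Odd f →
    (∀ i < k, ∀ ℓ : ℕ, ℓ.Prime → ℓ ∣ f → ¬ a + 1 ≡ 2 ^ i [MOD ℓ]) →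
    ∃ B x₀ : ℕ, ∀ x : ℕ, x₀ ≤ x → ∃ G : Finset ℕ, G ⊆ Ico x (2 * x) ∧
      (x : ℝ) / Real.log x ^ C ≤ G.card ∧
      ∀ n ∈ G, Str m B (fun p => p ≡ a [MOD f] ∧ Chain1 k R ((x : ℝ) ^ δ) p) n := by
  classical
  obtain ⟨δ, C, hδ, hδ1, hmas⟩ := master m k
  obtain ⟨xo, hom⟩ := omega_le hδ
  refine ⟨δ, ⌈2 / δ⌉₊, C, hδ, fun f a hf hfa => ?_⟩
  have hf0 : 0 < f := hf.pos
  have hcopf : (2 ^ k).Coprime f := Nat.Coprime.pow_left _ (Nat.coprime_two_left.2 hf)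
  -- the class
  obtain ⟨z, hz⟩ : ∃ z : ℕ, z = 2 ^ k * f := ⟨_, rfl⟩
  obtain ⟨c, hc1, hc2⟩ := Nat.chineseRemainder hcopf (2 ^ k - 1) a
  have h2k : 1 ≤ 2 ^ k := Nat.one_le_two_pow
  have hzk : z ≡ 0 [MOD 2 ^ k] := by rw [hz]; exact Nat.modEq_zero_iff_dvd.2 (Dvd.intro _ rfl)
  have hzf : z ≡ 0 [MOD f] := by rw [hz]; exact Nat.modEq_zero_iff_dvd.2 (Dvd.intro_left _ rfl)
  have hz2k : 2 ^ k ≤ z := by rw [hz]; exact Nat.le_mul_of_pos_right _ hf0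
  have hz0 : 0 < z := by omega
  have hck : c + z + 1 ≡ 0 [MOD 2 ^ k] := by
    have h1 := (hc1.add hzk).add_right 1
    rw [add_zero, Nat.sub_add_cancel h2k] at h1
    exact h1.trans (Nat.modEq_zero_iff_dvd.2 dvd_rfl)
  have hcf : c + z ≡ a [MOD f] := by
    have h1 := hc2.add hzf
    rwa [add_zero] at h1
  have hkl : ∀ i < k, 2 ^ i ≤ z + 1 := by
    intro i hi
    have : 2 ^ i ≤ 2 ^ k := Nat.pow_le_pow_right (by norm_num) hi.le
    omega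
  obtain ⟨Rs, hRs⟩ : ∃ Rs : Finset ℕ, Rs = (Ico 1 k).image (fun i => z + 1 - 2 ^ i) := ⟨_, rfl⟩
  have hRc : Rs.card ≤ k := by
    rw [hRs]
    refine card_image_le.trans ?_
    rw [Nat.card_Ico]
    omega
  have hcz : (c + z).Coprime (2 ^ k * f) := by
    refine Nat.Coprime.mul_right ?_ ?_
    · apply Nat.Coprime.pow_right
      rw [Nat.coprime_two_right]
      have h1 : 2 ∣ c + z + 1 := (dvd_pow_self 2 (by omega)).trans (Nat.modEq_zero_iff_dvd.1 hck)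
      rw [← Nat.not_even_iff_odd]
      intro h2
      have h3 := h2.two_dvd
      omega
    · apply Nat.Coprime.symm
      rw [Nat.coprime_iff_gcd_eq_one]
      by_contra hne
      obtain ⟨ℓ, hℓ, hd⟩ := Nat.exists_prime_and_dvd hne
      have h1 : ℓ ∣ f := hd.trans (Nat.gcd_dvd_left _ _)
      have h2 : ℓ ∣ c + z := hd.trans (Nat.gcd_dvd_right _ _)
      apply hfa 0 (by omega) ℓ hℓ h1
      have h3 : a ≡ 0 [MOD ℓ] := (hcf.of_dvd h1).symm.trans (Nat.modEq_zero_iff_dvd.2 h2)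
      have h4 := h3.add_right 1
      rwa [zero_add] at h4
  have hcR : ∀ ρ ∈ Rs, ¬ (c + ρ).Coprime (2 ^ k * f) := by
    intro ρ hρ hcop
    rw [hRs, mem_image] at hρ
    obtain ⟨i, hi, rfl⟩ := hρ
    rw [mem_Ico] at hi
    have h1 := (Nat.coprime_mul_iff_right.1 hcop).1
    have h2 : (c + (z + 1 - 2 ^ i)).Coprime 2 :=
      Nat.Coprime.coprime_dvd_right (dvd_pow_self 2 (by omega)) h1
    rw [Nat.coprime_two_right, ← Nat.not_even_iff_odd] at h2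
    apply h2
    have h3 : 2 ∣ c + z + 1 := (dvd_pow_self 2 (by omega)).trans (Nat.modEq_zero_iff_dvd.1 hck)
    have h4 : 2 ∣ 2 ^ i := dvd_pow_self 2 (by omega)
    have h5 := hkl i hi.2
    rw [even_iff_two_dvd]
    omega
  have hadm : ∀ ℓ : ℕ, ℓ.Prime → ¬ ℓ ∣ 2 ^ k * f → ∃ v : ℕ, ∀ ρ ∈ insert z Rs, ¬ ℓ ∣ v + ρ := by
    intro ℓ hℓ hℓq
    have hℓ2 : ¬ ℓ ∣ 2 := by
      intro h
      exact hℓq ((h.trans (dvd_pow_self 2 (by omega : k ≠ 0))).mul_right _)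
    refine ⟨(z + 1) * (ℓ - 1), fun ρ hρ hd => ?_⟩
    have hℓ1 := hℓ.one_lt
    have e : (z + 1) * (ℓ - 1) + (z + 1) = (z + 1) * ℓ := by
      have : (z + 1) * (ℓ - 1) + (z + 1) = (z + 1) * (ℓ - 1 + 1) := by ring
      rw [this, Nat.sub_add_cancel hℓ1.le]
    rcases mem_insert.1 hρ with rfl | hρ
    · have h1 : ℓ ∣ (ρ + 1) * (ℓ - 1) + ρ + 1 := by
        rw [add_assoc, e]; exact Dvd.intro_left _ rfl
      exact hℓ1.ne' (Nat.dvd_one.1 ((Nat.dvd_add_right hd).1 h1))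
    · rw [hRs, mem_image] at hρ
      obtain ⟨i, hi, rfl⟩ := hρ
      rw [mem_Ico] at hi
      have h5 := hkl i hi.2
      have h1 : ℓ ∣ (z + 1) * (ℓ - 1) + (z + 1 - 2 ^ i) + 2 ^ i := by
        rw [add_assoc, Nat.sub_add_cancel h5, e]; exact Dvd.intro_left _ rfl
      exact hℓ2 (hℓ.dvd_of_dvd_pow ((Nat.dvd_add_right hd).1 h1))
  obtain ⟨B, X₀, h⟩ := hmas (2 ^ k * f) c z Rs (by positivity) hRc hcz hcR hadm
  refine ⟨B, max (max X₀ xo) (max (B + 3) (max (z + 2) (f + 2 ^ k))), fun x hx => ?_⟩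
  simp only [max_le_iff] at hx
  obtain ⟨⟨hx1, hx2⟩, hx3, hx4, hx5⟩ := hx
  obtain ⟨G, hG1, hG2, hG3⟩ := h x hx1
  refine ⟨G, hG1, hG2, fun n hn => ?_⟩
  have hnx := hG1 hn
  rw [mem_Ico] at hnx
  obtain ⟨g1, g2⟩ := hG3 n hn
  refine ⟨g1, fun p hp hpp => ?_⟩
  obtain ⟨k1, k2⟩ := g2 p hp hpp
  rw [mem_Ioc] at hp
  have hpx : p ≤ 3 * x := by omega
  have hpk : p + 1 ≡ 0 [MOD 2 ^ k] :=
    ((k1.of_dvd (Dvd.intro _ rfl)).add_right 1).trans hck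
  have hpf : p ≡ a [MOD f] := (k1.of_dvd (Dvd.intro_left _ rfl)).trans hcf
  have hpd : 2 ^ k ∣ p + 1 := Nat.modEq_zero_iff_dvd.1 hpk
  refine ⟨hpf, chain1_of hpd ?_ ?_⟩
  · intro i hi
    have hdi : 2 ^ i ∣ p + 1 := (Nat.pow_dvd_pow 2 hi.le).trans hpd
    obtain ⟨u, hu⟩ := hdi
    have hdiv : (p + 1) / 2 ^ i = u := by
      rw [hu]; exact Nat.mul_div_cancel_left _ (by positivity)
    -- `u` is even
    have hu2 : 2 ∣ u := by
      have h1 : 2 ^ (i + 1) ∣ p + 1 := (Nat.pow_dvd_pow 2 (by omega)).trans hpd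
      rw [hu, pow_succ] at h1
      exact Nat.dvd_of_mul_dvd_mul_left (by positivity) h1
    have hu0 : 0 < u := by
      rcases Nat.eq_zero_or_pos u with h0 | h0
      · rw [h0, mul_zero] at hu; omega
      · exact h0
    rw [hdiv]
    refine ⟨by omega, fun ℓ hℓ hd => ?_⟩
    have hkey : 2 ^ i * (u - 1) + 2 ^ i = p + 1 := by
      rw [hu]
      have : 2 ^ i * (u - 1) + 2 ^ i = 2 ^ i * (u - 1 + 1) := by ring
      rw [this, Nat.sub_add_cancel hu0]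
    have hdp : ℓ ∣ 2 ^ i * (u - 1) := hd.mul_left _
    have hℓ2 : ¬ ℓ ∣ 2 := by
      intro h
      have h3 : ℓ = 2 := (Nat.prime_dvd_prime_iff_eq hℓ Nat.prime_two).1 h
      rw [h3] at hd
      omega
    have hℓq : ¬ ℓ ∣ 2 ^ k * f := by
      intro h
      rcases (Nat.Prime.dvd_mul hℓ).1 h with h1 | h1
      · exact hℓ2 (hℓ.dvd_of_dvd_pow h1)
      · apply hfa i hi ℓ hℓ h1
        have h3 : p + 1 ≡ a + 1 [MOD ℓ] := (hpf.of_dvd h1).add_right 1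
        have h4 : p + 1 ≡ 2 ^ i [MOD ℓ] := by
          rw [← hkey]
          have := (Nat.modEq_zero_iff_dvd.2 hdp).add_right (2 ^ i)
          rwa [zero_add] at this
        exact h3.symm.trans h4
    rcases Nat.eq_zero_or_pos i with hi0 | hi0
    · -- the prime itself
      subst hi0
      have h3 : ℓ ∣ p := by
        rw [pow_zero, one_mul] at hkey
        have : u - 1 = p := by omega
        rwa [this] at hd
      have h4 : ℓ = p := (Nat.prime_dvd_prime_iff_eq hℓ hpp).1 h3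
      rw [h4]
      have h5 : (x : ℝ) ^ δ ≤ (x : ℝ) ^ (1 : ℝ) := by
        apply Real.rpow_le_rpow_of_exponent_le _ hδ1
        have : 1 ≤ x := by omega
        exact_mod_cast this
      rw [Real.rpow_one] at h5
      have h6 : (x : ℝ) < p := by exact_mod_cast (by omega : x < p)
      linarith
    · apply k2 (z + 1 - 2 ^ i) (by
        rw [hRs, mem_image]
        exact ⟨i, mem_Ico.2 ⟨hi0, hi⟩, rfl⟩) ℓ hℓ hℓq
      have h5 := hkl i hi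
      have h6 : p - z + (z + 1 - 2 ^ i) = 2 ^ i * (u - 1) := by
        have : z ≤ p := by omega
        omega
      rw [h6]
      exact hdp
  · intro N hN hNp hr
    exact hom x hx2 3 N hN (hNp.trans hpx) (by omega) hr

end Pool.Agent.TH816.MQ
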