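import Mathlib

/-! Few primes modulo which a group of large rank is small. -/

set_option autoImplicit false

open Finset

namespace Pool.Agent.TH816.MQ

/-- for all but few primes `q` the rational numbers `u i` do not lie in a small subgroup modulo `q` -/
theorem few_bad {ι : Type} [Fintype ι] [DecidableEq ι] (u : ι → ℚ) (hu : ∀ i, u i ≠ 0)
    (hind : ∀ e : ι → ℤ, ∏ i, u i ^ e i = 1 → e = 0) :
    ∃ A : ℕ, ∀ (E : ℕ) (Q : Finset ℕ), (∀ q ∈ Q, q.Prime ∧ (∀ i, ¬ (q : ℤ) ∣ (u i).num) ∧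
      (∀ i, ¬ q ∣ (u i).den) ∧ ∃ w : ℕ, 0 < w ∧ w < (E + 1) ^ Fintype.card ι ∧
        ∀ i, ((((u i).num : ℤ) : ZMod q)) ^ w = (((u i).den : ℕ) : ZMod q) ^ w) →
      Q.card ≤ (2 * E + 1) ^ Fintype.card ι * (A * E + 1) := by
  classical
  obtain ⟨M, hM⟩ : ∃ M : ℕ, M = ∏ i, ((u i).num.natAbs * (u i).den) := ⟨_, rfl⟩
  refine ⟨M, fun E Q hQ => ?_⟩
  have hnum : ∀ i, 1 ≤ (u i).num.natAbs := fun i => by
    have := Rat.num_ne_zero.2 (hu i)
    omega
  have hden : ∀ i, 1 ≤ (u i).den := fun i => (u i).den_pos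
  obtain ⟨P1, hP1⟩ : ∃ P1 : (ι → Fin (2 * E + 1)) → ℤ, P1 = fun g =>
    ∏ i, (u i).num ^ ((g i : ℕ) - E) * ((u i).den : ℤ) ^ (E - (g i : ℕ)) := ⟨_, rfl⟩
  obtain ⟨P2, hP2⟩ : ∃ P2 : (ι → Fin (2 * E + 1)) → ℤ, P2 = fun g =>
    ∏ i, (u i).num ^ (E - (g i : ℕ)) * ((u i).den : ℤ) ^ ((g i : ℕ) - E) := ⟨_, rfl⟩
  have hbound : ∀ a b : ι → ℕ, (∀ i, a i ≤ E) → (∀ i, b i ≤ E) →
      (∏ i, (u i).num ^ (a i) * ((u i).den : ℤ) ^ (b i)).natAbs ≤ M ^ E := by
    intro a b ha hb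
    have hmap : (∏ i, (u i).num ^ (a i) * ((u i).den : ℤ) ^ (b i)).natAbs =
        ∏ i, ((u i).num ^ (a i) * ((u i).den : ℤ) ^ (b i)).natAbs := map_prod Int.natAbsHom _ _
    rw [hmap, hM, ← Finset.prod_pow]
    apply Finset.prod_le_prod' (fun i _ => ?_)
    rw [Int.natAbs_mul, Int.natAbs_pow, Int.natAbs_pow, Int.natAbs_natCast, mul_pow]
    exact Nat.mul_le_mul (Nat.pow_le_pow_right (hnum i) (ha i)) (Nat.pow_le_pow_right (hden i) (hb i))
  have hZ : ∀ g, ((P1 g - P2 g).natAbs).primeFactors.card ≤ M * E + 1 := by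
    intro g
    by_cases h0 : (P1 g - P2 g).natAbs = 0
    · rw [h0]; simp
    have h1 : (P1 g - P2 g).natAbs ≤ 2 * M ^ E := by
      refine (Int.natAbs_sub_le _ _).trans ?_
      have e1 : (P1 g).natAbs ≤ M ^ E := by
        rw [hP1]
        exact hbound _ _ (fun i => by have := (g i).isLt; omega) (fun i => by omega)
      have e2 : (P2 g).natAbs ≤ M ^ E := by
        rw [hP2]
        exact hbound _ _ (fun i => by omega) (fun i => by have := (g i).isLt; omega)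
      omega
    have h2 : 2 ^ ((P1 g - P2 g).natAbs).primeFactors.card ≤ (P1 g - P2 g).natAbs := by
      calc 2 ^ ((P1 g - P2 g).natAbs).primeFactors.card
          ≤ ∏ p ∈ ((P1 g - P2 g).natAbs).primeFactors, p := by
            apply Finset.pow_card_le_prod
            intro p hp
            exact (Nat.prime_of_mem_primeFactors hp).two_le
        _ ≤ _ := Nat.le_of_dvd (Nat.pos_of_ne_zero h0) (Nat.prod_primeFactors_dvd _)
    have h3 : M ^ E ≤ 2 ^ (M * E) := by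
      rw [pow_mul]
      exact Nat.pow_le_pow_left (Nat.lt_two_pow_self).le E
    have h4 : 2 ^ ((P1 g - P2 g).natAbs).primeFactors.card ≤ 2 ^ (M * E + 1) := by
      rw [pow_succ]
      omega
    exact (Nat.pow_le_pow_iff_right (by norm_num)).1 h4
  have hsub : Q ⊆ (univ : Finset (ι → Fin (2 * E + 1))).biUnion
      (fun g => ((P1 g - P2 g).natAbs).primeFactors) := by
    intro q hq
    obtain ⟨hqp, hqn, hqd, w, hw0, hw, hpow⟩ := hQ q hq
    have : Fact q.Prime := ⟨hqp⟩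
    obtain ⟨x, hx⟩ : ∃ x : ι → ZMod q, x = fun i =>
      (((u i).num : ℤ) : ZMod q) / (((u i).den : ℕ) : ZMod q) := ⟨_, rfl⟩
    have hn0 : ∀ i, (((u i).num : ℤ) : ZMod q) ≠ 0 := fun i h =>
      hqn i ((ZMod.intCast_zmod_eq_zero_iff_dvd _ _).1 h)
    have hd0 : ∀ i, (((u i).den : ℕ) : ZMod q) ≠ 0 := fun i h =>
      hqd i ((ZMod.natCast_eq_zero_iff _ _).1 h)
    have hx0 : ∀ i, x i ≠ 0 := fun i => by rw [hx]; exact div_ne_zero (hn0 i) (hd0 i)
    have hxw : ∀ i, x i ^ w = 1 := fun i => by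
      rw [hx]
      show ((((u i).num : ℤ) : ZMod q) / (((u i).den : ℕ) : ZMod q)) ^ w = 1
      rw [div_pow, hpow i, div_self (pow_ne_zero _ (hd0 i))]
    obtain ⟨e, -, e', -, hne, hee⟩ := Finset.exists_ne_map_eq_of_card_lt_of_maps_to
      (s := (univ : Finset (ι → Fin (E + 1)))) (t := (Polynomial.nthRoots w (1 : ZMod q)).toFinset)
      (f := fun e => ∏ i, x i ^ (e i : ℕ)) (by
        refine lt_of_le_of_lt (Multiset.toFinset_card_le _) ?_
        refine lt_of_le_of_lt (Polynomial.card_nthRoots _ _) ?_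
        rw [card_univ, Fintype.card_fun, Fintype.card_fin]
        exact hw) (by
        intro e _
        rw [mem_coe, Multiset.mem_toFinset, Polynomial.mem_nthRoots hw0]
        show (∏ i, x i ^ (e i : ℕ)) ^ w = 1
        rw [← Finset.prod_pow]
        apply Finset.prod_eq_one
        intro i _
        rw [← pow_mul, mul_comm, pow_mul, hxw i, one_pow])
    have hee' : ∏ i, x i ^ (e i : ℕ) = ∏ i, x i ^ (e' i : ℕ) := hee
    -- differences
    obtain ⟨g, hg⟩ : ∃ g : ι → Fin (2 * E + 1), ∀ i, (g i : ℕ) = E + (e i : ℕ) - (e' i : ℕ) :=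
      ⟨fun i => ⟨E + (e i : ℕ) - (e' i : ℕ), by have := (e i).isLt; omega⟩, fun i => rfl⟩
    have hg1 : ∀ i, (g i : ℕ) - E = (e i : ℕ) - (e' i : ℕ) := fun i => by
      have := hg i; have := (e' i).isLt; omega
    have hg2 : ∀ i, E - (g i : ℕ) = (e' i : ℕ) - (e i : ℕ) := fun i => by
      have := hg i; have := (e' i).isLt; omega
    have hcan : ∏ i, x i ^ ((g i : ℕ) - E) = ∏ i, x i ^ (E - (g i : ℕ)) := by
      have hm0 : ∏ i, x i ^ (min (e i : ℕ) (e' i : ℕ)) ≠ 0 :=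
        Finset.prod_ne_zero_iff.2 fun i _ => pow_ne_zero _ (hx0 i)
      apply mul_left_cancel₀ hm0
      rw [← Finset.prod_mul_distrib, ← Finset.prod_mul_distrib]
      calc ∏ i, x i ^ (min (e i : ℕ) (e' i : ℕ)) * x i ^ ((g i : ℕ) - E)
          = ∏ i, x i ^ (e i : ℕ) := by
            apply Finset.prod_congr rfl
            intro i _
            rw [← pow_add, hg1]
            congr 1
            omega
        _ = ∏ i, x i ^ (e' i : ℕ) := hee'
        _ = ∏ i, x i ^ (min (e i : ℕ) (e' i : ℕ)) * x i ^ (E - (g i : ℕ)) := by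
            apply Finset.prod_congr rfl
            intro i _
            rw [← pow_add, hg2]
            congr 1
            omega
    have hZq : ((P1 g - P2 g : ℤ) : ZMod q) = 0 := by
      rw [hP1, hP2]
      push_cast
      rw [sub_eq_zero]
      have hd1 : ∏ i, ((((u i).den : ℕ) : ZMod q)) ^ ((g i : ℕ) - E) ≠ 0 :=
        Finset.prod_ne_zero_iff.2 fun i _ => pow_ne_zero _ (hd0 i)
      have hd2 : ∏ i, ((((u i).den : ℕ) : ZMod q)) ^ (E - (g i : ℕ)) ≠ 0 :=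
        Finset.prod_ne_zero_iff.2 fun i _ => pow_ne_zero _ (hd0 i)
      have h1 : ∏ i, x i ^ ((g i : ℕ) - E) =
          (∏ i, (((u i).num : ℤ) : ZMod q) ^ ((g i : ℕ) - E)) /
            ∏ i, ((((u i).den : ℕ) : ZMod q)) ^ ((g i : ℕ) - E) := by
        rw [← Finset.prod_div_distrib]
        apply Finset.prod_congr rfl
        intro i _
        rw [hx, div_pow]
      have h2 : ∏ i, x i ^ (E - (g i : ℕ)) =
          (∏ i, (((u i).num : ℤ) : ZMod q) ^ (E - (g i : ℕ))) /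
            ∏ i, ((((u i).den : ℕ) : ZMod q)) ^ (E - (g i : ℕ)) := by
        rw [← Finset.prod_div_distrib]
        apply Finset.prod_congr rfl
        intro i _
        rw [hx, div_pow]
      rw [h1, h2, div_eq_div_iff hd1 hd2] at hcan
      rw [Finset.prod_mul_distrib, Finset.prod_mul_distrib]
      exact hcan
    have hZ0 : (P1 g - P2 g).natAbs ≠ 0 := by
      intro h0
      rw [Int.natAbs_eq_zero, sub_eq_zero] at h0
      -- equality of rational numbers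
      have h1 : ((P1 g : ℤ) : ℚ) = ((P2 g : ℤ) : ℚ) := by rw [h0]
      rw [hP1, hP2] at h1
      push_cast at h1
      rw [Finset.prod_mul_distrib, Finset.prod_mul_distrib] at h1
      have hdq : ∀ i, (((u i).den : ℕ) : ℚ) ≠ 0 := fun i => by exact_mod_cast (u i).den_ne_zero
      have hd1 : ∏ i, ((((u i).den : ℕ) : ℚ)) ^ ((g i : ℕ) - E) ≠ 0 :=
        Finset.prod_ne_zero_iff.2 fun i _ => pow_ne_zero _ (hdq i)
      have hd2 : ∏ i, ((((u i).den : ℕ) : ℚ)) ^ (E - (g i : ℕ)) ≠ 0 :=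
        Finset.prod_ne_zero_iff.2 fun i _ => pow_ne_zero _ (hdq i)
      have h2 := (div_eq_div_iff hd1 hd2).2 h1
      rw [← Finset.prod_div_distrib, ← Finset.prod_div_distrib] at h2
      have h3 : ∏ i, u i ^ ((g i : ℕ) - E) = ∏ i, u i ^ (E - (g i : ℕ)) := by
        have e1 : ∀ k : ι → ℕ, ∏ i, u i ^ (k i) =
            ∏ i, (((u i).num : ℤ) : ℚ) ^ (k i) / ((((u i).den : ℕ) : ℚ)) ^ (k i) := by
          intro k
          apply Finset.prod_congr rfl
          intro i _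
          rw [← div_pow, Rat.num_div_den]
        rw [e1, e1]
        exact h2
      have h4 : ∏ i, u i ^ ((((g i : ℕ) : ℤ)) - (E : ℤ)) = 1 := by
        have h5 : ∀ i, u i ^ ((((g i : ℕ) : ℤ)) - (E : ℤ)) =
            u i ^ ((g i : ℕ) - E) / u i ^ (E - (g i : ℕ)) := by
          intro i
          rw [← zpow_natCast, ← zpow_natCast, ← zpow_sub₀ (hu i)]
          congr 1
          omega
        rw [Finset.prod_congr rfl (fun i _ => h5 i), Finset.prod_div_distrib, h3]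
        exact div_self (Finset.prod_ne_zero_iff.2 fun i _ => pow_ne_zero _ (hu i))
      have h6 := hind (fun i => (((g i : ℕ) : ℤ)) - (E : ℤ)) h4
      apply hne
      funext i
      have h7 : (((g i : ℕ) : ℤ)) - (E : ℤ) = 0 := congrFun h6 i
      have h8 := hg i
      have h9 := (e' i).isLt
      exact Fin.ext (by omega)
    rw [mem_biUnion]
    refine ⟨g, mem_univ _, ?_⟩
    rw [Nat.mem_primeFactors]
    refine ⟨hqp, ?_, hZ0⟩
    have h1 := (ZMod.intCast_zmod_eq_zero_iff_dvd _ _).1 hZq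
    exact Int.natCast_dvd.1 h1
  calc Q.card ≤ _ := card_le_card hsub
    _ ≤ ∑ g : (ι → Fin (2 * E + 1)), ((P1 g - P2 g).natAbs).primeFactors.card := card_biUnion_le
    _ ≤ ∑ _g : (ι → Fin (2 * E + 1)), (M * E + 1) := sum_le_sum fun g _ => hZ g
    _ = _ := by
        rw [sum_const, card_univ, Fintype.card_fun, Fintype.card_fin, smul_eq_mul]

/-- asymptotic form: at least `4 / δ` independent numbers, subgroups of order `≤ 3 x ^ (1 - δ)` -/
theorem few_bad_real {δ : ℝ} (hδ : 0 < δ) (hδ1 : δ ≤ 1) {ι : Type} [Fintype ι] [DecidableEq ι]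
    (u : ι → ℚ) (hu : ∀ i, u i ≠ 0) (hind : ∀ e : ι → ℤ, ∏ i, u i ^ e i = 1 → e = 0)
    (hcard : 4 / δ ≤ Fintype.card ι) :
    ∃ (K : ℝ) (x₀ : ℕ), 0 < K ∧ ∀ x : ℕ, x₀ ≤ x → ∀ Q : Finset ℕ, (∀ q ∈ Q, q.Prime ∧
      (∀ i, ¬ (q : ℤ) ∣ (u i).num) ∧ (∀ i, ¬ q ∣ (u i).den) ∧ ∃ w : ℕ, 0 < w ∧
        (w : ℝ) ≤ 3 * (x : ℝ) ^ (1 - δ) ∧
        ∀ i, ((((u i).num : ℤ) : ZMod q)) ^ w = (((u i).den : ℕ) : ZMod q) ^ w) →
      (Q.card : ℝ) ≤ K * (x : ℝ) ^ (1 - δ / 4) := by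
  obtain ⟨A, hA⟩ := few_bad u hu hind
  obtain ⟨s, hs⟩ : ∃ s : ℕ, s = Fintype.card ι := ⟨_, rfl⟩
  rw [← hs] at hA hcard
  have hs0 : (0 : ℝ) < s := lt_of_lt_of_le (by positivity) hcard
  have hev : ∀ᶠ x : ℕ in Filter.atTop, 3 < (x : ℝ) ^ (δ / 2) :=
    ((tendsto_rpow_atTop (by positivity : 0 < δ / 2)).comp
      tendsto_natCast_atTop_atTop).eventually_gt_atTop 3
  obtain ⟨x₁, hx₁⟩ := Filter.eventually_atTop.1 hev
  refine ⟨3 ^ s * (A + 1), max x₁ 1, by positivity, fun x hx Q hQ => ?_⟩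
  have hx1 : 1 ≤ x := (le_max_right _ _).trans hx
  have hxr : (1 : ℝ) ≤ x := by exact_mod_cast hx1
  have hx0 : (0 : ℝ) < x := by linarith
  have h3 := hx₁ x ((le_max_left _ _).trans hx)
  obtain ⟨y, hy⟩ : ∃ y : ℝ, y = (x : ℝ) ^ ((1 - δ / 2) / s) := ⟨_, rfl⟩
  have hy1 : 1 ≤ y := by
    rw [hy]
    apply Real.one_le_rpow hxr
    apply div_nonneg (by linarith) hs0.le
  obtain ⟨E, hE⟩ : ∃ E : ℕ, E = ⌊y⌋₊ := ⟨_, rfl⟩
  have hE1 : (1 : ℝ) ≤ E := by
    rw [hE]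
    exact_mod_cast Nat.le_floor (by simpa using hy1)
  have hEy : (E : ℝ) ≤ y := by rw [hE]; exact Nat.floor_le (by linarith)
  have hyE : y < (E : ℝ) + 1 := by rw [hE]; exact Nat.lt_floor_add_one y
  have hys : y ^ s = (x : ℝ) ^ (1 - δ / 2) := by
    rw [hy, ← Real.rpow_natCast, ← Real.rpow_mul hx0.le]
    congr 1
    field_simp
  have h1 := hA E Q (by
    intro q hq
    obtain ⟨a1, a2, a3, w, a4, a5, a6⟩ := hQ q hq
    refine ⟨a1, a2, a3, w, a4, ?_, a6⟩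
    have h4 : (w : ℝ) < ((E : ℝ) + 1) ^ s := by
      calc (w : ℝ) ≤ 3 * (x : ℝ) ^ (1 - δ) := a5
        _ < (x : ℝ) ^ (δ / 2) * (x : ℝ) ^ (1 - δ) :=
            mul_lt_mul_of_pos_right h3 (by positivity)
        _ = y ^ s := by
            rw [hys, ← Real.rpow_add hx0]
            congr 1
            ring
        _ ≤ ((E : ℝ) + 1) ^ s := pow_le_pow_left₀ (by linarith) hyE.le s
    exact_mod_cast h4)
  have h2 : (Q.card : ℝ) ≤ ((2 * E + 1 : ℕ) : ℝ) ^ s * ((A * E + 1 : ℕ) : ℝ) := by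
    exact_mod_cast h1
  refine h2.trans ?_
  push_cast
  have e1 : (2 * (E : ℝ) + 1) ^ s ≤ 3 ^ s * (x : ℝ) ^ (1 - δ / 2) := by
    rw [← hys, ← mul_pow]
    apply pow_le_pow_left₀ (by positivity)
    linarith
  have e2 : (A : ℝ) * E + 1 ≤ (A + 1) * (x : ℝ) ^ (δ / 4) := by
    have e3 : y ≤ (x : ℝ) ^ (δ / 4) := by
      rw [hy]
      apply Real.rpow_le_rpow_of_exponent_le hxr
      rw [div_le_iff₀ hs0]
      have : 4 ≤ (s : ℝ) * δ := by rwa [div_le_iff₀ hδ] at hcard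
      nlinarith
    have hA0 : (0 : ℝ) ≤ A := Nat.cast_nonneg _
    nlinarith
  calc (2 * (E : ℝ) + 1) ^ s * ((A : ℝ) * E + 1)
      ≤ (3 ^ s * (x : ℝ) ^ (1 - δ / 2)) * ((A + 1) * (x : ℝ) ^ (δ / 4)) :=
        mul_le_mul e1 e2 (by positivity) (by positivity)
    _ = 3 ^ s * (A + 1) * ((x : ℝ) ^ (1 - δ / 2) * (x : ℝ) ^ (δ / 4)) := by ring
    _ = 3 ^ s * (A + 1) * (x : ℝ) ^ (1 - δ / 4) := by
        rw [← Real.rpow_add hx0]
        congr 2
        ring

end Pool.Agent.TH816.MQ
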