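import Pool.Agent.TH816.MQ.Ch
import Pool.Agent.TH816.MQ.Few

/-! All but boundedly many prime bases have order `≥ (q - 1) / 2` along strings of consecutive primes. -/

set_option autoImplicit false

open Finset Filter

namespace Pool.Agent.TH816.MQ

theorem indep_primes (S : Finset ℕ) (hS : ∀ a ∈ S, a.Prime) (e : {a // a ∈ S} → ℤ)
    (h : ∏ i : {a // a ∈ S}, (((i : ℕ) : ℚ)) ^ e i = 1) : e = 0 := by
  have hne : ∀ i : {a // a ∈ S}, (((i : ℕ) : ℚ)) ≠ 0 := fun i => by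
    exact_mod_cast (hS i.1 i.2).ne_zero
  have h1 : ∏ i : {a // a ∈ S}, ((i : ℕ)) ^ (e i).toNat = ∏ i : {a // a ∈ S}, ((i : ℕ)) ^ (-e i).toNat := by
    have h2 : ∏ i : {a // a ∈ S}, (((i : ℕ) : ℚ)) ^ (e i).toNat =
        ∏ i : {a // a ∈ S}, (((i : ℕ) : ℚ)) ^ (-e i).toNat := by
      have h3 : ∀ i : {a // a ∈ S}, (((i : ℕ) : ℚ)) ^ (e i) =
          (((i : ℕ) : ℚ)) ^ (e i).toNat / (((i : ℕ) : ℚ)) ^ (-e i).toNat := by
        intro i
        rw [← zpow_natCast, ← zpow_natCast, ← zpow_sub₀ (hne i)]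
        congr 1
        omega
      rw [Finset.prod_congr rfl (fun i _ => h3 i), Finset.prod_div_distrib] at h
      exact (div_eq_one_iff_eq (Finset.prod_ne_zero_iff.2 fun i _ => pow_ne_zero _ (hne i))).1 h
    exact_mod_cast h2
  have hf : ∀ (k : {a // a ∈ S} → ℕ) (j : {a // a ∈ S}),
      (∏ i : {a // a ∈ S}, ((i : ℕ)) ^ k i).factorization (j : ℕ) = k j := by
    intro k j
    rw [Nat.factorization_prod (fun i _ => pow_ne_zero _ (hS i.1 i.2).ne_zero),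
      Finsupp.finsetSum_apply]
    rw [Finset.sum_eq_single j]
    · rw [Nat.factorization_pow, Finsupp.smul_apply, (hS j.1 j.2).factorization_self, smul_eq_mul,
        mul_one]
    · intro i _ hij
      rw [Nat.factorization_pow, Finsupp.smul_apply, (hS i.1 i.2).factorization,
        Finsupp.single_apply, if_neg, smul_eq_mul, mul_zero]
      intro h4
      exact hij (Subtype.ext h4)
    · intro h4
      exact absurd (mem_univ _) h4
  funext j
  have h5 := congrArg (fun n : ℕ => n.factorization (j : ℕ)) h1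
  simp only [hf] at h5
  show e j = 0
  omega

/-- removing the `n` for which an exceptional prime lies in `(n, n + B]` -/
theorem prune (B C x : ℕ) (G Q : Finset ℕ) (hG : (x : ℝ) / Real.log x ^ C ≤ G.card)
    (hQ : (B : ℝ) * Q.card ≤ (1 / 2) * ((x : ℝ) / Real.log x ^ C)) (hlog : 2 ≤ Real.log x) :
    (x : ℝ) / Real.log x ^ (C + 1) ≤
      ((G.filter (fun n => ∀ p ∈ Ioc n (n + B), p ∉ Q)).card : ℝ) := by
  classical
  have h1 : G.filter (fun n => ¬ ∀ p ∈ Ioc n (n + B), p ∉ Q) ⊆ Q.biUnion (fun q => Ico (q - B) q) := by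
    intro n hn
    rw [mem_filter] at hn
    obtain ⟨-, h2⟩ := hn
    push Not at h2
    obtain ⟨p, hp, hpQ⟩ := h2
    rw [mem_Ioc] at hp
    rw [mem_biUnion]
    exact ⟨p, hpQ, by rw [mem_Ico]; omega⟩
  have h2 : (G.filter (fun n => ¬ ∀ p ∈ Ioc n (n + B), p ∉ Q)).card ≤ Q.card * B := by
    refine (card_le_card h1).trans (card_biUnion_le.trans ?_)
    calc ∑ q ∈ Q, (Ico (q - B) q).card ≤ ∑ _q ∈ Q, B := by
          apply sum_le_sum
          intro q _
          rw [Nat.card_Ico]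
          omega
      _ = Q.card * B := by rw [sum_const, smul_eq_mul]
  have h3 := Finset.card_filter_add_card_filter_not (s := G) (fun n => ∀ p ∈ Ioc n (n + B), p ∉ Q)
  have h4 : (G.card : ℝ) ≤ ((G.filter (fun n => ∀ p ∈ Ioc n (n + B), p ∉ Q)).card : ℝ) +
      (B : ℝ) * Q.card := by
    have h5 : G.card ≤ (G.filter (fun n => ∀ p ∈ Ioc n (n + B), p ∉ Q)).card + B * Q.card := by
      rw [mul_comm]
      omega
    exact_mod_cast h5
  have hl0 : 0 < Real.log x := by linarith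
  have h6 : (x : ℝ) / Real.log x ^ (C + 1) ≤ (1 / 2) * ((x : ℝ) / Real.log x ^ C) := by
    rw [pow_succ, ← div_div, div_le_iff₀ hl0]
    have h7 : 0 ≤ (x : ℝ) / Real.log x ^ C := by positivity
    nlinarith
  linarith

/-- the exceptional primes for a finite set `S` of prime bases -/
noncomputable def Exc (δ : ℝ) (S : Finset ℕ) (x : ℕ) : Finset ℕ := by
  classical exact (Ioc x (3 * x)).filter (fun q => q.Prime ∧ (∀ a ∈ S, ¬ q ∣ a) ∧
    ∃ w : ℕ, 0 < w ∧ (w : ℝ) ≤ 3 * (x : ℝ) ^ (1 - δ) ∧ ∀ a ∈ S, ((a : ℕ) : ZMod q) ^ w = 1)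

theorem exc_card {δ : ℝ} (hδ : 0 < δ) (hδ1 : δ ≤ 1) (S : Finset ℕ) (hS : ∀ a ∈ S, a.Prime)
    (hcard : 4 / δ ≤ S.card) : ∃ (K : ℝ) (x₀ : ℕ), 0 < K ∧ ∀ x : ℕ, x₀ ≤ x →
    ((Exc δ S x).card : ℝ) ≤ K * (x : ℝ) ^ (1 - δ / 4) := by
  classical
  obtain ⟨K, x₀, hK, h⟩ := few_bad_real hδ hδ1 (ι := {a // a ∈ S}) (fun i => ((i : ℕ) : ℚ))
    (fun i => by exact_mod_cast (hS i.1 i.2).ne_zero) (indep_primes S hS)
    (by rw [Fintype.card_coe]; exact hcard)
  refine ⟨K, x₀, hK, fun x hx => h x hx _ (fun q hq => ?_)⟩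
  unfold Exc at hq
  rw [mem_filter] at hq
  obtain ⟨-, h1, h2, w, h3, h4, h5⟩ := hq
  refine ⟨h1, fun i => ?_, fun i => ?_, w, h3, h4, fun i => ?_⟩
  · rw [Rat.num_natCast]
    intro h6
    exact h2 i.1 i.2 (Int.natCast_dvd_natCast.1 h6)
  · rw [Rat.den_natCast]
    intro h6
    exact h1.one_lt.ne' (Nat.dvd_one.1 h6)
  · rw [Rat.num_natCast, Rat.den_natCast]
    have := h5 i.1 i.2
    push_cast
    rw [one_pow]
    exact this

/-- the primes modulo which one of the bases has a small order -/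
noncomputable def ExcO (A : Finset ℕ) (E x : ℕ) : Finset ℕ := by
  classical exact (Ioc x (3 * x)).filter (fun q => q.Prime ∧ ∃ a ∈ A, ¬ q ∣ a ∧
    orderOf ((a : ℕ) : ZMod q) ≤ E)

theorem excO_card (A : Finset ℕ) (hA : ∀ a ∈ A, a.Prime) : ∃ K : ℝ, 0 < K ∧ ∀ E x : ℕ, 1 ≤ E →
    ((ExcO A E x).card : ℝ) ≤ K * (E : ℝ) ^ 2 := by
  classical
  have h : ∀ a ∈ A, ∃ M : ℕ, ∀ E x : ℕ,
      ((Ioc x (3 * x)).filter (fun q => q.Prime ∧ ¬ q ∣ a ∧ orderOf ((a : ℕ) : ZMod q) ≤ E)).card ≤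
        (2 * E + 1) * (M * E + 1) := by
    intro a ha
    have hap := hA a ha
    have ha0 : (a : ℚ) ≠ 0 := by exact_mod_cast hap.ne_zero
    obtain ⟨M, hM⟩ := few_bad (ι := {b // b ∈ ({a} : Finset ℕ)}) (fun i => ((i : ℕ) : ℚ))
      (fun i => by
        have h1 := i.2
        rw [mem_singleton] at h1
        rw [h1]; exact ha0)
      (indep_primes {a} (by
        intro b hb
        rw [mem_singleton] at hb
        rw [hb]; exact hap))
    refine ⟨M, fun E x => ?_⟩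
    have h1 := hM E ((Ioc x (3 * x)).filter (fun q => q.Prime ∧ ¬ q ∣ a ∧
      orderOf ((a : ℕ) : ZMod q) ≤ E)) (by
      intro q hq
      rw [mem_filter] at hq
      obtain ⟨-, h1, h2, h3⟩ := hq
      have hfact : Fact q.Prime := ⟨h1⟩
      have ha' : ∀ i : {b // b ∈ ({a} : Finset ℕ)}, (i : ℕ) = a := fun i => by
        have := i.2
        rwa [mem_singleton] at this
      have haz : ((a : ℕ) : ZMod q) ≠ 0 := fun h => h2 ((ZMod.natCast_eq_zero_iff _ _).1 h)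
      have hfo : 0 < orderOf ((a : ℕ) : ZMod q) := by
        rw [orderOf_pos_iff]
        rw [isOfFinOrder_iff_pow_eq_one]
        exact ⟨q - 1, by have := h1.one_lt; omega, ZMod.pow_card_sub_one_eq_one haz⟩
      refine ⟨h1, fun i => ?_, fun i => ?_, orderOf ((a : ℕ) : ZMod q), hfo, ?_, fun i => ?_⟩
      · show ¬ (q : ℤ) ∣ (((i : ℕ) : ℚ)).num
        rw [ha' i, Rat.num_natCast]
        intro h6
        exact h2 (Int.natCast_dvd_natCast.1 h6)
      · show ¬ q ∣ (((i : ℕ) : ℚ)).den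
        rw [Rat.den_natCast]
        intro h6
        exact h1.one_lt.ne' (Nat.dvd_one.1 h6)
      · rw [Fintype.card_coe, card_singleton, pow_one]
        omega
      · show ((((((i : ℕ) : ℚ)).num : ℤ) : ZMod q)) ^ _ = (((((i : ℕ) : ℚ)).den : ℕ) : ZMod q) ^ _
        rw [ha' i, Rat.num_natCast, Rat.den_natCast]
        push_cast
        rw [one_pow]
        exact pow_orderOf_eq_one _)
    rw [Fintype.card_coe, card_singleton, pow_one] at h1
    exact h1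
  choose! M hM using h
  refine ⟨∑ a ∈ A, (3 * ((M a : ℝ) + 1)) + 1, ?_, fun E x hE => ?_⟩
  · have : 0 ≤ ∑ a ∈ A, (3 * ((M a : ℝ) + 1)) := sum_nonneg fun a _ => by positivity
    linarith
  have hE1 : (1 : ℝ) ≤ E := by exact_mod_cast hE
  have h1 : (ExcO A E x) ⊆ A.biUnion (fun a => (Ioc x (3 * x)).filter (fun q => q.Prime ∧ ¬ q ∣ a ∧
      orderOf ((a : ℕ) : ZMod q) ≤ E)) := by
    intro q hq
    unfold ExcO at hq
    rw [mem_filter] at hq
    obtain ⟨h1, h2, a, h3, h4, h5⟩ := hq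
    rw [mem_biUnion]
    exact ⟨a, h3, mem_filter.2 ⟨h1, h2, h4, h5⟩⟩
  calc ((ExcO A E x).card : ℝ) ≤ ((∑ a ∈ A, (2 * E + 1) * (M a * E + 1) : ℕ) : ℝ) := by
        exact_mod_cast (card_le_card h1).trans (card_biUnion_le.trans
          (sum_le_sum fun a ha => hM a ha E x))
    _ = ∑ a ∈ A, (2 * (E : ℝ) + 1) * ((M a : ℝ) * E + 1) := by push_cast; rfl
    _ ≤ ∑ a ∈ A, (3 * ((M a : ℝ) + 1)) * (E : ℝ) ^ 2 := by
        apply sum_le_sum
        intro a _
        have hMa : (0 : ℝ) ≤ M a := Nat.cast_nonneg _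
        have e1 : 2 * (E : ℝ) + 1 ≤ 3 * E := by linarith
        have e2 : (M a : ℝ) * E + 1 ≤ ((M a : ℝ) + 1) * E := by nlinarith
        calc (2 * (E : ℝ) + 1) * ((M a : ℝ) * E + 1) ≤ (3 * E) * (((M a : ℝ) + 1) * E) :=
              mul_le_mul e1 e2 (by positivity) (by positivity)
          _ = _ := by ring
    _ = (∑ a ∈ A, (3 * ((M a : ℝ) + 1))) * (E : ℝ) ^ 2 := by rw [sum_mul]
    _ ≤ _ := mul_le_mul_of_nonneg_right (by linarith) (by positivity)

/-- few large prime factors -/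
theorem big_primes {δ : ℝ} (hδ : 0 < δ) {x : ℕ} (hx : 3 ≤ x) {N : ℕ} (hN : N ≠ 0) (hNx : N ≤ 3 * x) :
    (N.primeFactors.filter (fun ℓ : ℕ => (x : ℝ) ^ δ < ℓ)).card ≤ ⌈2 / δ⌉₊ := by
  have hx3 : (3 : ℝ) ≤ x := by exact_mod_cast hx
  have hx0 : (0 : ℝ) < x := by linarith
  have h1 : ((x : ℝ) ^ δ) ^ (N.primeFactors.filter (fun ℓ : ℕ => (x : ℝ) ^ δ < ℓ)).card ≤ N := by
    calc ((x : ℝ) ^ δ) ^ (N.primeFactors.filter (fun ℓ : ℕ => (x : ℝ) ^ δ < ℓ)).card
        = ∏ _ℓ ∈ N.primeFactors.filter (fun ℓ : ℕ => (x : ℝ) ^ δ < ℓ), (x : ℝ) ^ δ := by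
          rw [prod_const]
      _ ≤ ∏ ℓ ∈ N.primeFactors.filter (fun ℓ : ℕ => (x : ℝ) ^ δ < ℓ), (ℓ : ℝ) :=
          prod_le_prod (fun _ _ => by positivity) (fun ℓ hℓ => (mem_filter.1 hℓ).2.le)
      _ ≤ ∏ ℓ ∈ N.primeFactors, (ℓ : ℝ) := by
          have h0 : ∏ ℓ ∈ N.primeFactors.filter (fun ℓ : ℕ => (x : ℝ) ^ δ < ℓ), ℓ ≤
              ∏ ℓ ∈ N.primeFactors, ℓ := by
            apply prod_le_prod_of_subset_of_one_le' (filter_subset _ _)
            intro ℓ hℓ _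
            exact (Nat.prime_of_mem_primeFactors hℓ).one_le
          have h00 := (Nat.cast_le (α := ℝ)).2 h0
          rw [Nat.cast_prod, Nat.cast_prod] at h00
          exact h00
      _ = ((∏ ℓ ∈ N.primeFactors, ℓ : ℕ) : ℝ) := by push_cast; rfl
      _ ≤ N := by
          exact_mod_cast Nat.le_of_dvd (Nat.pos_of_ne_zero hN) (Nat.prod_primeFactors_dvd _)
  have h2 : (N : ℝ) ≤ (x : ℝ) ^ (2 : ℝ) := by
    have : (N : ℝ) ≤ 3 * x := by exact_mod_cast hNx
    rw [Real.rpow_two]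
    nlinarith
  rw [← Real.rpow_natCast, ← Real.rpow_mul hx0.le] at h1
  have h4 := (Real.rpow_le_rpow_left_iff (by linarith : (1 : ℝ) < x)).1 (h1.trans h2)
  have h5 : ((N.primeFactors.filter (fun ℓ : ℕ => (x : ℝ) ^ δ < ℓ)).card : ℝ) ≤ 2 / δ := by
    rw [le_div_iff₀ hδ]
    linarith
  exact_mod_cast h5.trans (Nat.le_ceil _)

end Pool.Agent.TH816.MQ
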