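import Pool.Agent.TH816.MQ.Al

/-! All but boundedly many prime bases have order `≥ (q - 1) / 2` along strings of consecutive primes:
the theorem. -/

set_option autoImplicit false

open Finset Filter

namespace Pool.Agent.TH816.MQ

/-- a divisor of `N`, `4 ∤ N`, other than `1` and `2` has an odd prime factor -/
theorem odd_factor {N j : ℕ} (hN : ¬ 4 ∣ N) (hj : j ∣ N) (h1 : j ≠ 1) (h2 : j ≠ 2) (hN0 : N ≠ 0) :
    ∃ ℓ : ℕ, ℓ.Prime ∧ ℓ ≠ 2 ∧ ℓ ∣ j := by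
  by_contra hcon
  push Not at hcon
  have hj0 : j ≠ 0 := fun h => hN0 (Nat.eq_zero_of_zero_dvd (h ▸ hj))
  have h3 : ∀ {d : ℕ}, d.Prime → d ∣ j → d = 2 := by
    intro d hd hdj
    by_contra hne
    exact hcon d hd hne hdj
  have h4 := Nat.eq_prime_pow_of_unique_prime_dvd hj0 h3
  rcases Nat.lt_or_ge (j.primeFactorsList.length) 2 with h5 | h5
  · interval_cases h6 : j.primeFactorsList.length
    · exact h1 (by rw [h4]; norm_num)
    · exact h2 (by rw [h4]; norm_num)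
  · apply hN
    have h6 : 2 ^ 2 ∣ j := by
      rw [h4]
      exact Nat.pow_dvd_pow 2 h5
    exact (by norm_num : (4 : ℕ) = 2 ^ 2) ▸ h6.trans hj

theorem all_but (m : ℕ) : ∃ (δ : ℝ) (C D : ℕ), 0 < δ ∧ ∀ (A : Finset ℕ) (f e : ℕ),
    (∀ a ∈ A, a.Prime) → 0 < f → 4 ∣ f → e.Coprime f → Nat.gcd (e - 1) f = 2 →
    ∃ B x₀ : ℕ, ∀ x : ℕ, x₀ ≤ x → ∃ G : Finset ℕ, G ⊆ Ico x (2 * x) ∧
      (x : ℝ) / Real.log x ^ C ≤ G.card ∧ ∀ n ∈ G, Str m B (fun q => q ≡ e [MOD f] ∧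
        (∀ ℓ : ℕ, ℓ.Prime → ℓ ∣ q - 1 → ℓ = 2 ∨ (x : ℝ) ^ δ < ℓ) ∧
        (∀ a ∈ A, Real.sqrt x ≤ Real.log x ^ C * orderOf ((a : ℕ) : ZMod q)) ∧
        (A.filter (fun a : ℕ => orderOf ((a : ℕ) : ZMod q) ≠ q - 1 ∧
          2 * orderOf ((a : ℕ) : ZMod q) ≠ q - 1)).card ≤ D) n := by
  classical
  obtain ⟨δ, C, hδ, hδ1, hmas⟩ := master m 1
  obtain ⟨s, hs⟩ : ∃ s : ℕ, s = ⌈4 / δ⌉₊ := ⟨_, rfl⟩
  obtain ⟨k0, hk0⟩ : ∃ k0 : ℕ, k0 = ⌈2 / δ⌉₊ := ⟨_, rfl⟩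
  have hs4 : 4 / δ ≤ s := by rw [hs]; exact Nat.le_ceil _
  refine ⟨δ, C + 1, k0 * s, hδ, fun A f e hA hf h4f hef hgcd => ?_⟩
  have h2f : 2 ∣ f := (by norm_num : 2 ∣ 4).trans h4f
  have hfge : 4 ≤ f := Nat.le_of_dvd hf h4f
  have he1 : 2 ∣ e - 1 := by rw [← hgcd]; exact Nat.gcd_dvd_left _ _
  have he0 : 0 < e := by
    rcases Nat.eq_zero_or_pos e with h | h
    · subst h
      rw [Nat.coprime_zero_left] at hef
      omega
    · exact h
  -- the class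
  obtain ⟨c, hc⟩ : ∃ c : ℕ, c = e - 1 := ⟨_, rfl⟩
  have hce : c + 1 = e := by omega
  obtain ⟨B, X₀, h⟩ := hmas f c 1 {0} hf (by simp) (by rw [hce]; exact hef) (by
    intro ρ hρ
    rw [mem_singleton] at hρ
    rw [hρ, add_zero, hc]
    intro hcop
    rw [Nat.coprime_iff_gcd_eq_one, hgcd] at hcop
    omega) (by
    intro ℓ hℓ hℓf
    refine ⟨1, fun ρ hρ hd => ?_⟩
    simp only [mem_insert, mem_singleton] at hρ
    rcases hρ with rfl | rfl
    · exact hℓf (((Nat.prime_dvd_prime_iff_eq hℓ Nat.prime_two).1 hd) ▸ h2f)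
    · exact hℓ.one_lt.ne' (Nat.dvd_one.1 hd))
  -- exceptional primes
  have hexc : ∀ S ∈ A.powersetCard s, ∃ (K : ℝ) (x₀ : ℕ), 0 < K ∧ ∀ x : ℕ, x₀ ≤ x →
      ((Exc δ S x).card : ℝ) ≤ K * (x : ℝ) ^ (1 - δ / 4) := by
    intro S hS
    rw [mem_powersetCard] at hS
    exact exc_card hδ hδ1 S (fun a ha => hA a (hS.1 ha)) (by rw [hS.2]; exact hs4)
  choose! K x₁ hK hx₁ using hexc
  obtain ⟨K2, hK2, hO⟩ := excO_card A hA
  obtain ⟨K1, hK1⟩ : ∃ K1 : ℝ, K1 = ∑ S ∈ A.powersetCard s, K S := ⟨_, rfl⟩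
  have hK10 : 0 ≤ K1 := by rw [hK1]; exact sum_nonneg fun S hS => (hK S hS).le
  -- eventual conditions
  have ev1 : ∀ᶠ x : ℕ in atTop, (4 * B * K1) * Real.log x ^ C ≤ (x : ℝ) ^ (δ / 4) :=
    (tendsto_natCast_atTop_atTop (R := ℝ)).eventually
      (Pool.Agent.H398R2.BV.ev_log _ _ (δ / 4) (by positivity))
  have ev2 : ∀ᶠ x : ℕ in atTop, (1 : ℝ) * Real.log x ^ (C + 1) ≤ (x : ℝ) ^ (1 / 2 : ℝ) :=
    (tendsto_natCast_atTop_atTop (R := ℝ)).eventually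
      (Pool.Agent.H398R2.BV.ev_log _ _ (1 / 2) (by positivity))
  have ev3 : ∀ᶠ x : ℕ in atTop, max 2 (4 * B * K2) ≤ Real.log x :=
    (Pool.Agent.H862R2.PPSm5.log_tendsto).eventually_ge_atTop _
  obtain ⟨X₁, hX₁⟩ := Filter.eventually_atTop.1 (ev1.and (ev2.and ev3))
  refine ⟨B, max (max X₀ X₁) (max (max (B + 3) (A.sup id)) ((A.powersetCard s).sup x₁)),
    fun x hx => ?_⟩
  simp only [max_le_iff] at hx
  obtain ⟨⟨hx1, hx2⟩, ⟨hx3, hx4⟩, hx5⟩ := hx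
  obtain ⟨v1, v2, v3⟩ := hX₁ x hx2
  simp only [max_le_iff] at v3
  obtain ⟨G, hG1, hG2, hG3⟩ := h x hx1
  have hx3' : 3 ≤ x := by omega
  have hxr : (3 : ℝ) ≤ x := by exact_mod_cast hx3'
  have hx0 : (0 : ℝ) < x := by linarith
  have hl : 0 < Real.log x := by linarith
  obtain ⟨E, hE⟩ : ∃ E : ℕ, E = ⌊(x : ℝ) ^ (1 / 2 : ℝ) / Real.log x ^ (C + 1)⌋₊ := ⟨_, rfl⟩
  have hE1 : 1 ≤ E := by
    rw [hE]
    apply Nat.le_floor
    rw [Nat.cast_one, le_div_iff₀ (by positivity)]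
    exact v2
  have hEle : (E : ℝ) ≤ (x : ℝ) ^ (1 / 2 : ℝ) / Real.log x ^ (C + 1) := by
    rw [hE]; exact Nat.floor_le (by positivity)
  obtain ⟨Q, hQ⟩ : ∃ Q : Finset ℕ, Q = (A.powersetCard s).biUnion (fun S => Exc δ S x) ∪
    ExcO A E x := ⟨_, rfl⟩
  have hQc : (B : ℝ) * Q.card ≤ (1 / 2) * ((x : ℝ) / Real.log x ^ C) := by
    have h1 : (Q.card : ℝ) ≤ K1 * (x : ℝ) ^ (1 - δ / 4) + K2 * (E : ℝ) ^ 2 := by
      have h2 : (((A.powersetCard s).biUnion (fun S => Exc δ S x)).card : ℝ) ≤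
          K1 * (x : ℝ) ^ (1 - δ / 4) := by
        calc (((A.powersetCard s).biUnion (fun S => Exc δ S x)).card : ℝ)
            ≤ ((∑ S ∈ A.powersetCard s, (Exc δ S x).card : ℕ) : ℝ) := by
              exact_mod_cast card_biUnion_le
          _ = ∑ S ∈ A.powersetCard s, ((Exc δ S x).card : ℝ) := by push_cast; rfl
          _ ≤ ∑ S ∈ A.powersetCard s, K S * (x : ℝ) ^ (1 - δ / 4) :=
              sum_le_sum fun S hS => hx₁ S hS x ((Finset.le_sup (f := x₁) hS).trans hx5)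
          _ = _ := by rw [hK1, sum_mul]
      have h3 := hO E x hE1
      have h4 : (Q.card : ℝ) ≤ (((A.powersetCard s).biUnion (fun S => Exc δ S x)).card : ℝ) +
          ((ExcO A E x).card : ℝ) := by
        rw [hQ]
        exact_mod_cast card_union_le _ _
      linarith
    have h2 : (B : ℝ) * (K1 * (x : ℝ) ^ (1 - δ / 4)) ≤ (1 / 4) * ((x : ℝ) / Real.log x ^ C) := by
      rw [mul_div_assoc', le_div_iff₀ (by positivity)]
      have e1 : (x : ℝ) = (x : ℝ) ^ (1 - δ / 4) * (x : ℝ) ^ (δ / 4) := by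
        rw [← Real.rpow_add hx0]; simp
      calc (B : ℝ) * (K1 * (x : ℝ) ^ (1 - δ / 4)) * Real.log x ^ C
          = (1 / 4) * ((x : ℝ) ^ (1 - δ / 4) * ((4 * B * K1) * Real.log x ^ C)) := by ring
        _ ≤ (1 / 4) * ((x : ℝ) ^ (1 - δ / 4) * (x : ℝ) ^ (δ / 4)) := by
            apply mul_le_mul_of_nonneg_left _ (by norm_num)
            exact mul_le_mul_of_nonneg_left v1 (by positivity)
        _ = (1 / 4) * x := by rw [← e1]
    have h3 : (B : ℝ) * (K2 * (E : ℝ) ^ 2) ≤ (1 / 4) * ((x : ℝ) / Real.log x ^ C) := by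
      have e1 : (E : ℝ) ^ 2 ≤ (x : ℝ) / Real.log x ^ (2 * (C + 1)) := by
        calc (E : ℝ) ^ 2 ≤ ((x : ℝ) ^ (1 / 2 : ℝ) / Real.log x ^ (C + 1)) ^ 2 :=
              pow_le_pow_left₀ (by positivity) hEle 2
          _ = (x : ℝ) / Real.log x ^ (2 * (C + 1)) := by
              rw [div_pow, ← pow_mul, mul_comm (C + 1) 2, ← Real.sqrt_eq_rpow,
                Real.sq_sqrt hx0.le]
      have e2 : Real.log x ≤ Real.log x ^ (C + 2) := by
        calc Real.log x = Real.log x ^ 1 := (pow_one _).symm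
          _ ≤ _ := pow_le_pow_right₀ (by linarith) (by omega)
      calc (B : ℝ) * (K2 * (E : ℝ) ^ 2)
          ≤ (B : ℝ) * (K2 * ((x : ℝ) / Real.log x ^ (2 * (C + 1)))) := by
            apply mul_le_mul_of_nonneg_left _ (Nat.cast_nonneg _)
            exact mul_le_mul_of_nonneg_left e1 hK2.le
        _ = (1 / 4) * ((4 * B * K2) * ((x : ℝ) / Real.log x ^ (2 * (C + 1)))) := by ring
        _ ≤ (1 / 4) * (Real.log x ^ (C + 2) * ((x : ℝ) / Real.log x ^ (2 * (C + 1)))) := by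
            apply mul_le_mul_of_nonneg_left _ (by norm_num)
            exact mul_le_mul_of_nonneg_right (v3.2.trans e2) (by positivity)
        _ = (1 / 4) * ((x : ℝ) / Real.log x ^ C) := by
            congr 1
            rw [mul_div_assoc', show 2 * (C + 1) = (C + 2) + C by ring, pow_add (Real.log x)
              (C + 2) C, mul_div_mul_left _ _ (by positivity)]
    calc (B : ℝ) * Q.card ≤ (B : ℝ) * (K1 * (x : ℝ) ^ (1 - δ / 4) + K2 * (E : ℝ) ^ 2) :=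
          mul_le_mul_of_nonneg_left h1 (Nat.cast_nonneg _)
      _ = (B : ℝ) * (K1 * (x : ℝ) ^ (1 - δ / 4)) + (B : ℝ) * (K2 * (E : ℝ) ^ 2) := by ring
      _ ≤ _ := by linarith
  refine ⟨G.filter (fun n => ∀ p ∈ Ioc n (n + B), p ∉ Q), (filter_subset _ _).trans hG1,
    prune B C x G Q hG2 hQc v3.1, fun n hn => ?_⟩
  rw [mem_filter] at hn
  obtain ⟨hnG, hnQ⟩ := hn
  have hnx := hG1 hnG
  rw [mem_Ico] at hnx
  obtain ⟨g1, g2⟩ := hG3 n hnG
  refine ⟨g1, fun q hq hqp => ?_⟩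
  obtain ⟨t1, t2⟩ := g2 q hq hqp
  have hqQ := hnQ q hq
  rw [mem_Ioc] at hq
  have hqx : q ≤ 3 * x := by omega
  have hxq : x < q := by omega
  have hqe : q ≡ e [MOD f] := by rw [← hce]; exact t1
  have hfact : Fact q.Prime := ⟨hqp⟩
  have hq1 : 1 < q := hqp.one_lt
  have hqN : q - 1 ≠ 0 := by omega
  have hrough : ∀ ℓ : ℕ, ℓ.Prime → ℓ ∣ q - 1 → ℓ = 2 ∨ (x : ℝ) ^ δ < ℓ := by
    intro ℓ hℓ hd
    by_cases hℓf : ℓ ∣ f
    · left
      have h1 : q ≡ e [MOD ℓ] := hqe.of_dvd hℓf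
      have h2 : q ≡ 1 [MOD ℓ] := ((Nat.modEq_iff_dvd' hq1.le).2 hd).symm
      have h3 : ℓ ∣ e - 1 := (Nat.modEq_iff_dvd' he0).1 (h2.symm.trans h1)
      have h4 := Nat.dvd_gcd h3 hℓf
      rw [hgcd] at h4
      exact (Nat.prime_dvd_prime_iff_eq hℓ Nat.prime_two).1 h4
    · right
      exact t2 0 (mem_singleton_self _) ℓ hℓ hℓf (by rw [add_zero]; exact hd)
  have hq4 : ¬ 4 ∣ q - 1 := by
    intro hd
    have h1 : q ≡ e [MOD 4] := hqe.of_dvd h4f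
    have h2 : q ≡ 1 [MOD 4] := ((Nat.modEq_iff_dvd' hq1.le).2 hd).symm
    have h3 : 4 ∣ e - 1 := (Nat.modEq_iff_dvd' he0).1 (h2.symm.trans h1)
    have h4 := Nat.dvd_gcd h3 h4f
    rw [hgcd] at h4
    omega
  have haq : ∀ a ∈ A, ¬ q ∣ a := by
    intro a ha hd
    have h1 := Nat.le_of_dvd (hA a ha).pos hd
    have h2 : a ≤ A.sup id := Finset.le_sup (f := id) ha
    omega
  have haz : ∀ a ∈ A, ((a : ℕ) : ZMod q) ≠ 0 := fun a ha h1 =>
    haq a ha ((ZMod.natCast_eq_zero_iff _ _).1 h1)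
  have hord : ∀ a ∈ A, orderOf ((a : ℕ) : ZMod q) ∣ q - 1 := fun a ha =>
    orderOf_dvd_of_pow_eq_one (ZMod.pow_card_sub_one_eq_one (haz a ha))
  refine ⟨hqe, hrough, ?_, ?_⟩
  · intro a ha
    have h1 : ¬ orderOf ((a : ℕ) : ZMod q) ≤ E := by
      intro h2
      apply hqQ
      rw [hQ, mem_union]
      right
      unfold ExcO
      rw [mem_filter, mem_Ioc]
      exact ⟨⟨hxq, hqx⟩, hqp, a, ha, haq a ha, h2⟩
    have h2 : (x : ℝ) ^ (1 / 2 : ℝ) / Real.log x ^ (C + 1) < E + 1 := by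
      rw [hE]; exact Nat.lt_floor_add_one _
    have h3 : ((E : ℝ) + 1) ≤ orderOf ((a : ℕ) : ZMod q) := by exact_mod_cast (not_le.1 h1)
    rw [div_lt_iff₀ (by positivity)] at h2
    rw [Real.sqrt_eq_rpow]
    have h4 : 0 < Real.log x ^ (C + 1) := by positivity
    nlinarith
  · -- at most `D` exceptions
    by_contra hcon
    push Not at hcon
    obtain ⟨Ab, hAb⟩ : ∃ Ab : Finset ℕ, Ab = A.filter (fun a : ℕ => orderOf ((a : ℕ) : ZMod q) ≠ q - 1 ∧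
          2 * orderOf ((a : ℕ) : ZMod q) ≠ q - 1) := ⟨_, rfl⟩
    rw [← hAb] at hcon
    have hch : ∀ a ∈ Ab, ∃ ℓ : ℕ, ℓ.Prime ∧ (x : ℝ) ^ δ < ℓ ∧ ℓ ∣ q - 1 ∧
        ((a : ℕ) : ZMod q) ^ ((q - 1) / ℓ) = 1 := by
      intro a ha
      rw [hAb, mem_filter] at ha
      obtain ⟨haA, h1, h2⟩ := ha
      obtain ⟨j, hj⟩ := hord a haA
      have hjd : j ∣ q - 1 := by rw [hj]; exact Dvd.intro_left _ rfl
      obtain ⟨ℓ, l1, l2, l3⟩ := odd_factor hq4 hjd (by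
        rintro rfl
        rw [mul_one] at hj
        exact h1 hj.symm) (by
        rintro rfl
        exact h2 (by rw [mul_comm]; exact hj.symm)) hqN
      have l4 : ℓ ∣ q - 1 := l3.trans hjd
      refine ⟨ℓ, l1, ?_, l4, ?_⟩
      · rcases hrough ℓ l1 l4 with l5 | l5
        · exact absurd l5 l2
        · exact l5
      · obtain ⟨i, hi⟩ := l3
        have h3 : (q - 1) / ℓ = orderOf ((a : ℕ) : ZMod q) * i := by
          rw [hj, hi, show orderOf ((a : ℕ) : ZMod q) * (ℓ * i) =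
            ℓ * (orderOf ((a : ℕ) : ZMod q) * i) by ring]
          exact Nat.mul_div_cancel_left _ l1.pos
        rw [h3, pow_mul, pow_orderOf_eq_one, one_pow]
    choose! L hL1 hL2 hL3 hL4 using hch
    obtain ⟨Tg, hTg⟩ : ∃ Tg : Finset ℕ, Tg = (q - 1).primeFactors.filter
      (fun ℓ : ℕ => (x : ℝ) ^ δ < ℓ) := ⟨_, rfl⟩
    have hTgc : Tg.card ≤ k0 := by
      rw [hTg, hk0]
      exact big_primes hδ hx3' hqN (by omega)
    obtain ⟨ℓ, hℓ, hfib⟩ := Finset.exists_lt_card_fiber_of_mul_lt_card_of_maps_to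
      (s := Ab) (t := Tg) (f := L) (n := s) (by
        intro a ha
        rw [hTg, mem_filter, Nat.mem_primeFactors]
        exact ⟨⟨hL1 a ha, hL3 a ha, hqN⟩, hL2 a ha⟩) (by
        exact lt_of_le_of_lt (Nat.mul_le_mul_right _ hTgc) hcon)
    obtain ⟨S, hS1, hS2⟩ := Finset.exists_subset_card_eq hfib.le
    have hSA : S ∈ A.powersetCard s := by
      rw [mem_powersetCard]
      refine ⟨fun a ha => ?_, hS2⟩
      have h1 := hS1 ha
      rw [mem_filter, hAb, mem_filter] at h1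
      exact h1.1.1
    have hℓ' := hℓ
    rw [hTg, mem_filter, Nat.mem_primeFactors] at hℓ'
    obtain ⟨⟨l1, l2, -⟩, l3⟩ := hℓ'
    apply hqQ
    rw [hQ, mem_union]
    left
    rw [mem_biUnion]
    refine ⟨S, hSA, ?_⟩
    unfold Exc
    rw [mem_filter, mem_Ioc]
    refine ⟨⟨hxq, hqx⟩, hqp, ?_, (q - 1) / ℓ, ?_, ?_, ?_⟩
    · intro a ha
      rw [mem_powersetCard] at hSA
      exact haq a (hSA.1 ha)
    · exact Nat.div_pos (Nat.le_of_dvd (by omega) l2) l1.pos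
    · have hxd : 0 < (x : ℝ) ^ δ := by positivity
      calc (((q - 1) / ℓ : ℕ) : ℝ) ≤ ((q - 1 : ℕ) : ℝ) / ℓ := Nat.cast_div_le
        _ ≤ (3 * x) / (x : ℝ) ^ δ := by
            apply div_le_div₀ (by positivity) _ hxd l3.le
            exact_mod_cast (by omega : q - 1 ≤ 3 * x)
        _ = 3 * (x : ℝ) ^ (1 - δ) := by
            rw [Real.rpow_sub hx0, Real.rpow_one, mul_div_assoc]
    · intro a ha
      have h1 := hS1 ha
      rw [mem_filter] at h1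
      have h2 := hL4 a h1.1
      rwa [h1.2] at h2

end Pool.Agent.TH816.MQ
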