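import Pool.Agent.TH816.MQ.Stm

/-! Elementary arithmetic for the positions and the residue class. -/

set_option autoImplicit false

open Finset

namespace Pool.Agent.TH816.MQ

open Pool.Agent.H361R2.PP

theorem rg_one {P : Finset ℕ} {a n : ℕ} (h : rg P a n = 1) : ∀ p ∈ P, ¬ p ∣ n + a := by
  unfold rg at h
  split_ifs at h with h1
  · exact h1
  · simp at h

/-- a class that avoids fewer than `ℓ` shifts -/
theorem avoid (ℓ : ℕ) (A : Finset ℕ) (hA : A.card < ℓ) : ∃ v : ℕ, ∀ a ∈ A, ¬ ℓ ∣ v + a := by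
  by_contra hcon
  push Not at hcon
  choose f hf using hcon
  have hinj : Set.InjOn f (range ℓ : Finset ℕ) := by
    intro v hv w hw hvw
    have h1 := (hf v).2
    have h2 := (hf w).2
    rw [hvw] at h1
    rw [mem_coe, mem_range] at hv hw
    have h3 : v + f w ≡ w + f w [MOD ℓ] := by
      unfold Nat.ModEq
      rw [Nat.mod_eq_zero_of_dvd h1, Nat.mod_eq_zero_of_dvd h2]
    have h4 : v ≡ w [MOD ℓ] := Nat.ModEq.add_right_cancel' _ h3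
    unfold Nat.ModEq at h4
    rwa [Nat.mod_eq_of_lt hv, Nat.mod_eq_of_lt hw] at h4
  have h5 := Finset.card_le_card_of_injOn f (fun v _ => (hf v).1) hinj
  rw [card_range] at h5
  omega

theorem crt_exists (q c : ℕ) (v : ℕ → ℕ) (S : Finset ℕ) (hS : ∀ ℓ ∈ S, ℓ.Prime ∧ ¬ ℓ ∣ q) :
    ∃ b : ℕ, b ≡ c [MOD q] ∧ ∀ ℓ ∈ S, b ≡ v ℓ [MOD ℓ] := by
  classical
  induction S using Finset.induction_on with
  | empty => exact ⟨c, Nat.ModEq.refl _, by simp⟩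
  | insert p S hp ih =>
    obtain ⟨b0, hb1, hb2⟩ := ih (fun ℓ hℓ => hS ℓ (mem_insert_of_mem hℓ))
    have hpp := hS p (mem_insert_self _ _)
    have hcop : (q * ∏ ℓ ∈ S, ℓ).Coprime p := by
      refine Nat.Coprime.mul_left ?_ ?_
      · exact ((Nat.Prime.coprime_iff_not_dvd hpp.1).2 hpp.2).symm
      · apply Nat.Coprime.prod_left
        intro ℓ hℓ
        rw [Nat.coprime_primes (hS ℓ (mem_insert_of_mem hℓ)).1 hpp.1]
        rintro rfl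
        exact hp hℓ
    obtain ⟨b, h1, h2⟩ := Nat.chineseRemainder hcop b0 (v p)
    refine ⟨b, ?_, fun ℓ hℓ => ?_⟩
    · exact (h1.of_mul_right _).trans hb1
    · rcases mem_insert.1 hℓ with rfl | hℓ
      · exact h2
      · have h3 : b ≡ b0 [MOD ∏ ℓ ∈ S, ℓ] := h1.of_mul_left _
        exact (h3.of_dvd (Finset.dvd_prod_of_mem _ hℓ)).trans (hb2 ℓ hℓ)

/-- base positions -/
def hb {T K : ℕ} (L : ℕ) (x : Fin T × Fin K) : ℕ := L * ((finProdFinEquiv x : Fin (T * K)).val + 1)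

theorem hb_inj {T K L : ℕ} (hL : 0 < L) : Function.Injective (fun x : Fin T × Fin K => hb L x) := by
  intro x y h
  have h1 : ((finProdFinEquiv x : Fin (T * K)).val + 1) =
    ((finProdFinEquiv y : Fin (T * K)).val + 1) := Nat.eq_of_mul_eq_mul_left hL h
  exact finProdFinEquiv.injective (Fin.ext (by omega))

theorem hb_le {T K L : ℕ} (x : Fin T × Fin K) : hb L x ≤ L * (T * K) :=
  Nat.mul_le_mul_left _ (finProdFinEquiv x).isLt

theorem hb_dvd {T K : ℕ} (L : ℕ) (x : Fin T × Fin K) : L ∣ hb L x := Dvd.intro _ rfl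

theorem hb_pos {T K L : ℕ} (hL : 0 < L) (x : Fin T × Fin K) : 1 ≤ hb L x :=
  Nat.mul_pos hL (Nat.succ_pos _)

/-- primes used to kill positions -/
noncomputable def kp (s t : ℕ) : ℕ := Nat.nth Nat.Prime (s + t)

theorem kp_prime (s t : ℕ) : (kp s t).Prime := Nat.prime_nth_prime _

theorem kp_gt (s t : ℕ) : s + t + 2 ≤ kp s t := Nat.add_two_le_nth_prime _

theorem kp_inj {s t t' : ℕ} (h : kp s t = kp s t') : t = t' := by
  have := Nat.nth_injective Nat.infinite_setOf_prime h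
  omega

/-- the residues -/
theorem res_exists (q c z B L0 L : ℕ) (hq : 0 < q) (U K : Finset ℕ)
    (hU : ∀ u ∈ U, u ≤ B) (hK : ∀ t ∈ K, t ≤ B) (hUK : Disjoint U K) (hUc : U.card ≤ L0)
    (hLL : ∀ ℓ : ℕ, ℓ.Prime → ℓ ≤ L0 → ℓ ∣ L) (R : Finset ℕ)
    (hUR : ∀ u ∈ U, ∃ ρ ∈ insert z R, ∃ h, L ∣ h ∧ u = h + ρ)
    (hadm : ∀ ℓ : ℕ, ℓ.Prime → ¬ ℓ ∣ q → ∃ v : ℕ, ∀ ρ ∈ insert z R, ¬ ℓ ∣ v + ρ) (ℓ : ℕ)
    (hℓ : ℓ.Prime) (hℓq : ¬ ℓ ∣ q) :
    ∃ v : ℕ, (∀ u ∈ U, ¬ ℓ ∣ v + u) ∧ ∀ t ∈ K, ℓ = kp (B + q + L0) t → ℓ ∣ v + t := by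
  by_cases hk : ∃ t ∈ K, ℓ = kp (B + q + L0) t
  · obtain ⟨t0, ht0, rfl⟩ := hk
    have hgt := kp_gt (B + q + L0) t0
    have htB := hK t0 ht0
    refine ⟨kp (B + q + L0) t0 - t0, fun u hu hdv => ?_, fun t ht h => ?_⟩
    · have huB := hU u hu
      have hne : u ≠ t0 := by
        rintro rfl
        exact (Finset.disjoint_left.1 hUK) hu ht0
      obtain ⟨k, hk⟩ := hdv
      rcases Nat.lt_trichotomy k 1 with hk1 | hk1 | hk1
      · have : k = 0 := by omega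
        subst this
        omega
      · subst hk1
        omega
      · have : kp (B + q + L0) t0 * 2 ≤ kp (B + q + L0) t0 * k := Nat.mul_le_mul_left _ hk1
        omega
    · have := kp_inj h
      subst this
      have : kp (B + q + L0) t0 - t0 + t0 = kp (B + q + L0) t0 := by omega
      rw [this]
  · push Not at hk
    by_cases hs : ℓ ≤ L0
    · obtain ⟨v, hv⟩ := hadm ℓ hℓ hℓq
      refine ⟨v, fun u hu hdv => ?_, fun t ht h => absurd h (hk t ht)⟩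
      obtain ⟨ρ, hρ, h, hLh, rfl⟩ := hUR u hu
      have h1 : ℓ ∣ h := (hLL ℓ hℓ hs).trans hLh
      have h2 : ℓ ∣ (v + ρ) + h := by
        have : v + (h + ρ) = v + ρ + h := by ring
        rwa [this] at hdv
      exact hv ρ hρ ((Nat.dvd_add_left h1).1 h2)
    · obtain ⟨v, hv⟩ := avoid ℓ U (by omega)
      exact ⟨v, hv, fun t ht h => absurd h (hk t ht)⟩

/-- the class modulo `Wq q X` -/
theorem cls_exists (q c z B L0 L : ℕ) (hq : 0 < q) (U K : Finset ℕ)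
    (hU : ∀ u ∈ U, u ≤ B) (hK : ∀ t ∈ K, t ≤ B) (hUK : Disjoint U K) (hUc : U.card ≤ L0)
    (hLL : ∀ ℓ : ℕ, ℓ.Prime → ℓ ≤ L0 → ℓ ∣ L) (R : Finset ℕ)
    (hUR : ∀ u ∈ U, ∃ ρ ∈ insert z R, ∃ h, L ∣ h ∧ u = h + ρ)
    (hadm : ∀ ℓ : ℕ, ℓ.Prime → ¬ ℓ ∣ q → ∃ v : ℕ, ∀ ρ ∈ insert z R, ¬ ℓ ∣ v + ρ) (X : ℕ) :
    ∃ b : ℕ, b < Wq q X ∧ b ≡ c [MOD q] ∧
      (∀ ℓ : ℕ, ℓ.Prime → ℓ ≤ HH X → ¬ ℓ ∣ q → ∀ u ∈ U, ¬ ℓ ∣ b + u) ∧
      ∀ t ∈ K, kp (B + q + L0) t ≤ HH X → kp (B + q + L0) t ∣ b + t := by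
  classical
  choose! v hv1 hv2 using res_exists q c z B L0 L hq U K hU hK hUK hUc hLL R hUR hadm
  obtain ⟨b0, h1, h2⟩ := crt_exists q c v ((range (HH X + 1)).filter (fun ℓ => ℓ.Prime ∧ ¬ ℓ ∣ q))
    (fun ℓ hℓ => (mem_filter.1 hℓ).2)
  have hW : 0 < Wq q X := Nat.mul_pos hq (primorial_pos _)
  have hbm : ∀ ℓ : ℕ, ℓ.Prime → ℓ ≤ HH X → ¬ ℓ ∣ q → b0 % Wq q X ≡ v ℓ [MOD ℓ] := by
    intro ℓ hℓ hℓH hℓq
    have h3 := h2 ℓ (by
      rw [mem_filter, mem_range]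
      exact ⟨by omega, hℓ, hℓq⟩)
    refine Nat.ModEq.trans ?_ h3
    apply Nat.ModEq.of_dvd _ (Nat.mod_modEq b0 (Wq q X))
    unfold Wq
    apply Dvd.dvd.mul_left
    unfold Wm primorial
    apply Finset.dvd_prod_of_mem
    rw [mem_filter, mem_range]
    exact ⟨by omega, hℓ⟩
  refine ⟨b0 % Wq q X, Nat.mod_lt _ hW, ?_, ?_, ?_⟩
  · refine Nat.ModEq.trans ?_ h1
    apply Nat.ModEq.of_dvd _ (Nat.mod_modEq b0 (Wq q X))
    unfold Wq
    exact Dvd.intro _ rfl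
  · intro ℓ hℓ hℓH hℓq u hu hdv
    apply hv1 ℓ hℓ hℓq u hu
    have h3 := hbm ℓ hℓ hℓH hℓq
    have h4 : b0 % Wq q X + u ≡ v ℓ + u [MOD ℓ] := h3.add_right u
    exact (Nat.modEq_zero_iff_dvd.1 ((h4.symm).trans (Nat.modEq_zero_iff_dvd.2 hdv)))
  · intro t ht htH
    have hk := kp_prime (B + q + L0) t
    have hkq : ¬ kp (B + q + L0) t ∣ q := by
      intro h
      have := Nat.le_of_dvd hq h
      have := kp_gt (B + q + L0) t
      omega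
    have h3 := hbm _ hk htH hkq
    have h4 : b0 % Wq q X + t ≡ v (kp (B + q + L0) t) + t [MOD kp (B + q + L0) t] := h3.add_right t
    have h5 := hv2 _ hk hkq t ht rfl
    exact Nat.modEq_zero_iff_dvd.1 (h4.trans (Nat.modEq_zero_iff_dvd.2 h5))

end Pool.Agent.TH816.MQ
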