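import Pool.Agent.TH816.MQ.Ch

/-! Almost prime Cunningham chains of the second kind that end at consecutive primes. -/

set_option autoImplicit false

open Finset Filter

namespace Pool.Agent.TH816.MQ

/-- the second kind -/
theorem second_kind (k m : ℕ) (hk : 1 ≤ k) : ∃ (δ : ℝ) (R C : ℕ), 0 < δ ∧ ∀ f a : ℕ, Odd f →
    (∀ i < k, ∀ ℓ : ℕ, ℓ.Prime → ℓ ∣ f → ¬ a + 2 ^ i ≡ 1 [MOD ℓ]) →
    ∃ B x₀ : ℕ, ∀ x : ℕ, x₀ ≤ x → ∃ G : Finset ℕ, G ⊆ Ico x (2 * x) ∧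
      (x : ℝ) / Real.log x ^ C ≤ G.card ∧
      ∀ n ∈ G, Str m B (fun p => p ≡ a [MOD f] ∧ Chain2 k R ((x : ℝ) ^ δ) p) n := by
  classical
  obtain ⟨δ, C, hδ, hδ1, hmas⟩ := master m k
  obtain ⟨xo, hom⟩ := omega_le hδ
  refine ⟨δ, ⌈2 / δ⌉₊, C, hδ, fun f a hf hfa => ?_⟩
  have hf0 : 0 < f := hf.pos
  have hcopf : (2 ^ k).Coprime f := Nat.Coprime.pow_left _ (Nat.coprime_two_left.2 hf)
  obtain ⟨c, hc1, hc2⟩ := Nat.chineseRemainder hcopf 0 (a + (f - 1))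
  have hcf : c + 1 ≡ a [MOD f] := by
    have h1 := hc2.add_right 1
    have e : a + (f - 1) + 1 = a + f := by omega
    rw [e] at h1
    refine h1.trans ?_
    unfold Nat.ModEq
    rw [Nat.add_mod_right]
  have hc2' : 2 ∣ c := (dvd_pow_self 2 (by omega)).trans (Nat.modEq_zero_iff_dvd.1 hc1)
  obtain ⟨Rs, hRs⟩ : ∃ Rs : Finset ℕ, Rs = (Ico 1 k).image (fun i => 2 ^ i) := ⟨_, rfl⟩
  have hRc : Rs.card ≤ k := by
    rw [hRs]
    refine card_image_le.trans ?_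
    rw [Nat.card_Ico]
    omega
  have hcz : (c + 1).Coprime (2 ^ k * f) := by
    refine Nat.Coprime.mul_right ?_ ?_
    · apply Nat.Coprime.pow_right
      rw [Nat.coprime_two_right, ← Nat.not_even_iff_odd]
      intro h2
      have h3 := h2.two_dvd
      omega
    · apply Nat.Coprime.symm
      rw [Nat.coprime_iff_gcd_eq_one]
      by_contra hne
      obtain ⟨ℓ, hℓ, hd⟩ := Nat.exists_prime_and_dvd hne
      have h1 : ℓ ∣ f := hd.trans (Nat.gcd_dvd_left _ _)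
      have h2 : ℓ ∣ c + 1 := hd.trans (Nat.gcd_dvd_right _ _)
      apply hfa 0 (by omega) ℓ hℓ h1
      have h3 : a ≡ 0 [MOD ℓ] := (hcf.of_dvd h1).symm.trans (Nat.modEq_zero_iff_dvd.2 h2)
      have h4 := h3.add_right 1
      rwa [zero_add] at h4
  have hcR : ∀ ρ ∈ Rs, ¬ (c + ρ).Coprime (2 ^ k * f) := by
    intro ρ hρ hcop
    rw [hRs, mem_image] at hρ
    obtain ⟨i, hi, rfl⟩ := hρ
    rw [mem_Ico] at hi
    have h1 := (Nat.coprime_mul_iff_right.1 hcop).1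
    have h2 : (c + 2 ^ i).Coprime 2 :=
      Nat.Coprime.coprime_dvd_right (dvd_pow_self 2 (by omega)) h1
    rw [Nat.coprime_two_right, ← Nat.not_even_iff_odd] at h2
    apply h2
    have h4 : 2 ∣ 2 ^ i := dvd_pow_self 2 (by omega)
    rw [even_iff_two_dvd]
    omega
  have hadm : ∀ ℓ : ℕ, ℓ.Prime → ¬ ℓ ∣ 2 ^ k * f → ∃ v : ℕ, ∀ ρ ∈ insert 1 Rs, ¬ ℓ ∣ v + ρ := by
    intro ℓ hℓ hℓq
    have hℓ2 : ¬ ℓ ∣ 2 := by
      intro h
      exact hℓq ((h.trans (dvd_pow_self 2 (by omega : k ≠ 0))).mul_right _)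
    refine ⟨0, fun ρ hρ hd => ?_⟩
    rw [zero_add] at hd
    rcases mem_insert.1 hρ with rfl | hρ
    · exact hℓ.one_lt.ne' (Nat.dvd_one.1 hd)
    · rw [hRs, mem_image] at hρ
      obtain ⟨i, hi, rfl⟩ := hρ
      exact hℓ2 (hℓ.dvd_of_dvd_pow hd)
  obtain ⟨B, X₀, h⟩ := hmas (2 ^ k * f) c 1 Rs (by positivity) hRc hcz hcR hadm
  refine ⟨B, max (max X₀ xo) (max (B + 3) (f + 2 ^ k)), fun x hx => ?_⟩
  simp only [max_le_iff] at hx
  obtain ⟨⟨hx1, hx2⟩, hx3, hx5⟩ := hx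
  obtain ⟨G, hG1, hG2, hG3⟩ := h x hx1
  refine ⟨G, hG1, hG2, fun n hn => ?_⟩
  have hnx := hG1 hn
  rw [mem_Ico] at hnx
  obtain ⟨g1, g2⟩ := hG3 n hn
  refine ⟨g1, fun p hp hpp => ?_⟩
  obtain ⟨k1, k2⟩ := g2 p hp hpp
  rw [mem_Ioc] at hp
  have hpx : p ≤ 3 * x := by omega
  have hp1 := hpp.one_lt
  have hpk : p ≡ 1 [MOD 2 ^ k] := by
    have h1 := hc1.add_right 1
    rw [zero_add] at h1
    exact (k1.of_dvd (Dvd.intro _ rfl)).trans h1
  have hpf : p ≡ a [MOD f] := (k1.of_dvd (Dvd.intro_left _ rfl)).trans hcf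
  have hpd : 2 ^ k ∣ p - 1 := (Nat.modEq_iff_dvd' hp1.le).1 hpk.symm
  refine ⟨hpf, chain2_of hp1 hpd ?_ ?_⟩
  · intro i hi ℓ hℓ hd
    have hdi : 2 ^ i ∣ p - 1 := (Nat.pow_dvd_pow 2 hi.le).trans hpd
    obtain ⟨u, hu⟩ := hdi
    have hdiv : (p - 1) / 2 ^ i = u := by
      rw [hu]; exact Nat.mul_div_cancel_left _ (by positivity)
    -- `u` is even
    have hu2 : 2 ∣ u := by
      have h1 : 2 ^ (i + 1) ∣ p - 1 := (Nat.pow_dvd_pow 2 (by omega)).trans hpd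
      rw [hu, pow_succ] at h1
      exact Nat.dvd_of_mul_dvd_mul_left (by positivity) h1
    rw [hdiv] at hd
    have hkey : 2 ^ i * (u + 1) = p - 1 + 2 ^ i := by
      rw [hu]; ring
    have hdp : ℓ ∣ p - 1 + 2 ^ i := by
      rw [← hkey]; exact hd.mul_left _
    have hℓ2 : ¬ ℓ ∣ 2 := by
      intro h
      have h3 : ℓ = 2 := (Nat.prime_dvd_prime_iff_eq hℓ Nat.prime_two).1 h
      rw [h3] at hd
      omega
    have hℓq : ¬ ℓ ∣ 2 ^ k * f := by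
      intro h
      rcases (Nat.Prime.dvd_mul hℓ).1 h with h1 | h1
      · exact hℓ2 (hℓ.dvd_of_dvd_pow h1)
      · apply hfa i hi ℓ hℓ h1
        have h3 : p + 2 ^ i ≡ a + 2 ^ i [MOD ℓ] := (hpf.of_dvd h1).add_right _
        have h4 : p + 2 ^ i ≡ 1 [MOD ℓ] := by
          have e : p + 2 ^ i = p - 1 + 2 ^ i + 1 := by omega
          rw [e]
          have := (Nat.modEq_zero_iff_dvd.2 hdp).add_right 1
          rwa [zero_add] at this
        exact h3.symm.trans h4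
    rcases Nat.eq_zero_or_pos i with hi0 | hi0
    · subst hi0
      have h3 : ℓ ∣ p := by
        rw [pow_zero] at hdp
        rwa [Nat.sub_add_cancel hp1.le] at hdp
      have h4 : ℓ = p := (Nat.prime_dvd_prime_iff_eq hℓ hpp).1 h3
      rw [h4]
      have h5 : (x : ℝ) ^ δ ≤ (x : ℝ) ^ (1 : ℝ) := by
        apply Real.rpow_le_rpow_of_exponent_le _ hδ1
        have : 1 ≤ x := by omega
        exact_mod_cast this
      rw [Real.rpow_one] at h5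
      have h6 : (x : ℝ) < p := by exact_mod_cast (by omega : x < p)
      linarith
    · exact k2 (2 ^ i) (by
        rw [hRs, mem_image]
        exact ⟨i, mem_Ico.2 ⟨hi0, hi⟩, rfl⟩) ℓ hℓ hℓq hdp
  · intro N hN hNp hr
    exact hom x hx2 3 N hN (hNp.trans hpx) (by omega) hr

end Pool.Agent.TH816.MQ
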