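import Pool.Agent.TH816.MQ.Mas

/-! Constellations of rough numbers through strings of consecutive primes in bounded intervals. -/

set_option autoImplicit false

open Finset Filter

namespace Pool.Agent.TH816.MQ

open Pool.Agent.H361R2.PP
open Pool.Agent.W70.HR

/-- `t ≡ c (mod q)` and for each `ρ ∈ R` the number `t + ρ` is free of the primes `≤ Y` not
dividing `q` -/
def Cst (q c : ℕ) (R : Finset ℕ) (Y : ℝ) (t : ℕ) : Prop :=
  t ≡ c [MOD q] ∧ ∀ ρ ∈ R, ∀ ℓ : ℕ, ℓ.Prime → ¬ ℓ ∣ q → ℓ ∣ t + ρ → Y < ℓ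

/-- `(n, n + B]` contains `m` integers `t` with `t + z` prime and `Cst t`, `t + R` contained in
`(n, n + B]`, and each prime of `(n, n + B]` belongs to such a set `t + R` -/
def Wcst (q c z : ℕ) (R : Finset ℕ) (m B : ℕ) (Y : ℝ) (n : ℕ) : Prop :=
  (∃ S : Finset ℕ, S.card = m ∧ ∀ t ∈ S, n < t ∧ (∀ ρ ∈ R, t + ρ ≤ n + B) ∧ (t + z).Prime ∧
    Cst q c R Y t) ∧
  ∀ p ∈ Ioc n (n + B), p.Prime → ∃ t, n < t ∧ (∀ ρ ∈ R, t + ρ ≤ n + B) ∧ Cst q c R Y t ∧
    ∃ ρ ∈ R, p = t + ρ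

theorem master2 (m r : ℕ) : ∃ (δ : ℝ) (C : ℕ), 0 < δ ∧ δ ≤ 1 ∧
    ∀ (q c z : ℕ) (R : Finset ℕ), 0 < q → R.card ≤ r → z ∈ R → (c + z).Coprime q →
    (∀ ℓ : ℕ, ℓ.Prime → ¬ ℓ ∣ q → ∃ v : ℕ, ∀ ρ ∈ R, ¬ ℓ ∣ v + ρ) →
    ∃ B X₀ : ℕ, ∀ X : ℕ, X₀ ≤ X → ∃ G : Finset ℕ, G ⊆ Ico X (2 * X) ∧
      (X : ℝ) / Real.log X ^ C ≤ G.card ∧ ∀ n ∈ G, Wcst q c z R m B ((X : ℝ) ^ δ) n := by
  classical
  obtain ⟨K, hK, hmt⟩ := mtq (4 * (m + 1)) (by omega)
  obtain ⟨T, hT⟩ : ∃ T : ℕ, T = 4 * (m + 1) := ⟨_, rfl⟩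
  rw [← hT] at hmt
  obtain ⟨N, hN⟩ : ∃ N : ℕ, N = T * K * (r + 1) := ⟨_, rfl⟩
  obtain ⟨δ, c0, hδ, hδ8, hc0, hmt⟩ := hmt 1 N one_pos
  obtain ⟨cv, hcv, hcv1, hvv⟩ := Pool.Agent.H862R2.PPSm5.vv_lower
  obtain ⟨-, hW2⟩ := Pool.Agent.H325R2.wtx
  refine ⟨δ / 3, N + 2, by positivity, by linarith, fun q c z R hq hRc hzR hcz hadm0 => ?_⟩
  have hins : insert z R = R := insert_eq_of_mem hzR
  have hadm : ∀ ℓ : ℕ, ℓ.Prime → ¬ ℓ ∣ q → ∃ v : ℕ, ∀ ρ ∈ insert z R, ¬ ℓ ∣ v + ρ := by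
    rw [hins]; exact hadm0
  obtain ⟨X1, hmt⟩ := hmt q hq
  obtain ⟨X2, hwtx⟩ := hW2 δ hδ (by linarith)
  obtain ⟨X3, hWle⟩ := Wq_le q
  -- positions
  obtain ⟨L, hLdef⟩ : ∃ L : ℕ, L = q * N.factorial := ⟨_, rfl⟩
  have hL : 0 < L := by rw [hLdef]; exact Nat.mul_pos hq (Nat.factorial_pos _)
  have hqL : q ∣ L := by rw [hLdef]; exact Dvd.intro _ rfl
  obtain ⟨H, hH⟩ : ∃ H : Fin T → Fin K → ℕ, H = fun g i => hb L (g, i) + z := ⟨_, rfl⟩
  obtain ⟨U, hUdef⟩ : ∃ U : Finset ℕ, U = ((univ : Finset (Fin T × Fin K)) ×ˢ insert z R).image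
    (fun y => hb L y.1 + y.2) := ⟨_, rfl⟩
  obtain ⟨B, hB⟩ : ∃ B : ℕ, B = L * (T * K) + z + ∑ ρ ∈ R, ρ := ⟨_, rfl⟩
  obtain ⟨Kl, hKl⟩ : ∃ Kl : Finset ℕ, Kl = (Icc 1 B).filter
    (fun t => (c + t).Coprime q ∧ t ∉ U) := ⟨_, rfl⟩
  have hUmem : ∀ u ∈ U, ∃ x : Fin T × Fin K, ∃ ρ ∈ insert z R, u = hb L x + ρ := by
    intro u hu
    rw [hUdef, mem_image] at hu
    obtain ⟨⟨x, ρ⟩, hx, rfl⟩ := hu
    rw [mem_product] at hx
    exact ⟨x, ρ, hx.2, rfl⟩
  have hmemU : ∀ (x : Fin T × Fin K) (ρ : ℕ), ρ ∈ insert z R → hb L x + ρ ∈ U := by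
    intro x ρ hρ
    rw [hUdef, mem_image]
    exact ⟨(x, ρ), mem_product.2 ⟨mem_univ _, hρ⟩, rfl⟩
  have hUc : U.card ≤ N := by
    rw [hUdef]
    refine card_image_le.trans ?_
    rw [card_product, card_univ, Fintype.card_prod, Fintype.card_fin, Fintype.card_fin, hN]
    apply Nat.mul_le_mul_left
    exact (card_insert_le _ _).trans (by omega)
  have hρB : ∀ ρ ∈ insert z R, ρ ≤ z + ∑ ρ ∈ R, ρ := by
    intro ρ hρ
    rcases mem_insert.1 hρ with rfl | hρ
    · omega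
    · have := single_le_sum (f := fun ρ : ℕ => ρ) (fun _ _ => Nat.zero_le _) hρ
      omega
  have hUB : ∀ u ∈ U, 1 ≤ u ∧ u ≤ B := by
    intro u hu
    obtain ⟨x, ρ, hρ, rfl⟩ := hUmem u hu
    have h1 := hρB ρ hρ
    have h2 := hb_le (L := L) x
    have h3 := hb_pos hL x
    omega
  have hcop : ∀ (x : Fin T × Fin K) (ρ : ℕ), (c + (hb L x + ρ)).Coprime q ↔ (c + ρ).Coprime q := by
    intro x ρ
    have h1 : c + (hb L x + ρ) ≡ c + ρ [MOD q] := by
      have h2 : hb L x ≡ 0 [MOD q] := Nat.modEq_zero_iff_dvd.2 (hqL.trans (hb_dvd L x))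
      have h3 := (h2.add_right ρ).add_left c
      rwa [zero_add] at h3
    unfold Nat.Coprime
    rw [h1.gcd_eq]
  have hUK : Disjoint U Kl := by
    rw [Finset.disjoint_left]
    intro u hu hk
    rw [hKl, mem_filter] at hk
    exact hk.2.2 hu
  have hLL : ∀ ℓ : ℕ, ℓ.Prime → ℓ ≤ N → ℓ ∣ L := by
    intro ℓ hℓ hℓN
    rw [hLdef]
    exact ((Nat.Prime.dvd_factorial hℓ).2 hℓN).mul_left _
  have hUR : ∀ u ∈ U, ∃ ρ ∈ insert z R, ∃ h, L ∣ h ∧ u = h + ρ := by
    intro u hu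
    obtain ⟨x, ρ, hρ, rfl⟩ := hUmem u hu
    exact ⟨ρ, hρ, _, hb_dvd L x, rfl⟩
  have hKB : ∀ t ∈ Kl, t ≤ B := by
    intro t ht
    rw [hKl, mem_filter, mem_Icc] at ht
    exact ht.1.2
  -- eventual conditions
  have hev : ∀ᶠ X : ℕ in atTop, (max 2 (Kl.sup (kp (B + q + N))) ≤ HH X) ∧
      max (max 1 (B : ℝ)) (1 / (c0 * cv ^ N)) ≤ Real.log X := by
    filter_upwards [(Pool.Agent.H862R2.PPSm5.HH_tendsto).eventually_ge_atTop
      (max 2 (Kl.sup (kp (B + q + N)))),
      (Pool.Agent.H862R2.PPSm5.log_tendsto).eventually_ge_atTop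
        (max (max 1 (B : ℝ)) (1 / (c0 * cv ^ N)))] with X a1 a2
    exact ⟨a1, a2⟩
  obtain ⟨X4, hX4⟩ := Filter.eventually_atTop.1 hev
  refine ⟨B, max (max (max X1 X2) (max X3 X4)) (max 16 (q + z)), fun X hX => ?_⟩
  simp only [max_le_iff] at hX
  obtain ⟨⟨⟨hX1, hX2⟩, hX3, hX4'⟩, hX16, hXqz⟩ := hX
  obtain ⟨hHH, hlog⟩ := hX4 X hX4'
  simp only [max_le_iff] at hHH hlog
  obtain ⟨⟨hlog1, hlogB⟩, hlogc⟩ := hlog
  obtain ⟨hw1, hw2, hw3⟩ := hwtx X hX2
  have hXr : (16 : ℝ) ≤ X := by exact_mod_cast hX16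
  have hX0 : (0 : ℝ) < X := by linarith
  have hWq0 : 0 < Wq q X := Wq_pos hq X
  obtain ⟨b, hbW, hbc, hb1, hb2⟩ := cls_exists q c z B N L hq U Kl (fun u hu => (hUB u hu).2) hKB
    hUK hUc hLL R hUR hadm X
  obtain ⟨hV, hmt⟩ := hmt X hX1 b hbW
  have hHU : ∀ g i, H g i ∈ U := by
    intro g i
    rw [hH]
    exact hmemU (g, i) z (mem_insert_self _ _)
  have hinj : Function.Injective (fun x : Fin T × Fin K => H x.1 x.2) := by
    intro x y hxy
    rw [hH] at hxy
    have hxy' : hb L x = hb L y := by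
      have : hb L x + z = hb L y + z := hxy
      omega
    exact hb_inj hL hxy'
  have hUIt : U ⊆ It 1 X := by
    intro u hu
    obtain ⟨h1, h2⟩ := hUB u hu
    unfold It
    rw [mem_Icc]
    refine ⟨h1, ?_⟩
    rw [one_mul]
    apply Nat.le_floor
    have : (u : ℝ) ≤ B := by exact_mod_cast h2
    linarith
  have hHB : ∀ g i, H g i ∈ Bq q 1 X b := by
    intro g i
    unfold Bq
    rw [mem_filter]
    refine ⟨hUIt (hHU g i), ?_⟩
    have hq' : (b + H g i).Coprime q := by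
      have h1 : b + H g i ≡ c + H g i [MOD q] := hbc.add_right _
      unfold Nat.Coprime
      rw [h1.gcd_eq, hH]
      exact (hcop (g, i) z).2 hcz
    unfold Wq
    refine Nat.Coprime.mul_right hq' ?_
    unfold Wm primorial
    apply Nat.Coprime.prod_right
    intro ℓ hℓ
    rw [mem_filter, mem_range] at hℓ
    apply Nat.Coprime.symm
    rw [Nat.Prime.coprime_iff_not_dvd hℓ.2]
    by_cases hℓq : ℓ ∣ q
    · intro hd
      have h2 := Nat.dvd_gcd hd hℓq
      rw [hq'] at h2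
      exact hℓ.2.one_lt.ne' (Nat.dvd_one.1 h2)
    · exact hb1 ℓ hℓ.2 (by omega) hℓq _ (hHU g i)
  have hcount := hmt H U hHU hinj hUIt hHB (by omega)
  refine ⟨HSq q δ X b H U, ?_, ?_, ?_⟩
  · intro n hn
    unfold HSq SIq at hn
    rw [mem_filter, mem_filter] at hn
    exact hn.1.1
  · -- the count
    refine le_trans ?_ hcount
    have hVl := hvv X δ hδ (by linarith) hX16 hHH.1 hw1 hw3
    have hV1 := Pool.Agent.H862R2.PPSm5.vv_le_one δ X
    have hl0 : 0 < Real.log X := by linarith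
    have h1 : (cv / Real.log X) ^ N ≤ VV δ X ^ U.card := by
      calc (cv / Real.log X) ^ N ≤ VV δ X ^ N := pow_le_pow_left₀ (by positivity) hVl N
        _ ≤ VV δ X ^ U.card := pow_le_pow_of_le_one hV.le hV1 hUc
    have h2 : (X : ℝ) / Real.log X ≤ (X : ℝ) / Wq q X := by
      apply div_le_div_of_nonneg_left hX0.le _ (hWle X hX3)
      exact_mod_cast hWq0
    unfold Omq
    calc (X : ℝ) / Real.log X ^ (N + 2) =
        (1 / Real.log X) * ((X : ℝ) / Real.log X * (1 / Real.log X ^ N)) := by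
          rw [pow_add]; field_simp
      _ ≤ (c0 * cv ^ N) * ((X : ℝ) / Real.log X * (1 / Real.log X ^ N)) := by
          apply mul_le_mul_of_nonneg_right _ (by positivity)
          rw [div_le_iff₀ hl0]
          rw [div_le_iff₀ (by positivity)] at hlogc
          linarith
      _ = c0 * ((X : ℝ) / Real.log X * (cv / Real.log X) ^ N) := by
          rw [div_pow]; ring
      _ ≤ c0 * ((X : ℝ) / Wq q X * VV δ X ^ U.card) := by
          apply mul_le_mul_of_nonneg_left _ hc0.le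
          exact mul_le_mul h2 h1 (by positivity) (by positivity)
  · intro n hn
    unfold HSq SIq at hn
    rw [mem_filter, mem_filter, mem_Ico] at hn
    obtain ⟨⟨⟨hnX, hnX2⟩, hnb⟩, hrg, hT4⟩ := hn
    have hnW : n ≡ b [MOD Wq q X] := by
      unfold Nat.ModEq
      rw [hnb, Nat.mod_eq_of_lt hbW]
    have hnq : n ≡ c [MOD q] := by
      refine Nat.ModEq.trans ?_ hbc
      apply hnW.of_dvd
      unfold Wq
      exact Dvd.intro _ rfl
    have hnl : ∀ ℓ : ℕ, ℓ.Prime → ℓ ≤ HH X → n ≡ b [MOD ℓ] := by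
      intro ℓ hℓ hℓH
      apply hnW.of_dvd
      unfold Wq
      apply Dvd.dvd.mul_left
      unfold Wm primorial
      apply Finset.dvd_prod_of_mem
      rw [mem_filter, mem_range]
      exact ⟨by omega, hℓ⟩
    -- primes are at the positions of `U`
    have hpos : ∀ t : ℕ, 1 ≤ t → t ≤ B → (n + t).Prime → t ∈ U := by
      intro t ht1 htB hp
      by_contra htP
      have hct : (c + t).Coprime q := by
        have h1 : n + t ≡ c + t [MOD q] := hnq.add_right t
        unfold Nat.Coprime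
        rw [← h1.gcd_eq]
        change (n + t).Coprime q
        rw [Nat.Prime.coprime_iff_not_dvd hp]
        intro hd
        have := Nat.le_of_dvd hq hd
        omega
      have htK : t ∈ Kl := by
        rw [hKl, mem_filter, mem_Icc]
        exact ⟨⟨ht1, htB⟩, hct, htP⟩
      have hkH : kp (B + q + N) t ≤ HH X := (Finset.le_sup (f := kp (B + q + N)) htK).trans hHH.2
      have h2 := hb2 t htK hkH
      have h3 := hnl _ (kp_prime _ t) hkH
      have h4 : kp (B + q + N) t ∣ n + t :=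
        Nat.modEq_zero_iff_dvd.1 ((h3.add_right t).trans (Nat.modEq_zero_iff_dvd.2 h2))
      rcases (Nat.dvd_prime hp).1 h4 with h5 | h5
      · exact (kp_prime (B + q + N) t).one_lt.ne' h5
      · have h6 : HH X ≤ Wq q X := by
          have h7 := (kp_prime (B + q + N) t)
          by_contra hcon
          push Not at hcon
          have h8 : Wq q X = q * primorial (HH X) := rfl
          have h9 : kp (B + q + N) t ∣ primorial (HH X) := by
            unfold primorial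
            apply Finset.dvd_prod_of_mem
            rw [mem_filter, mem_range]
            exact ⟨by omega, h7⟩
          have h10 := Nat.le_of_dvd (primorial_pos _) h9
          have h11 : kp (B + q + N) t ≤ Wq q X := by
            rw [h8]
            nlinarith
          have h12 : (Wq q X : ℝ) ≤ Real.log X := hWle X hX3
          have h13 : Real.log X ≤ X - 1 := Real.log_le_sub_one_of_pos hX0
          have h14 : (kp (B + q + N) t : ℝ) ≤ Wq q X := by exact_mod_cast h11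
          rw [h5] at h14
          have h15 : (X : ℝ) ≤ ((n + t : ℕ) : ℝ) := by exact_mod_cast (by omega : X ≤ n + t)
          linarith
        have h12 : (Wq q X : ℝ) ≤ Real.log X := hWle X hX3
        have h13 : Real.log X ≤ X - 1 := Real.log_le_sub_one_of_pos hX0
        have h14 : ((n + t : ℕ) : ℝ) ≤ Wq q X := by
          rw [← h5]
          exact_mod_cast hkH.trans h6
        have h15 : (X : ℝ) ≤ ((n + t : ℕ) : ℝ) := by exact_mod_cast (by omega : X ≤ n + t)
        linarith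
    have hcst : ∀ x : Fin T × Fin K, Cst q c R ((X : ℝ) ^ (δ / 3)) (n + hb L x) := by
      intro x
      have hhq : hb L x ≡ 0 [MOD q] := Nat.modEq_zero_iff_dvd.2 (hqL.trans (hb_dvd L x))
      refine ⟨?_, ?_⟩
      · have h1 := hnq.add hhq
        rwa [add_zero] at h1
      · intro ρ hρ ℓ hℓ hℓq hd
        have hρ' : ρ ∈ insert z R := mem_insert_of_mem hρ
        rw [add_assoc] at hd
        have hu := hmemU x ρ hρ'
        by_cases hℓH : ℓ ≤ HH X
        · exfalso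
          have h2 := hnl ℓ hℓ hℓH
          have h3 : ℓ ∣ b + (hb L x + ρ) :=
            Nat.modEq_zero_iff_dvd.1 (((h2.add_right _).symm).trans (Nat.modEq_zero_iff_dvd.2 hd))
          exact hb1 ℓ hℓ hℓH hℓq _ hu h3
        · have h2 := rg_one (hrg _ hu)
          have h3 : ¬ ℓ < 2 ^ 2 ^ JJ δ X := by
            intro h4
            refine h2 ℓ ?_ hd
            unfold P1
            rw [mem_filter, mem_range]
            exact ⟨h4, hℓ, by omega⟩
          have h4 : ((2 : ℝ) ^ 2 ^ JJ δ X) ≤ ℓ := by exact_mod_cast (not_lt.1 h3)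
          have h5 : (X : ℝ) ^ (δ / 3) < (X : ℝ) ^ (δ / 2) := by
            apply Real.rpow_lt_rpow_of_exponent_lt (by linarith)
            linarith
          linarith
    have hin : ∀ x : Fin T × Fin K, n < n + hb L x ∧ ∀ ρ ∈ R, n + hb L x + ρ ≤ n + B := by
      intro x
      have h3 := hb_pos hL x
      refine ⟨by omega, fun ρ hρ => ?_⟩
      have h4 := hUB _ (hmemU x ρ (mem_insert_of_mem hρ))
      omega
    refine ⟨?_, ?_⟩
    · -- at least `m` primes
      obtain ⟨GS, hGS⟩ : ∃ GS : Finset (Fin T), GS = (univ : Finset (Fin T)).filter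
        (fun g => ∃ i, (n + H g i).Prime) := ⟨_, rfl⟩
      have hGSm : m ≤ GS.card := by
        have : T ≤ 4 * GS.card := by
          rw [hGS]
          convert hT4 using 3
        omega
      obtain ⟨GM, hGM, hGMc⟩ := exists_subset_card_eq hGSm
      have hch : ∀ g : Fin T, ∃ i : Fin K, g ∈ GS → (n + H g i).Prime := by
        intro g
        by_cases hg : g ∈ GS
        · have hg' := hg
          rw [hGS, mem_filter] at hg'
          obtain ⟨i, hi⟩ := hg'.2
          exact ⟨i, fun _ => hi⟩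
        · exact ⟨⟨0, by omega⟩, fun h => absurd h hg⟩
      choose f hf using hch
      refine ⟨GM.image (fun g => n + hb L (g, f g)), ?_, ?_⟩
      · rw [card_image_of_injOn, hGMc]
        intro g _ g' _ hgg
        have hgg' : n + hb L (g, f g) = n + hb L (g', f g') := hgg
        have h2 : hb L (g, f g) = hb L (g', f g') := by omega
        exact (Prod.ext_iff.mp (hb_inj hL h2)).1
      · intro t ht
        rw [mem_image] at ht
        obtain ⟨g, hg, rfl⟩ := ht
        have h1 := hf g (hGM hg)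
        rw [hH] at h1
        have h2 : n + hb L (g, f g) + z = n + (hb L (g, f g) + z) := by omega
        refine ⟨(hin _).1, (hin _).2, ?_, hcst _⟩
        rw [h2]
        exact h1
    · intro p hp hpp
      rw [mem_Ioc] at hp
      obtain ⟨t, rfl⟩ : ∃ t, p = n + t := ⟨p - n, by omega⟩
      have htP := hpos t (by omega) (by omega) hpp
      obtain ⟨x, ρ, hρ, rfl⟩ := hUmem t htP
      rw [hins] at hρ
      exact ⟨n + hb L x, (hin x).1, (hin x).2, hcst x, ρ, hρ, by omega⟩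

end Pool.Agent.TH816.MQ
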