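import Pool.Agent.TH816.MQ.Stm
import Pool.Agent.H96R2.EQP.Main
import Pool.Agent.H20R2.PP.EQI
import Pool.Agent.H325R2.PPWtx
import Pool.Agent.H862R2.PP.Sm5

/-!
Equidistribution in the classes modulo `q W`: integers, and primes (Bombieri-Vinogradov).
Adapted from `Pool.Agent.H96R2.EQP` (helper96) and `Pool.Agent.H20R2.EQI` (helper20).
-/

set_option autoImplicit false

open Finset Filter

namespace Pool.Agent.TH816.MQ

open Pool.Agent.H361R2.PP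

theorem Wq_pos {q : ℕ} (hq : 0 < q) (X : ℕ) : 0 < Wq q X := Nat.mul_pos hq (primorial_pos _)

theorem HH_ge (q : ℕ) : ∃ X₀ : ℕ, ∀ X : ℕ, X₀ ≤ X → q ≤ HH X := by
  have h := (Pool.Agent.H862R2.PPSm5.HH_tendsto).eventually_ge_atTop q
  exact Filter.eventually_atTop.1 h

theorem Wq_le (q : ℕ) : ∃ X₀ : ℕ, ∀ X : ℕ, X₀ ≤ X → (Wq q X : ℝ) ≤ Real.log X := by
  obtain ⟨h1, -⟩ := Pool.Agent.H325R2.wtx
  have h2 : ∀ᶠ X : ℕ in atTop, (max (q : ℝ) 1) ≤ Real.log X ^ (13 / 20 : ℝ) :=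
    (((tendsto_rpow_atTop (by norm_num : (0 : ℝ) < 13 / 20)).comp
      (Real.tendsto_log_atTop.comp tendsto_natCast_atTop_atTop)).eventually_ge_atTop _)
  have h3 : ∀ᶠ X : ℕ in atTop, (1 : ℝ) ≤ Real.log X :=
    (Real.tendsto_log_atTop.comp tendsto_natCast_atTop_atTop).eventually_ge_atTop _
  obtain ⟨X₀, hX₀⟩ := Filter.eventually_atTop.1 (h2.and h3)
  refine ⟨max X₀ 16, fun X hX => ?_⟩
  obtain ⟨a2, a3⟩ := hX₀ X ((le_max_left _ _).trans hX)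
  have a1 := h1 X ((le_max_right _ _).trans hX)
  have hl : (0 : ℝ) < Real.log X := by linarith
  unfold Wq
  push_cast
  have hq : (q : ℝ) ≤ Real.log X ^ (13 / 20 : ℝ) := (le_max_left _ _).trans a2
  calc (q : ℝ) * Wm X ≤ Real.log X ^ (13 / 20 : ℝ) * Real.log X ^ (7 / 20 : ℝ) :=
        mul_le_mul hq a1 (Nat.cast_nonneg _) (by positivity)
    _ = Real.log X := by
        rw [← Real.rpow_add hl]
        norm_num

theorem Wq_cop {q X : ℕ} (hq0 : 0 < q) (hq : q ≤ HH X) (D : Finset ℕ) (hD : ∀ p ∈ D, p ∈ PX X) :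
    (Wq q X).Coprime (∏ p ∈ D, p) := by
  unfold Wq
  refine Nat.Coprime.mul_left ?_ (Pool.Agent.H96R2.EQP.W_cop D hD)
  apply Nat.Coprime.prod_right
  intro p hp
  obtain ⟨hpp, hpH, _⟩ := Pool.Agent.H96R2.EQP.PX_prime (hD p hp)
  apply Nat.Coprime.symm
  rw [Nat.Prime.coprime_iff_not_dvd hpp]
  intro h
  have := Nat.le_of_dvd hq0 h
  omega

theorem cop_Wq {q X : ℕ} (hq0 : 0 < q) (hq : q ≤ HH X) (D : Finset ℕ)
    (hD : ∀ p ∈ D, p.Prime ∧ HH X < p) : (Wq q X).Coprime (∏ p ∈ D, p) := by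
  unfold Wq
  refine Nat.Coprime.mul_left ?_ (Pool.Agent.H20R2.EQI.cop_W X D hD)
  apply Nat.Coprime.prod_right
  intro p hp
  obtain ⟨hpp, hpH⟩ := hD p hp
  apply Nat.Coprime.symm
  rw [Nat.Prime.coprime_iff_not_dvd hpp]
  intro h
  have := Nat.le_of_dvd hq0 h
  omega

theorem eqdq {q X : ℕ} (hq0 : 0 < q) (hq : q ≤ HH X) (b : ℕ) (hb : b < Wq q X) (P : Finset ℕ)
    (hP : ∀ p ∈ P, p.Prime ∧ HH X < p) :
    Eqd none P (SIq q X b) ((X : ℝ) / Wq q X) (fun _ => 1) := by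
  unfold SIq
  refine ⟨?_, fun _ => zero_le_one, ?_⟩
  · intro n _ p _ a ha
    simp at ha
  · intro D hD r _
    have hDp : ∀ p ∈ D, p.Prime ∧ HH X < p := fun p hp => hP p (hD hp)
    have hcop := cop_Wq hq0 hq D hDp
    have hWpos : 0 < Wq q X := Wq_pos hq0 X
    have hDpos : 0 < ∏ p ∈ D, p := Finset.prod_pos (fun p hp => (hDp p hp).1.pos)
    obtain ⟨v, hv1, hv2⟩ := Nat.chineseRemainder hcop b r
    have hset : (((Ico X (2 * X)).filter (fun n => n % Wq q X = b)).filter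
        (fun n => ∀ p ∈ D, n % p = r % p)) =
        (Ico X (2 * X)).filter (fun n => n ≡ v [MOD Wq q X * ∏ p ∈ D, p]) := by
      rw [filter_filter]
      apply filter_congr
      intro n _
      rw [Pool.Agent.H20R2.EQI.modD D (fun p hp => (hDp p hp).1) n r, ← Nat.modEq_and_modEq_iff_modEq_mul hcop]
      have hbb : b % Wq q X = b := Nat.mod_eq_of_lt hb
      constructor
      · rintro ⟨h1, h2⟩
        refine ⟨?_, h2.trans hv2.symm⟩
        have : n ≡ b [MOD Wq q X] := by unfold Nat.ModEq; rw [h1, hbb]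
        exact this.trans hv1.symm
      · rintro ⟨h1, h2⟩
        refine ⟨?_, h2.trans hv2⟩
        have : n ≡ b [MOD Wq q X] := h1.trans hv1
        unfold Nat.ModEq at this
        rw [this, hbb]
    rw [hset]
    have hph : ∏ p ∈ D, ph none p = ((∏ p ∈ D, p : ℕ) : ℝ) := by
      push_cast
      apply prod_congr rfl
      intro p _
      simp [ph]
    have h := Pool.Agent.H20R2.EQI.cnt_class X (Wq q X * ∏ p ∈ D, p) v (Nat.mul_pos hWpos hDpos)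
    rw [hph, div_div, ← Nat.cast_mul]
    exact h

section

open Pool.Agent.H20R2.EQI hiding eqd W_le cop_W

theorem eqIntq (q : ℕ) (hq0 : 0 < q) : EqIntq q := by
  intro K A θ hθ
  set ε := θ / 2 with hε
  have hε0 : 0 < ε := by positivity
  set K1 : ℝ := (K : ℝ) + 1 with hK1
  have hK11 : 1 ≤ K1 := by rw [hK1]; have : (0 : ℝ) ≤ K := Nat.cast_nonneg K; linarith
  -- the threshold for large primes
  obtain ⟨P0, hP0⟩ : ∃ P0 : ℕ, ∀ p : ℕ, P0 ≤ p → K1 ≤ (p : ℝ) ^ ε := by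
    have h1 : Filter.Tendsto (fun p : ℕ => (p : ℝ) ^ ε) Filter.atTop Filter.atTop :=
      (tendsto_rpow_atTop hε0).comp tendsto_natCast_atTop_atTop
    exact Filter.eventually_atTop.1 (h1.eventually_ge_atTop K1)
  obtain ⟨X₁, hX₁⟩ := ev_large (K1 ^ P0) (A + 1) ε hε0
  obtain ⟨Xq, hXq⟩ := HH_ge q
  obtain ⟨Xw, hXw⟩ := Wq_le q
  refine ⟨max (max X₁ 16) (max Xq Xw), fun X hX' b hb => ⟨fun _ => 1, ?_, ?_⟩⟩
  · have hXXq : Xq ≤ X := ((le_max_left _ _).trans (le_max_right _ _)).trans hX'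
    apply eqdq hq0 (hXq X hXXq) b hb
    intro p hp
    rw [mem_filter, PX, mem_filter] at hp
    exact hp.1.2
  · have hX : max X₁ 16 ≤ X := (le_max_left _ _).trans hX'
    have hXXw : Xw ≤ X := ((le_max_right _ _).trans (le_max_right _ _)).trans hX'
    have hX16 : 16 ≤ X := (le_max_right _ _).trans hX
    have hXr : (16 : ℝ) ≤ X := by exact_mod_cast hX16
    have hX0 : (0 : ℝ) < X := by linarith
    have hlog : 1 ≤ Real.log X := by
      rw [Real.le_log_iff_exp_le (by linarith)]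
      have := Real.exp_one_lt_d9
      linarith
    have hev := hX₁ X ((le_max_left _ _).trans hX)
    have hW := hXw X hXXw
    have hWpos : (0 : ℝ) < Wq q X := by exact_mod_cast (Wq_pos hq0 X)
    have hPX : ∀ p ∈ PX X, p.Prime := by
      intro p hp
      rw [PX, mem_filter] at hp
      exact hp.2.1
    have hY0 : 0 < (X : ℝ) ^ (1 - θ) := Real.rpow_pos_of_pos hX0 _
    calc ∑ D ∈ (PX X).powerset.filter
            (fun D : Finset ℕ => ∏ p ∈ D, (p : ℝ) ≤ (X : ℝ) ^ (1 - θ)), (K : ℝ) ^ D.card * 1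
        ≤ ∑ D ∈ (PX X).powerset.filter
            (fun D : Finset ℕ => ∏ p ∈ D, (p : ℝ) ≤ (X : ℝ) ^ (1 - θ)),
              K1 ^ P0 * ((X : ℝ) ^ (1 - θ)) ^ ε := by
          apply sum_le_sum
          intro D hD
          rw [mem_filter, mem_powerset] at hD
          rw [mul_one]
          have h1 : (K : ℝ) ^ D.card ≤ K1 ^ D.card :=
            pow_le_pow_left₀ (Nat.cast_nonneg K) (by rw [hK1]; linarith) _
          have h2 := pow_card_le K1 hK11 ε P0 hP0 hε0.le D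
            (fun p hp => (hPX p (hD.1 hp)).one_le)
          refine h1.trans (h2.trans ?_)
          apply mul_le_mul_of_nonneg_left _ (by positivity)
          exact Real.rpow_le_rpow (by positivity) hD.2 hε0.le
      _ = (((PX X).powerset.filter
            (fun D : Finset ℕ => ∏ p ∈ D, (p : ℝ) ≤ (X : ℝ) ^ (1 - θ))).card : ℝ) *
              (K1 ^ P0 * ((X : ℝ) ^ (1 - θ)) ^ ε) := by
          rw [sum_const, nsmul_eq_mul]
      _ ≤ (X : ℝ) ^ (1 - θ) * (K1 ^ P0 * ((X : ℝ) ^ (1 - θ)) ^ ε) := by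
          apply mul_le_mul_of_nonneg_right _ (by positivity)
          refine (card_D (PX X) hPX _).trans ?_
          rw [max_eq_left hY0.le]
      _ = K1 ^ P0 * (X : ℝ) ^ ((1 - θ) + (1 - θ) * ε) := by
          rw [Real.rpow_add hX0, Real.rpow_mul hX0.le]; ring
      _ ≤ K1 ^ P0 * (X : ℝ) ^ (1 - ε) := by
          apply mul_le_mul_of_nonneg_left _ (by positivity)
          apply Real.rpow_le_rpow_of_exponent_le (by linarith)
          rw [hε]; nlinarith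
      _ ≤ (X : ℝ) / Wq q X / Real.log X ^ A := by
          rw [div_div, le_div_iff₀ (by positivity)]
          have h1 : (X : ℝ) = (X : ℝ) ^ (1 - ε) * (X : ℝ) ^ ε := by
            rw [← Real.rpow_add hX0]; simp
          have h2 : (Wq q X : ℝ) * Real.log X ^ A ≤ Real.log X ^ (A + 1) := by
            rw [pow_succ, mul_comm]
            exact mul_le_mul_of_nonneg_left hW (by positivity)
          calc K1 ^ P0 * (X : ℝ) ^ (1 - ε) * (Wq q X * Real.log X ^ A)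
              ≤ K1 ^ P0 * (X : ℝ) ^ (1 - ε) * Real.log X ^ (A + 1) := by
                apply mul_le_mul_of_nonneg_left h2 (by positivity)
            _ = (X : ℝ) ^ (1 - ε) * (K1 ^ P0 * Real.log X ^ (A + 1)) := by ring
            _ ≤ (X : ℝ) ^ (1 - ε) * (X : ℝ) ^ ε :=
                mul_le_mul_of_nonneg_left hev (by positivity)
            _ = X := h1.symm


end

section

open Pool.Agent.H96R2.EQP hiding eqPrime W_le W_cop
open Pool.Agent.H398R2.BV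

theorem eqPrimeq (q : ℕ) (hq0 : 0 < q) : EqPrimeq q := by
  intro K A θ Λ hθ hΛ
  obtain ⟨B, x0, hB⟩ := weighted ((K : ℝ) + 1) (by have : (0:ℝ) ≤ K := Nat.cast_nonneg _; linarith) (A + 3)
  obtain ⟨k, hk⟩ := sum_pow_omega_div_totient ((K : ℝ) + 1)
    (by have : (0:ℝ) ≤ K := Nat.cast_nonneg _; linarith)
  obtain ⟨c, hc⟩ : ∃ c : ℕ, c = 2 ^ k := ⟨_, rfl⟩
  rw [← hc] at hk
  obtain ⟨X1, hX1⟩ := Pr_lower
  obtain ⟨X2, hX2⟩ := Wq_le q
  -- eventual conditions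
  have e1 : ∀ᶠ X : ℝ in atTop, (2 : ℝ) ^ B * Real.log X ^ (B + 2) ≤ X ^ θ := ev_log _ _ θ hθ
  have e2 : ∀ᶠ X : ℝ in atTop, (8 * Λ * 2 ^ c) * Real.log X ^ (A + 3 + c) ≤ X ^ (1 : ℝ) :=
    ev_log _ _ 1 one_pos
  have e3 : ∀ᶠ X : ℝ in atTop, (2 * Λ + 2) * Real.log X ^ 1 ≤ X ^ (1 / 2 : ℝ) :=
    ev_log _ _ (1 / 2) (by norm_num)
  have e4 : ∀ᶠ X : ℝ in atTop, (20 : ℝ) ≤ Real.log X :=
    Real.tendsto_log_atTop.eventually (eventually_ge_atTop 20)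
  have e5 : ∀ᶠ X : ℝ in atTop, (3 : ℝ) ≤ X := eventually_ge_atTop 3
  obtain ⟨Y, hY⟩ := eventually_atTop.mp (e1.and (e2.and (e3.and (e4.and e5))))
  obtain ⟨Xq, hXq⟩ := HH_ge q
  refine ⟨max (max (max X1 X2) (max x0 ⌈Y⌉₊)) Xq, fun X hX' b hb a₀ ha₀ => ?_⟩
  have hXXq : Xq ≤ X := (le_max_right _ _).trans hX'
  have hX : max (max X1 X2) (max x0 ⌈Y⌉₊) ≤ X := (le_max_left _ _).trans hX'
  have hXX1 : X1 ≤ X := ((le_max_left _ _).trans (le_max_left _ _)).trans hX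
  have hXX2 : X2 ≤ X := ((le_max_right _ _).trans (le_max_left _ _)).trans hX
  have hXx0 : x0 ≤ X := ((le_max_left _ _).trans (le_max_right _ _)).trans hX
  have hXY : ⌈Y⌉₊ ≤ X := ((le_max_right _ _).trans (le_max_right _ _)).trans hX
  have hXYr : Y ≤ X := (Nat.le_ceil _).trans (by exact_mod_cast hXY)
  obtain ⟨g1, g2, g3, g4, g5⟩ := hY X hXYr
  have hPr := hX1 X hXX1
  have hW := hX2 X hXX2
  have hX0 : (0 : ℝ) < X := by linarith
  have hXn : 1 ≤ X := by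
    have : (1 : ℝ) ≤ X := by linarith
    exact_mod_cast this
  obtain ⟨ℓ, hℓ⟩ : ∃ ℓ : ℝ, ℓ = Real.log X := ⟨_, rfl⟩
  rw [← hℓ] at g1 g2 g3 g4 hPr hW ⊢
  have hℓ0 : 0 < ℓ := by linarith
  rw [Real.rpow_one] at g2
  rw [pow_one] at g3
  -- the shift
  unfold Bq It at ha₀
  rw [mem_filter, mem_Icc] at ha₀
  obtain ⟨⟨ha1, ha2⟩, hba⟩ := ha₀
  have ha2r : (a₀ : ℝ) ≤ Λ * ℓ := by
    have : (a₀ : ℝ) ≤ ⌊Λ * ℓ⌋₊ := by rw [hℓ]; exact_mod_cast ha2
    exact this.trans (Nat.floor_le (by positivity))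
  have hX12 : (X : ℝ) ^ (1 / 2 : ℝ) * (X : ℝ) ^ (1 / 2 : ℝ) = X := by
    rw [← Real.rpow_add hX0]; norm_num
  have hX12' : (1 : ℝ) ≤ (X : ℝ) ^ (1 / 2 : ℝ) := Real.one_le_rpow (by linarith) (by norm_num)
  have hX12X : (X : ℝ) ^ (1 / 2 : ℝ) ≤ X := by nlinarith
  have haX : (a₀ : ℝ) ≤ X := by
    have : Λ * ℓ ≤ (2 * Λ + 2) * ℓ := by nlinarith
    linarith
  have haXn : a₀ ≤ X := by exact_mod_cast haX
  obtain ⟨W, hWd⟩ : ∃ W : ℕ, W = Wq q X := ⟨_, rfl⟩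
  have hW0 : 0 < W := by rw [hWd]; exact Wq_pos hq0 X
  have hW0r : (0 : ℝ) < W := by exact_mod_cast hW0
  -- the two endpoints
  obtain ⟨x1, hx1⟩ : ∃ x1 : ℕ, x1 = X + a₀ - 1 := ⟨_, rfl⟩
  obtain ⟨x2, hx2⟩ : ∃ x2 : ℕ, x2 = 2 * X + a₀ - 1 := ⟨_, rfl⟩
  have hx1a : X ≤ x1 := by omega
  have hx2a : X ≤ x2 := by omega
  have hx1b : x1 ≤ 3 * X := by omega
  have hx2b : x2 ≤ 3 * X := by omega
  obtain ⟨M1, hM10, hM1, hM1s⟩ := hB x1 (hXx0.trans hx1a)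
  obtain ⟨M2, hM20, hM2, hM2s⟩ := hB x2 (hXx0.trans hx2a)
  have hlogx : ∀ x : ℕ, X ≤ x → x ≤ 3 * X → ℓ ≤ Real.log x ∧ Real.log x ≤ 2 * ℓ := by
    intro x h1 h2
    have h1r : (X : ℝ) ≤ x := by exact_mod_cast h1
    have h2r : (x : ℝ) ≤ 3 * X := by exact_mod_cast h2
    constructor
    · rw [hℓ]; exact Real.log_le_log hX0 h1r
    · have : (x : ℝ) ≤ X ^ 2 := by nlinarith
      calc Real.log x ≤ Real.log ((X : ℝ) ^ 2) := Real.log_le_log (by linarith) this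
        _ = 2 * ℓ := by rw [Real.log_pow, hℓ]; norm_num
  -- the modulus is small
  have hqX : ∀ D : Finset ℕ, (∏ p ∈ D, (p : ℝ)) ≤ (X : ℝ) ^ (1 / 2 - θ) →
      (((W * ∏ p ∈ D, p : ℕ) : ℝ)) ≤ ℓ * (X : ℝ) ^ (1 / 2 - θ) := by
    intro D hD
    push_cast
    have h0 : (0 : ℝ) ≤ ∏ p ∈ D, (p : ℝ) := prod_nonneg fun _ _ => Nat.cast_nonneg _
    rw [hWd]
    exact mul_le_mul hW hD h0 hℓ0.le
  have hqle : ∀ D : Finset ℕ, (∏ p ∈ D, (p : ℝ)) ≤ (X : ℝ) ^ (1 / 2 - θ) → W * ∏ p ∈ D, p ≤ X := by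
    intro D hD
    have h1 := hqX D hD
    have h2 : (X : ℝ) ^ (1 / 2 - θ) ≤ (X : ℝ) ^ (1 / 2 : ℝ) :=
      Real.rpow_le_rpow_of_exponent_le (by linarith) (by linarith)
    have h3 : ℓ ≤ (X : ℝ) ^ (1 / 2 : ℝ) := by
      have : ℓ ≤ (2 * Λ + 2) * ℓ := by nlinarith
      linarith
    have h4 : (((W * ∏ p ∈ D, p : ℕ) : ℝ)) ≤ X := by
      calc (((W * ∏ p ∈ D, p : ℕ) : ℝ)) ≤ ℓ * (X : ℝ) ^ (1 / 2 - θ) := h1
        _ ≤ (X : ℝ) ^ (1 / 2 : ℝ) * (X : ℝ) ^ (1 / 2 : ℝ) :=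
          mul_le_mul h3 h2 (by positivity) (by positivity)
        _ = X := hX12
    exact_mod_cast h4
  have hqsq : ∀ D : Finset ℕ, (∏ p ∈ D, (p : ℝ)) ≤ (X : ℝ) ^ (1 / 2 - θ) → ∀ x : ℕ, X ≤ x →
      x ≤ 3 * X → Real.log x ^ B * (((W * ∏ p ∈ D, p : ℕ) : ℝ)) ^ 2 < x := by
    intro D hD x hxa hxb
    obtain ⟨l1, l2⟩ := hlogx x hxa hxb
    have h1 := hqX D hD
    have h2 : (((W * ∏ p ∈ D, p : ℕ) : ℝ)) ^ 2 ≤ (ℓ * (X : ℝ) ^ (1 / 2 - θ)) ^ 2 :=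
      pow_le_pow_left₀ (Nat.cast_nonneg _) h1 2
    have h3 : Real.log x ^ B ≤ (2 * ℓ) ^ B := pow_le_pow_left₀ (by linarith) l2 B
    have h4 : ((X : ℝ) ^ (1 / 2 - θ)) ^ 2 = X * ((X : ℝ) ^ (- (2 * θ))) := by
      rw [← Real.rpow_natCast, ← Real.rpow_mul hX0.le]
      rw [show (1 / 2 - θ) * ((2 : ℕ) : ℝ) = 1 + (-(2 * θ)) by push_cast; ring, Real.rpow_add hX0,
        Real.rpow_one]
    have h5 : (2 * ℓ) ^ B * (ℓ * (X : ℝ) ^ (1 / 2 - θ)) ^ 2 =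
        (2 ^ B * ℓ ^ (B + 2)) * ((X : ℝ) ^ (- (2 * θ))) * X := by
      rw [mul_pow ℓ, h4, mul_pow 2 ℓ]; ring
    have h6 : (2 ^ B * ℓ ^ (B + 2)) * ((X : ℝ) ^ (- (2 * θ))) ≤ (X : ℝ) ^ (-θ) := by
      calc (2 ^ B * ℓ ^ (B + 2)) * ((X : ℝ) ^ (- (2 * θ))) ≤ (X : ℝ) ^ θ * ((X : ℝ) ^ (- (2 * θ))) :=
            mul_le_mul_of_nonneg_right g1 (by positivity)
        _ = (X : ℝ) ^ (-θ) := by
            rw [← Real.rpow_add hX0]; congr 1; ring
    have h7 : (X : ℝ) ^ (-θ) < 1 := Real.rpow_lt_one_of_one_lt_of_neg (by linarith) (by linarith)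
    calc Real.log x ^ B * (((W * ∏ p ∈ D, p : ℕ) : ℝ)) ^ 2
        ≤ (2 * ℓ) ^ B * (ℓ * (X : ℝ) ^ (1 / 2 - θ)) ^ 2 :=
          mul_le_mul h3 h2 (by positivity) (by positivity)
      _ = (2 ^ B * ℓ ^ (B + 2)) * ((X : ℝ) ^ (- (2 * θ))) * X := h5
      _ ≤ (X : ℝ) ^ (-θ) * X := mul_le_mul_of_nonneg_right h6 hX0.le
      _ < 1 * X := mul_lt_mul_of_pos_right h7 hX0
      _ = X := one_mul _
      _ ≤ x := by exact_mod_cast hxa
  -- the error
  have hPr0 : 0 ≤ Pr X := by unfold Pr; positivity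
  have hφW : (0 : ℝ) < Nat.totient W := by exact_mod_cast Nat.totient_pos.mpr hW0
  have hΩ0 : 0 ≤ Pr X / Nat.totient W := by positivity
  obtain ⟨Er, hEr⟩ : ∃ Er : Finset ℕ → ℝ, Er = fun D : Finset ℕ =>
      if (∏ p ∈ D, (p : ℝ)) ≤ (X : ℝ) ^ (1 / 2 - θ) then
        M2 (W * ∏ p ∈ D, p : ℕ) + M1 (W * ∏ p ∈ D, p : ℕ) +
          (a₀ : ℝ) / (Nat.totient (W * ∏ p ∈ D, p : ℕ) : ℝ)
      else (X : ℝ) + Pr X / Nat.totient W := ⟨_, rfl⟩
  unfold SPq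
  rw [← hWd] at hb hba ⊢
  refine ⟨Er, ⟨?_, ?_, ?_⟩, ?_⟩
  · -- no prime of `P` divides
    intro n hn p hp a ha
    rw [Option.mem_def, Option.some.injEq] at ha
    subst ha
    rw [mem_filter, mem_Ico] at hn
    rw [mem_filter] at hp
    obtain ⟨hpp, _, hpX⟩ := PX_prime hp.1
    intro hdvd
    have := (Nat.prime_dvd_prime_iff_eq hpp hn.2.2).mp hdvd
    omega
  · intro D
    rw [hEr]
    beta_reduce
    split_ifs
    · have := hM10 (W * ∏ p ∈ D, p)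
      have := hM20 (W * ∏ p ∈ D, p)
      positivity
    · positivity
  · intro D hD r hr
    have hDP : ∀ p ∈ D, p ∈ PX X := fun p hp => (mem_filter.mp (hD hp)).1
    have hDp : ∀ p ∈ D, p.Prime := fun p hp => (PX_prime (hDP p hp)).1
    have hph : ∏ p ∈ D, ph (some a₀) p = ∏ p ∈ D, ((p : ℝ) - 1) := by
      apply prod_congr rfl
      intro p _
      simp [ph]
    rw [hph, hEr]
    beta_reduce
    split_ifs with hsmall
    · have hcop := Wq_cop hq0 (hXq X hXXq) D hDP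
      rw [← hWd] at hcop
      obtain ⟨cc, hcc, hmain⟩ := main_cmp X W b a₀ r D hXn hW0 hb hDp hcop hba
        (fun p hp => hr p hp a₀ rfl)
      have hm0 : 0 < ∏ p ∈ D, p := prod_pos fun p hp => (hDp p hp).pos
      have hq1 : 1 ≤ W * ∏ p ∈ D, p := Nat.mul_pos hW0 hm0
      have hqX' := hqle D hsmall
      have m2 := hM2 _ cc hq1 hcc (hqsq D hsmall x2 hx2a hx2b) (hqX'.trans hx2a)
      have m1 := hM1 _ cc hq1 hcc (hqsq D hsmall x1 hx1a hx1b) (hqX'.trans hx1a)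
      rw [hx2] at m2
      rw [hx1] at m1
      refine hmain.trans ?_
      linarith
    · have hcard : (((((Ico X (2 * X)).filter (fun n => n % W = b ∧ (n + a₀).Prime))).filter
          (fun n => ∀ p ∈ D, n % p = r % p)).card : ℝ) ≤ X := by
        have : (((Ico X (2 * X)).filter (fun n => n % W = b ∧ (n + a₀).Prime)).filter
          (fun n => ∀ p ∈ D, n % p = r % p)).card ≤ (Ico X (2 * X)).card :=
          (card_filter_le _ _).trans (card_filter_le _ _)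
        rw [Nat.card_Ico] at this
        have h2 : (((Ico X (2 * X)).filter (fun n => n % W = b ∧ (n + a₀).Prime)).filter
          (fun n => ∀ p ∈ D, n % p = r % p)).card ≤ X := by omega
        exact_mod_cast h2
      have hprod : (1 : ℝ) ≤ ∏ p ∈ D, ((p : ℝ) - 1) := by
        have h1 : ∀ p ∈ D, (1 : ℝ) ≤ (p : ℝ) - 1 := by
          intro p hp
          have : (2 : ℝ) ≤ p := by exact_mod_cast (hDp p hp).two_le
          linarith
        calc (1 : ℝ) = ∏ _p ∈ D, (1 : ℝ) := by simp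
          _ ≤ _ := prod_le_prod (fun _ _ => zero_le_one) h1
      have h1 : Pr X / Nat.totient W / ∏ p ∈ D, ((p : ℝ) - 1) ≤ Pr X / Nat.totient W :=
        div_le_self hΩ0 hprod
      have h2 : 0 ≤ Pr X / Nat.totient W / ∏ p ∈ D, ((p : ℝ) - 1) := by positivity
      have h3 : (0 : ℝ) ≤ (((((Ico X (2 * X)).filter (fun n => n % W = b ∧ (n + a₀).Prime))).filter
          (fun n => ∀ p ∈ D, n % p = r % p)).card : ℝ) := Nat.cast_nonneg _
      rw [abs_le]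
      constructor <;> linarith
  · -- the sum
    obtain ⟨F, hF⟩ : ∃ F : Finset (Finset ℕ), F = (PX X).powerset.filter
        (fun D : Finset ℕ => ∏ p ∈ D, (p : ℝ) ≤ (X : ℝ) ^ (1 / 2 - θ)) := ⟨_, rfl⟩
    rw [← hF]
    have hFm : ∀ D ∈ F, (∀ p ∈ D, p ∈ PX X) ∧ ∏ p ∈ D, (p : ℝ) ≤ (X : ℝ) ^ (1 / 2 - θ) := by
      intro D hD
      rw [hF, mem_filter, mem_powerset] at hD
      exact ⟨fun p hp => hD.1 hp, hD.2⟩
    have hFp : ∀ D ∈ F, ∀ p ∈ D, p.Prime := fun D hD p hp => (PX_prime ((hFm D hD).1 p hp)).1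
    have hFN : ∀ D ∈ F, W * ∏ p ∈ D, p ≤ X := fun D hD => hqle D (hFm D hD).2
    have hsplit : ∑ D ∈ F, (K : ℝ) ^ D.card * Er D =
        ∑ D ∈ F, (K : ℝ) ^ D.card * M2 (W * ∏ p ∈ D, p) +
        ∑ D ∈ F, (K : ℝ) ^ D.card * M1 (W * ∏ p ∈ D, p) +
        ∑ D ∈ F, (K : ℝ) ^ D.card * (a₀ / (Nat.totient (W * ∏ p ∈ D, p) : ℝ)) := by
      rw [← sum_add_distrib, ← sum_add_distrib]
      apply sum_congr rfl
      intro D hD
      rw [hEr]
      beta_reduce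
      rw [if_pos (hFm D hD).2]
      ring
    have s2 : ∑ D ∈ F, (K : ℝ) ^ D.card * M2 (W * ∏ p ∈ D, p) ≤ x2 / Real.log x2 ^ (A + 3) :=
      (sum_inj K W x2 hW0 F hFp (fun D hD => (hFN D hD).trans hx2a) M2 hM20).trans hM2s
    have s1 : ∑ D ∈ F, (K : ℝ) ^ D.card * M1 (W * ∏ p ∈ D, p) ≤ x1 / Real.log x1 ^ (A + 3) :=
      (sum_inj K W x1 hW0 F hFp (fun D hD => (hFN D hD).trans hx1a) M1 hM10).trans hM1s
    have s3 : ∑ D ∈ F, (K : ℝ) ^ D.card * (a₀ / (Nat.totient (W * ∏ p ∈ D, p) : ℝ)) ≤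
        a₀ * (1 + ℓ) ^ c := by
      refine (sum_inj K W X hW0 F hFp hFN (fun q => a₀ / (Nat.totient q : ℝ))
        (fun q => by positivity)).trans ?_
      have h1 := hk X
      rw [← hℓ] at h1
      calc ∑ q ∈ Icc 1 X, ((K : ℝ) + 1) ^ q.primeFactors.card * (a₀ / (Nat.totient q : ℝ))
          = a₀ * ∑ q ∈ Icc 1 X, ((K : ℝ) + 1) ^ q.primeFactors.card / (Nat.totient q : ℝ) := by
            rw [mul_sum]; apply sum_congr rfl; intro q _; ring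
        _ ≤ a₀ * (1 + ℓ) ^ c := mul_le_mul_of_nonneg_left h1 (Nat.cast_nonneg _)
    have t : ∀ x : ℕ, X ≤ x → x ≤ 3 * X → (x : ℝ) / Real.log x ^ (A + 3) ≤ 3 * X / ℓ ^ (A + 3) := by
      intro x h1 h2
      obtain ⟨l1, l2⟩ := hlogx x h1 h2
      have h2r : (x : ℝ) ≤ 3 * X := by exact_mod_cast h2
      apply div_le_div₀ (by positivity) h2r (by positivity)
      exact pow_le_pow_left₀ hℓ0.le l1 _
    have t1 := t x1 hx1a hx1b
    have t2 := t x2 hx2a hx2b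
    have t3 : (a₀ : ℝ) * (1 + ℓ) ^ c ≤ (1 / 8) * (X / ℓ ^ (A + 2)) := by
      have h1 : (1 + ℓ) ^ c ≤ 2 ^ c * ℓ ^ c := by
        rw [← mul_pow]; exact pow_le_pow_left₀ (by linarith) (by linarith) _
      have h2 : (a₀ : ℝ) * (1 + ℓ) ^ c ≤ (Λ * ℓ) * (2 ^ c * ℓ ^ c) :=
        mul_le_mul ha2r h1 (by positivity) (by positivity)
      refine h2.trans ?_
      rw [mul_div_assoc', le_div_iff₀ (by positivity)]
      have h3 : (8 * Λ * 2 ^ c) * ℓ ^ (A + 3 + c) = 8 * (Λ * ℓ * (2 ^ c * ℓ ^ c) * ℓ ^ (A + 2)) := by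
        rw [pow_add ℓ (A + 3), pow_add ℓ A 3, pow_add ℓ A 2]; ring
      linarith
    have t4 : (X : ℝ) / (2 * ℓ) / ℓ / ℓ ^ A ≤ Pr X / Nat.totient W / ℓ ^ A := by
      apply div_le_div_of_nonneg_right _ (by positivity)
      apply div_le_div₀ hPr0 hPr hφW
      have : (Nat.totient W : ℝ) ≤ W := by exact_mod_cast Nat.totient_le W
      rw [hWd] at this ⊢
      linarith
    have t5 : (X : ℝ) / (2 * ℓ) / ℓ / ℓ ^ A = (1 / 2) * (X / ℓ ^ (A + 2)) := by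
      have e : 2 * ℓ * (ℓ * ℓ ^ A) = 2 * ℓ ^ (A + 2) := by ring
      rw [div_div, div_div, e, ← div_div]
      ring
    have t6 : 3 * (X : ℝ) / ℓ ^ (A + 3) ≤ (3 / 20) * (X / ℓ ^ (A + 2)) := by
      have e : 3 * (X : ℝ) / ℓ ^ (A + 3) = (3 * (X / ℓ ^ (A + 2))) / ℓ := by
        rw [pow_succ ℓ (A + 2), ← div_div, mul_div_assoc]
      rw [e, div_le_iff₀ hℓ0]
      have : 0 ≤ (X : ℝ) / ℓ ^ (A + 2) := by positivity
      nlinarith
    have t7 : 0 ≤ (X : ℝ) / ℓ ^ (A + 2) := by positivity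
    rw [hsplit]
    linarith


end

end Pool.Agent.TH816.MQ
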