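import Pool.Agent.TH816.MQ.Al

/-! Lenstra's index condition for groups of large rank along strings of consecutive primes. -/

set_option autoImplicit false

open Finset Filter

namespace Pool.Agent.TH816.MQ

/-- the image of `W` modulo `q` -/
def Img (W : Subgroup ℚˣ) (q : ℕ) : Subgroup (ZMod q)ˣ :=
  Subgroup.closure {u : (ZMod q)ˣ | ∃ w ∈ W,
    (((w : ℚ).num : ℤ) : ZMod q) = (u : ZMod q) * (((w : ℚ).den : ℕ) : ZMod q)}

/-- finitely generated groups consist of units modulo large primes -/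
theorem units_large (W : Subgroup ℚˣ) (hW : W.FG) : ∃ q₀ : ℕ, ∀ q : ℕ, q₀ ≤ q → q.Prime →
    ∀ w ∈ W, padicValRat q (w : ℚ) = 0 := by
  classical
  obtain ⟨S, hS⟩ := hW
  refine ⟨∑ s ∈ S, (((s : ℚ)).num.natAbs + ((s : ℚ)).den) + 1, fun q hq hqp w hw => ?_⟩
  have hfact : Fact q.Prime := ⟨hqp⟩
  rw [← hS] at hw
  induction hw using Subgroup.closure_induction with
  | mem s hs =>
    have h1 : ((s : ℚ)).num.natAbs + ((s : ℚ)).den < q := by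
      have := single_le_sum (f := fun s : ℚˣ => ((s : ℚ)).num.natAbs + ((s : ℚ)).den)
        (fun _ _ => Nat.zero_le _) hs
      omega
    have hn : ¬ (q : ℤ) ∣ ((s : ℚ)).num := by
      intro h2
      have h3 := Int.natAbs_dvd_natAbs.2 h2
      rw [Int.natAbs_natCast] at h3
      have h4 : 0 < ((s : ℚ)).num.natAbs :=
        Int.natAbs_pos.2 (Rat.num_ne_zero.2 s.ne_zero)
      have := Nat.le_of_dvd h4 h3
      omega
    have hd : ¬ q ∣ ((s : ℚ)).den := by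
      intro h2
      have := Nat.le_of_dvd ((s : ℚ)).den_pos h2
      omega
    unfold padicValRat
    rw [padicValInt.eq_zero_of_not_dvd hn, padicValNat.eq_zero_of_not_dvd hd]
    simp
  | one => simp
  | mul a b _ _ ha hb =>
    rw [Units.val_mul, padicValRat.mul a.ne_zero b.ne_zero, ha, hb, add_zero]
  | inv a _ ha =>
    rw [Units.val_inv_eq_inv_val, padicValRat.inv, ha, neg_zero]

/-- units modulo `q`: numerator and denominator are prime to `q` -/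
theorem val_zero {q : ℕ} (hq : q.Prime) {w : ℚˣ} (h : padicValRat q (w : ℚ) = 0) :
    ¬ (q : ℤ) ∣ ((w : ℚ)).num ∧ ¬ q ∣ ((w : ℚ)).den := by
  have hfact : Fact q.Prime := ⟨hq⟩
  have hn0 : ((w : ℚ)).num ≠ 0 := Rat.num_ne_zero.2 w.ne_zero
  have hd0 : ((w : ℚ)).den ≠ 0 := ((w : ℚ)).den_ne_zero
  have hcop := ((w : ℚ)).reduced
  unfold padicValRat at h
  have h1 : padicValInt q ((w : ℚ)).num = padicValNat q ((w : ℚ)).den := by omega
  by_cases hd : q ∣ ((w : ℚ)).den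
  · exfalso
    have h2 : padicValNat q ((w : ℚ)).den ≠ 0 := by
      have := (dvd_iff_padicValNat_ne_zero hd0).1 hd
      exact this
    have h3 : q ∣ ((w : ℚ)).num.natAbs := by
      unfold padicValInt at h1
      rw [← h1] at h2
      exact (dvd_iff_padicValNat_ne_zero (Int.natAbs_ne_zero.2 hn0)).2 h2
    have h4 := Nat.dvd_gcd h3 hd
    rw [hcop] at h4
    exact hq.one_lt.ne' (Nat.dvd_one.1 h4)
  · refine ⟨fun hn => ?_, hd⟩
    have h2 : padicValNat q ((w : ℚ)).den = 0 := padicValNat.eq_zero_of_not_dvd hd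
    rw [h2] at h1
    unfold padicValInt at h1
    have h3 : q ∣ ((w : ℚ)).num.natAbs := by
      have := Int.natAbs_dvd_natAbs.2 hn
      rwa [Int.natAbs_natCast] at this
    exact (dvd_iff_padicValNat_ne_zero (Int.natAbs_ne_zero.2 hn0)).1 h3 h1

/-- elements of `W` have reductions in the image -/
theorem img_mem {W : Subgroup ℚˣ} {q : ℕ} (hq : q.Prime) {w : ℚˣ} (hw : w ∈ W)
    (h : padicValRat q (w : ℚ) = 0) : ∃ u ∈ Img W q,
    (((w : ℚ).num : ℤ) : ZMod q) = (u : ZMod q) * (((w : ℚ).den : ℕ) : ZMod q) := by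
  have hfact : Fact q.Prime := ⟨hq⟩
  obtain ⟨hn, hd⟩ := val_zero hq h
  have hn0 : (((w : ℚ).num : ℤ) : ZMod q) ≠ 0 := fun h1 =>
    hn ((ZMod.intCast_zmod_eq_zero_iff_dvd _ _).1 h1)
  have hd0 : (((w : ℚ).den : ℕ) : ZMod q) ≠ 0 := fun h1 => hd ((ZMod.natCast_eq_zero_iff _ _).1 h1)
  refine ⟨Units.mk0 _ (div_ne_zero hn0 hd0), Subgroup.subset_closure ⟨w, hw, ?_⟩, ?_⟩ <;>
  · rw [Units.val_mk0, div_mul_cancel₀ _ hd0]

/-- the exceptional primes for a family of independent rational numbers -/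
noncomputable def ExcW (δ : ℝ) {t : ℕ} (w : Fin t → ℚˣ) (x : ℕ) : Finset ℕ := by
  classical exact (Ioc x (3 * x)).filter (fun q => q.Prime ∧
    (∀ i, ¬ (q : ℤ) ∣ ((w i : ℚˣ) : ℚ).num) ∧ (∀ i, ¬ q ∣ ((w i : ℚˣ) : ℚ).den) ∧
    ∃ j : ℕ, 0 < j ∧ (j : ℝ) ≤ 3 * (x : ℝ) ^ (1 - δ) ∧
      ∀ i, ((((w i : ℚˣ) : ℚ).num : ℤ) : ZMod q) ^ j = ((((w i : ℚˣ) : ℚ).den : ℕ) : ZMod q) ^ j)

theorem excW_card {δ : ℝ} (hδ : 0 < δ) (hδ1 : δ ≤ 1) {t : ℕ} (w : Fin t → ℚˣ)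
    (hw : ∀ j : Fin t → ℤ, ∏ i, w i ^ j i = 1 → j = 0) (ht : 4 / δ ≤ t) :
    ∃ (K : ℝ) (x₀ : ℕ), 0 < K ∧ ∀ x : ℕ, x₀ ≤ x →
    ((ExcW δ w x).card : ℝ) ≤ K * (x : ℝ) ^ (1 - δ / 4) := by
  classical
  obtain ⟨K, x₀, hK, h⟩ := few_bad_real hδ hδ1 (ι := Fin t) (fun i => ((w i : ℚˣ) : ℚ))
    (fun i => (w i).ne_zero) (by
      intro j hj
      apply hw j
      apply Units.ext
      push_cast
      rw [← hj]) (by rw [Fintype.card_fin]; exact ht)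
  refine ⟨K, x₀, hK, fun x hx => h x hx _ (fun q hq => ?_)⟩
  unfold ExcW at hq
  rw [mem_filter] at hq
  exact hq.2

/-- the index of the image -/
theorem index_dvd {W : Subgroup ℚˣ} {q g x t : ℕ} {δ : ℝ} {w : Fin t → ℚˣ} (hq : q.Prime)
    (hx3 : 3 ≤ x) (hxq : x < q)
    (hqx : q ≤ 3 * x) (hwW : ∀ i, w i ∈ W) (hu : ∀ w ∈ W, padicValRat q (w : ℚ) = 0)
    (hg : g ∣ q - 1) (hM : ∀ ℓ : ℕ, ℓ.Prime → ℓ ∣ (q - 1) / g → (x : ℝ) ^ δ < ℓ)
    (hexc : q ∉ ExcW δ w x) : (Img W q).index ∣ g ∧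
      (∀ r : ℕ, r ∣ (Img W q).index → ∀ v ∈ W, ∃ u : ZMod q, u ≠ 0 ∧
        (((v : ℚ).num : ℤ) : ZMod q) = u * (((v : ℚ).den : ℕ) : ZMod q) ∧ u ^ ((q - 1) / r) = 1) := by
  classical
  have hfact : Fact q.Prime := ⟨hq⟩
  have hx0 : (0 : ℝ) < x := by
    have : 0 < x := by omega
    exact_mod_cast this
  have hcard : Nat.card (ZMod q)ˣ = q - 1 := by
    rw [Nat.card_eq_fintype_card, ZMod.card_units]
  have hmul : Nat.card (Img W q) * (Img W q).index = q - 1 := by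
    rw [Subgroup.card_mul_index, hcard]
  have hI : (Img W q).index ∣ q - 1 := by rw [← hmul]; exact Dvd.intro_left _ rfl
  have hpow : ∀ r : ℕ, r ∣ (Img W q).index → ∀ v ∈ W, ∃ u : ZMod q, u ≠ 0 ∧
      (((v : ℚ).num : ℤ) : ZMod q) = u * (((v : ℚ).den : ℕ) : ZMod q) ∧ u ^ ((q - 1) / r) = 1 := by
    intro r hr v hv
    obtain ⟨u, hu1, hu2⟩ := img_mem hq hv (hu v hv)
    refine ⟨(u : ZMod q), u.ne_zero, hu2, ?_⟩
    have h1 : u ^ Nat.card (Img W q) = 1 := by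
      have h2 := Subtype.ext_iff.1 (pow_card_eq_one' (x := (⟨u, hu1⟩ : Img W q)))
      rwa [Subgroup.coe_pow, Subgroup.coe_one] at h2
    obtain ⟨i, hi⟩ := hr
    have hr0 : 0 < r := by
      rcases Nat.eq_zero_or_pos r with h | h
      · rw [h, zero_mul] at hi
        rw [hi, mul_zero] at hmul
        have := hq.one_lt
        omega
      · exact h
    have h3 : (q - 1) / r = Nat.card (Img W q) * i := by
      rw [← hmul, hi, show Nat.card (Img W q) * (r * i) = r * (Nat.card (Img W q) * i) by ring]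
      exact Nat.mul_div_cancel_left _ hr0
    have h4 : u ^ ((q - 1) / r) = 1 := by rw [h3, pow_mul, h1, one_pow]
    have h5 := congrArg (fun z : (ZMod q)ˣ => (z : ZMod q)) h4
    simpa using h5
  refine ⟨?_, hpow⟩
  have hgM : q - 1 = g * ((q - 1) / g) := (Nat.mul_div_cancel' hg).symm
  have hcop : (Img W q).index.Coprime ((q - 1) / g) := by
    rw [Nat.coprime_iff_gcd_eq_one]
    by_contra hne
    obtain ⟨r, hr, hrd⟩ := Nat.exists_prime_and_dvd hne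
    have h1 : r ∣ (Img W q).index := hrd.trans (Nat.gcd_dvd_left _ _)
    have h2 : r ∣ (q - 1) / g := hrd.trans (Nat.gcd_dvd_right _ _)
    have h3 := hM r hr h2
    have h4 : r ∣ q - 1 := h1.trans hI
    apply hexc
    unfold ExcW
    rw [mem_filter, mem_Ioc]
    refine ⟨⟨hxq, hqx⟩, hq, fun i => (val_zero hq (hu _ (hwW i))).1,
      fun i => (val_zero hq (hu _ (hwW i))).2, (q - 1) / r, ?_, ?_, fun i => ?_⟩
    · exact Nat.div_pos (Nat.le_of_dvd (by have := hq.one_lt; omega) h4) hr.pos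
    · have hxd : 0 < (x : ℝ) ^ δ := by positivity
      calc (((q - 1) / r : ℕ) : ℝ) ≤ ((q - 1 : ℕ) : ℝ) / r := Nat.cast_div_le
        _ ≤ (3 * x) / (x : ℝ) ^ δ := by
            apply div_le_div₀ (by positivity) _ hxd h3.le
            exact_mod_cast (by omega : q - 1 ≤ 3 * x)
        _ = 3 * (x : ℝ) ^ (1 - δ) := by
            rw [Real.rpow_sub hx0, Real.rpow_one, mul_div_assoc]
    · obtain ⟨u, -, hu2, hu3⟩ := hpow r h1 (w i) (hwW i)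
      rw [hu2, mul_pow, hu3, one_mul]
  rw [hgM] at hI
  exact hcop.dvd_of_dvd_mul_right hI

/-- Lenstra's sets contain strings of consecutive primes, for groups of large rank -/
theorem lenstra (m : ℕ) : ∃ t C : ℕ, ∀ (f e k : ℕ) (W : Subgroup ℚˣ), 0 < f → 2 ∣ f →
    e.Coprime f → (∀ ℓ : ℕ, ℓ.Prime → ℓ ∣ Nat.gcd (e - 1) f → ℓ * Nat.gcd (e - 1) f ∣ f) →
    (Nat.gcd (e - 1) f ∣ k ∨ ((∃ j : ℕ, Nat.gcd (e - 1) f ∣ 2 ^ j * k) ∧ ∃ w₀ ∈ W, ∃ q₀ : ℕ,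
      ∀ q : ℕ, q.Prime → q₀ ≤ q → q ≡ e [MOD f] → ∀ u : ZMod q,
        (((w₀ : ℚ).num : ℤ) : ZMod q) ≠ u ^ 2 * (((w₀ : ℚ).den : ℕ) : ZMod q))) →
    W.FG → (∃ w : Fin t → ℚˣ, (∀ i, w i ∈ W) ∧ ∀ j : Fin t → ℤ, ∏ i, w i ^ j i = 1 → j = 0) →
    ∃ B x₀ : ℕ, ∀ x : ℕ, x₀ ≤ x → ∃ G : Finset ℕ, G ⊆ Ico x (2 * x) ∧
      (x : ℝ) / Real.log x ^ C ≤ G.card ∧ ∀ n ∈ G, Str m B (fun q => q ≡ e [MOD f] ∧
        (∀ w ∈ W, padicValRat q (w : ℚ) = 0) ∧ (Img W q).index ∣ k) n := by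
  classical
  obtain ⟨δ, C, hδ, hδ1, hmas⟩ := master m 1
  obtain ⟨t, ht⟩ : ∃ t : ℕ, t = ⌈4 / δ⌉₊ := ⟨_, rfl⟩
  have ht4 : 4 / δ ≤ t := by rw [ht]; exact Nat.le_ceil _
  refine ⟨t, C + 1, fun f e k W hf h2f hef hg hk hFG hrank => ?_⟩
  obtain ⟨w, hwW, hwi⟩ := hrank
  obtain ⟨g, hgd⟩ : ∃ g : ℕ, g = Nat.gcd (e - 1) f := ⟨_, rfl⟩
  rw [← hgd] at hg hk
  have hgf : g ∣ f := by rw [hgd]; exact Nat.gcd_dvd_right _ _
  have hge : g ∣ e - 1 := by rw [hgd]; exact Nat.gcd_dvd_left _ _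
  have hg0 : 0 < g := Nat.pos_of_dvd_of_pos hgf hf
  have he0 : 0 < e := by
    rcases Nat.eq_zero_or_pos e with h | h
    · subst h
      rw [Nat.coprime_zero_left] at hef
      omega
    · exact h
  have heodd : Odd e := by
    rw [← Nat.coprime_two_right]
    exact Nat.Coprime.coprime_dvd_right h2f hef
  have h2e : 2 ∣ e - 1 := by
    obtain ⟨i, hi⟩ := heodd
    exact ⟨i, by omega⟩
  have h2g : 2 ∣ g := by rw [hgd]; exact Nat.dvd_gcd h2e h2f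
  obtain ⟨c, hc⟩ : ∃ c : ℕ, c = e - 1 := ⟨_, rfl⟩
  have hce : c + 1 = e := by omega
  obtain ⟨B, X₀, h⟩ := hmas f c 1 {0} hf (by simp) (by rw [hce]; exact hef) (by
    intro ρ hρ
    rw [mem_singleton] at hρ
    rw [hρ, add_zero, hc]
    intro hcop
    have h1 := Nat.dvd_gcd h2e h2f
    rw [hcop] at h1
    omega) (by
    intro ℓ hℓ hℓf
    refine ⟨1, fun ρ hρ hd => ?_⟩
    simp only [mem_insert, mem_singleton] at hρ
    rcases hρ with rfl | rfl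
    · exact hℓf (((Nat.prime_dvd_prime_iff_eq hℓ Nat.prime_two).1 hd) ▸ h2f)
    · exact hℓ.one_lt.ne' (Nat.dvd_one.1 hd))
  obtain ⟨K, x₁, hK, hx₁⟩ := excW_card hδ hδ1 w hwi ht4
  obtain ⟨q₁, hq₁⟩ := units_large W hFG
  obtain ⟨q₂, hq₂⟩ : ∃ q₂ : ℕ, g ∣ k ∨ ((∃ j : ℕ, g ∣ 2 ^ j * k) ∧ ∃ w₀ ∈ W,
      ∀ q : ℕ, q.Prime → q₂ ≤ q → q ≡ e [MOD f] → ∀ u : ZMod q,
        (((w₀ : ℚ).num : ℤ) : ZMod q) ≠ u ^ 2 * (((w₀ : ℚ).den : ℕ) : ZMod q)) := by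
    rcases hk with hk | ⟨hk, w₀, hw₀, q₀, hq₀⟩
    · exact ⟨0, Or.inl hk⟩
    · exact ⟨q₀, Or.inr ⟨hk, w₀, hw₀, hq₀⟩⟩
  have ev1 : ∀ᶠ x : ℕ in atTop, (2 * B * K) * Real.log x ^ C ≤ (x : ℝ) ^ (δ / 4) :=
    (tendsto_natCast_atTop_atTop (R := ℝ)).eventually
      (Pool.Agent.H398R2.BV.ev_log _ _ (δ / 4) (by positivity))
  have ev3 : ∀ᶠ x : ℕ in atTop, 2 ≤ Real.log x :=
    (Pool.Agent.H862R2.PPSm5.log_tendsto).eventually_ge_atTop _
  obtain ⟨X₁, hX₁⟩ := Filter.eventually_atTop.1 (ev1.and ev3)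
  refine ⟨B, max (max X₀ X₁) (max (max (B + 3) x₁) (max q₁ q₂)), fun x hx => ?_⟩
  simp only [max_le_iff] at hx
  obtain ⟨⟨hx1, hx2⟩, ⟨hx3, hx4⟩, hx5, hx6⟩ := hx
  obtain ⟨v1, v3⟩ := hX₁ x hx2
  obtain ⟨G, hG1, hG2, hG3⟩ := h x hx1
  have hx3' : 3 ≤ x := by omega
  have hxr : (3 : ℝ) ≤ x := by exact_mod_cast hx3'
  have hx0 : (0 : ℝ) < x := by linarith
  have hl : 0 < Real.log x := by linarith
  have hQc : (B : ℝ) * (ExcW δ w x).card ≤ (1 / 2) * ((x : ℝ) / Real.log x ^ C) := by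
    have h1 := hx₁ x hx4
    calc (B : ℝ) * (ExcW δ w x).card ≤ (B : ℝ) * (K * (x : ℝ) ^ (1 - δ / 4)) :=
          mul_le_mul_of_nonneg_left h1 (Nat.cast_nonneg _)
      _ ≤ (1 / 2) * ((x : ℝ) / Real.log x ^ C) := by
        rw [mul_div_assoc', le_div_iff₀ (by positivity)]
        have e1 : (x : ℝ) = (x : ℝ) ^ (1 - δ / 4) * (x : ℝ) ^ (δ / 4) := by
          rw [← Real.rpow_add hx0]; simp
        calc (B : ℝ) * (K * (x : ℝ) ^ (1 - δ / 4)) * Real.log x ^ C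
            = (1 / 2) * ((x : ℝ) ^ (1 - δ / 4) * ((2 * B * K) * Real.log x ^ C)) := by ring
          _ ≤ (1 / 2) * ((x : ℝ) ^ (1 - δ / 4) * (x : ℝ) ^ (δ / 4)) := by
              apply mul_le_mul_of_nonneg_left _ (by norm_num)
              exact mul_le_mul_of_nonneg_left v1 (by positivity)
          _ = (1 / 2) * x := by rw [← e1]
  refine ⟨G.filter (fun n => ∀ p ∈ Ioc n (n + B), p ∉ ExcW δ w x),
    (filter_subset _ _).trans hG1, prune B C x G _ hG2 hQc v3, fun n hn => ?_⟩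
  rw [mem_filter] at hn
  obtain ⟨hnG, hnQ⟩ := hn
  have hnx := hG1 hnG
  rw [mem_Ico] at hnx
  obtain ⟨g1, g2⟩ := hG3 n hnG
  refine ⟨g1, fun q hq hqp => ?_⟩
  obtain ⟨t1, t2⟩ := g2 q hq hqp
  have hqQ := hnQ q hq
  rw [mem_Ioc] at hq
  have hqx : q ≤ 3 * x := by omega
  have hxq : x < q := by omega
  have hqe : q ≡ e [MOD f] := by rw [← hce]; exact t1
  have hfact : Fact q.Prime := ⟨hqp⟩
  have hq1 : 1 < q := hqp.one_lt
  have hu := hq₁ q (by omega) hqp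
  -- `gcd (q - 1) f = g`
  have hqg : ∀ d : ℕ, d ∣ f → (d ∣ q - 1 ↔ d ∣ e - 1) := by
    intro d hd
    have h1 : q ≡ e [MOD d] := hqe.of_dvd hd
    constructor
    · intro h2
      have h3 : q ≡ 1 [MOD d] := ((Nat.modEq_iff_dvd' hq1.le).2 h2).symm
      exact (Nat.modEq_iff_dvd' he0).1 (h3.symm.trans h1)
    · intro h2
      have h3 : e ≡ 1 [MOD d] := ((Nat.modEq_iff_dvd' he0).2 h2).symm
      exact (Nat.modEq_iff_dvd' hq1.le).1 (h3.symm.trans h1.symm)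
  have hgq : g ∣ q - 1 := (hqg g hgf).2 hge
  have hM : ∀ ℓ : ℕ, ℓ.Prime → ℓ ∣ (q - 1) / g → (x : ℝ) ^ δ < ℓ := by
    intro ℓ hℓ hd
    have hd' : ℓ * g ∣ q - 1 := by
      obtain ⟨i, hi⟩ := hd
      refine ⟨i, ?_⟩
      rw [← Nat.mul_div_cancel' hgq, hi]
      ring
    by_cases hℓf : ℓ ∣ f
    · exfalso
      have h1 : ℓ ∣ q - 1 := (Dvd.intro _ rfl).trans hd'
      have h2 : ℓ ∣ g := by
        rw [hgd]
        exact Nat.dvd_gcd ((hqg ℓ hℓf).1 h1) hℓf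
      have h3 := hg ℓ hℓ h2
      have h4 : ℓ * g ∣ g := by
        conv_rhs => rw [hgd]
        exact Nat.dvd_gcd ((hqg _ h3).1 hd') h3
      have h5 := Nat.le_of_dvd hg0 h4
      have h6 := hℓ.two_le
      nlinarith
    · exact t2 0 (mem_singleton_self _) ℓ hℓ hℓf (by
        rw [add_zero]
        exact (Dvd.intro _ rfl).trans hd')
  obtain ⟨i1, i2⟩ := index_dvd hqp hx3' hxq hqx hwW hu hgq hM hqQ
  refine ⟨hqe, hu, ?_⟩
  rcases hq₂ with hq₂ | ⟨⟨j, hj⟩, w₀, hw₀, hq₂⟩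
  · exact i1.trans hq₂
  · -- the index is odd
    have hodd : ¬ 2 ∣ (Img W q).index := by
      intro h2
      obtain ⟨u, hu0, hu1, hu2⟩ := i2 2 h2 w₀ hw₀
      have h3 : q ≠ 2 := by omega
      have h4 : (q - 1) / 2 = q / 2 := by
        rcases hqp.eq_two_or_odd with h | h
        · exact absurd h h3
        · omega
      rw [h4] at hu2
      obtain ⟨v, hv⟩ := (ZMod.euler_criterion q hu0).2 hu2
      exact hq₂ q hqp (by omega) hqe v (by rw [hu1, hv, sq])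
    have h5 : (Img W q).index.Coprime (2 ^ j) := by
      apply Nat.Coprime.pow_right
      exact ((Nat.Prime.coprime_iff_not_dvd Nat.prime_two).2 hodd).symm
    exact h5.dvd_of_dvd_mul_left (i1.trans hj)

end Pool.Agent.TH816.MQ
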