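import Pool.Agent.TH816.MQ.Stm
import Pool.Agent.W335.HR.SM

/-! Second moments of the weights `WW`, for the classes modulo `q W` and arbitrary positions.
Adapted from `Pool.W335.HR` (helper335). -/

set_option autoImplicit false

open Finset

namespace Pool.Agent.TH816.MQ

open Pool.Agent.H361R2.PP Pool.Agent.W70.HR Pool.W335.HR
open Pool.Agent.H410R2.AC (wt GG cfg term WW pos Inj coef)

theorem smq : S_MLq → S_SMq := by
  classical
  intro hML N m t u β Λ θ s huβ hβ1 hu hΛ hθ0 hθ1 hs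
  have hN : (0 : ℝ) < ((N : ℝ) + 1) ^ (2 * t) := by positivity
  obtain ⟨δ₀, hδ₀, hML⟩ := hML N (m * (2 * t + 4)) Λ θ (s / ((N : ℝ) + 1) ^ (2 * t)) hΛ hθ0 hθ1
    (div_pos hs hN)
  refine ⟨δ₀, hδ₀, fun δ hδ hδ' q hq0 => ?_⟩
  obtain ⟨X₀, hX₀⟩ := hML δ hδ hδ' q hq0
  refine ⟨max X₀ 1, fun X hX b hb S hS h0 hd hG γ hγ hγm U hU hUN B hBU c hc => ?_⟩
  have hX1 : 1 ≤ X := (le_max_right _ _).trans hX
  have key := hX₀ X ((le_max_left _ _).trans hX) b hb U hU hUN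
  have huτ : ∀ τ, 0 < u τ := fun τ => (huβ τ).1
  have hβτ : ∀ τ, 0 < β τ := fun τ => (huβ τ).2
  -- the error
  have herr : ∀ M : ℝ, 0 ≤ s / ((N : ℝ) + 1) ^ (2 * t) * δ ^ (m * (2 * t + 4)) * M →
      ((N : ℝ) + 1) ^ (2 * t) * (1 + γ) ^ (2 * t + 4) *
        (s / ((N : ℝ) + 1) ^ (2 * t) * δ ^ (m * (2 * t + 4)) * M) ≤ s * M := by
    intro M hM
    have hM' : 0 ≤ s * M := by
      have h1 : 0 < s / ((N : ℝ) + 1) ^ (2 * t) * δ ^ (m * (2 * t + 4)) := by positivity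
      have h2 : 0 ≤ M := by
        by_contra hcon
        push Not at hcon
        nlinarith [mul_neg_of_pos_of_neg h1 hcon]
      positivity
    have h1 : (1 + γ) ^ (2 * t + 4) * δ ^ (m * (2 * t + 4)) ≤ 1 := by
      have h2 : (1 + γ) ^ (2 * t + 4) ≤ ((1 / δ) ^ m) ^ (2 * t + 4) :=
        pow_le_pow_left₀ (by linarith) hγm _
      calc (1 + γ) ^ (2 * t + 4) * δ ^ (m * (2 * t + 4))
          ≤ ((1 / δ) ^ m) ^ (2 * t + 4) * δ ^ (m * (2 * t + 4)) := by gcongr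
        _ = 1 := by
            rw [← pow_mul, ← mul_pow, one_div, inv_mul_cancel₀ hδ.ne', one_pow]
    calc ((N : ℝ) + 1) ^ (2 * t) * (1 + γ) ^ (2 * t + 4) *
        (s / ((N : ℝ) + 1) ^ (2 * t) * δ ^ (m * (2 * t + 4)) * M)
        = (1 + γ) ^ (2 * t + 4) * δ ^ (m * (2 * t + 4)) * (s * M) := by
          field_simp
      _ ≤ 1 * (s * M) := by gcongr
      _ = s * M := one_mul _
  have hF1 : ∀ n a, FS {∅} a n = 1 := by
    intro n a
    unfold FS wt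
    simp
  have hG1 : GG {∅} = 1 := by
    unfold GG wt
    simp
  have hFam0 : Fam δ X 0 {∅} := by
    intro R hR
    rw [Finset.mem_singleton] at hR
    subst hR
    simp
  -- the general statement
  have gen : ∀ (T : Finset ℕ) (M : ℝ) (ψ : ℕ → Finset (Finset ℕ)) (v : ℕ → ℝ),
      (∀ a ∈ B, ψ a = {∅}) → (∀ a ∈ U, 0 ≤ v a ∧ Fam δ X (v a) (ψ a)) →
      ∑ a ∈ U, v a ≤ 1 / 4 - 2 * θ →
      (∀ (F F' : ℕ → Finset (Finset ℕ)) (u u' : ℕ → ℝ),
      (∀ a ∈ U, 0 ≤ u a ∧ Fam δ X (u a) (F a)) → (∀ a ∈ U, 0 ≤ u' a ∧ Fam δ X (u' a) (F' a)) →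
      ∑ a ∈ U, (u a + u' a) ≤ 1 / 2 - 2 * θ →
      ((∀ a ∈ U, F a = F' a) ∨ ∃ a ∈ U, Disjoint (F a) (F' a)) →
      |∑ n ∈ T, rU δ X U n * ((∏ a ∈ U, FS (F a) a n) * ∏ a ∈ U, FS (F' a) a n) -
        (if ∀ a ∈ U, F a = F' a then M * ∏ a ∈ U, GG (F a) else 0)| ≤
          s / ((N : ℝ) + 1) ^ (2 * t) * δ ^ (m * (2 * t + 4)) * M) →
      |∑ n ∈ T, rU δ X U n * ((∏ a ∈ U, FS (ψ a) a n) * WW B c (xh γ β S n)) ^ 2 -
        M * ((∏ a ∈ U, GG (ψ a)) * ∑ σ ∈ cfg t B, c σ ^ 2 * term (qh γ β S) σ)| ≤ s * M := by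
    intro T M ψ v hψ hv hvs H
    have h1 := corr hBU huτ hu hS h0 hd hG hψ hv hθ0 hvs T (rU δ X U) M _ H
    have h2 := moment hBU hUN hG hβτ hβ1 hγ hc hψ T (rU δ X U) M _ h1
    refine h2.trans (herr M ?_)
    have h3 : (fun _ => none : Fin t → Option ℕ) ∈ cfg t B := by
      unfold Pool.Agent.H410R2.AC.cfg
      rw [Finset.mem_filter, Fintype.mem_piFinset]
      exact ⟨fun τ => by simp, fun τ τ' a h => by simp at h⟩
    exact (abs_nonneg _).trans (h1 _ h3 _ h3)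
  have hv0 : ∑ a ∈ U, (fun _ : ℕ => (0 : ℝ)) a ≤ 1 / 4 - 2 * θ := by
    simp only [Finset.sum_const_zero]
    linarith
  refine ⟨?_, fun a₀ ha₀ => ⟨?_, fun a₁ ha₁ => ?_⟩⟩
  · have h1 := gen (SIq q X b) (Omq q δ X U.card) (fun _ => {∅}) (fun _ => 0) (fun _ _ => rfl)
      (fun _ _ => ⟨le_rfl, hFam0⟩) hv0 (fun F F' u u' a1 a2 a3 a4 => (key F F' u u' a1 a2 a3 a4).1)
    simp only [hF1, hG1, Finset.prod_const_one, one_mul] at h1
    exact h1
  · have h1 := gen (SPq q X b a₀) (OmPq q δ X U.card) (fun _ => {∅}) (fun _ => 0) (fun _ _ => rfl)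
      (fun _ _ => ⟨le_rfl, hFam0⟩) hv0
      (fun F F' u u' a1 a2 a3 a4 => (key F F' u u' a1 a2 a3 a4).2 a₀ ha₀)
    simp only [hF1, hG1, Finset.prod_const_one, one_mul] at h1
    exact h1
  · have ha₁U : a₁ ∈ U := (Finset.mem_sdiff.1 ha₁).1
    have ha₁B : a₁ ∉ B := (Finset.mem_sdiff.1 ha₁).2
    have hX0 : (0 : ℝ) < X := by exact_mod_cast hX1
    have hFam1 : Fam δ X (1 / 4 - 2 * θ) (S1 δ θ X) := by
      intro R hR
      unfold S1 at hR
      rw [Finset.mem_filter, Finset.mem_powerset] at hR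
      refine ⟨hR.1, ?_⟩
      have hpos : 0 < ∏ p ∈ R, (p : ℝ) := by
        refine Finset.prod_pos fun p hp => ?_
        have h2 := hR.1 hp
        unfold P2 at h2
        rw [Finset.mem_filter] at h2
        exact_mod_cast h2.2.1.pos
      have h3 := Real.log_le_log hpos hR.2
      rwa [Real.log_rpow hX0] at h3
    have h1 := gen (SPq q X b a₀) (OmPq q δ X U.card) (fun a => if a = a₁ then S1 δ θ X else {∅})
      (fun a => if a = a₁ then 1 / 4 - 2 * θ else 0)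
      (fun a ha => by
        rw [if_neg]
        rintro rfl
        exact ha₁B ha)
      (fun a _ => by
        split_ifs
        · exact ⟨by linarith, hFam1⟩
        · exact ⟨le_rfl, hFam0⟩)
      (by
        rw [Finset.sum_ite_eq' U a₁, if_pos ha₁U])
      (fun F F' u u' a1 a2 a3 a4 => (key F F' u u' a1 a2 a3 a4).2 a₀ ha₀)
    have e1 : ∀ n, ∏ a ∈ U, FS (if a = a₁ then S1 δ θ X else {∅}) a n = FS (S1 δ θ X) a₁ n := by
      intro n
      rw [Finset.prod_eq_single_of_mem a₁ ha₁U]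
      · rw [if_pos rfl]
      · intro a _ hne
        rw [if_neg hne, hF1]
    have e2 : ∏ a ∈ U, GG (if a = a₁ then S1 δ θ X else {∅}) = GG (S1 δ θ X) := by
      rw [Finset.prod_eq_single_of_mem a₁ ha₁U]
      · rw [if_pos rfl]
      · intro a _ hne
        rw [if_neg hne, hG1]
    simp only [e1, e2] at h1
    exact h1

end Pool.Agent.TH816.MQ
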