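import Pool.Agent.TH816.MQ.Stm
import Pool.Agent.W70.HR.Wt
import Pool.Agent.H862R2.PP.Sm5

/-! Weights for the coloured Maynard-Tao theorem with a fixed modulus and additional rough positions.
Adapted from `Pool.Agent.W70.HR.WtA` (helper70) and `Pool.Agent.TH882.WtE` (helper882). -/

set_option autoImplicit false

open Finset

namespace Pool.Agent.TH816.MQ

open Pool.Agent.H361R2.PP
open Pool.Agent.W70.HR hiding mem_Bw1
open Pool.Agent.H410R2.AC (wt GG cfg term WW pos Inj coef)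

/-- the totient of the modulus -/
theorem tot_q (q : ℕ) (hq0 : 0 < q) : ∃ X₀ : ℕ, ∀ X : ℕ, X₀ ≤ X →
    (Nat.totient (Wq q X) : ℝ) = q * Nat.totient (Wm X) := by
  obtain ⟨X₀, hX₀⟩ := Filter.eventually_atTop.1
    ((Pool.Agent.H862R2.PPSm5.HH_tendsto).eventually_ge_atTop q)
  refine ⟨X₀, fun X hX => ?_⟩
  have hH := hX₀ X hX
  have hW := Pool.Agent.H361R2.PP.Wm_pos X
  have hpf : (q * Wm X).primeFactors = (Wm X).primeFactors := by
    rw [Nat.primeFactors_mul hq0.ne' hW.ne']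
    apply Finset.union_eq_right.2
    intro p hp
    have hpp := Nat.prime_of_mem_primeFactors hp
    have hpq := Nat.le_of_dvd hq0 (Nat.dvd_of_mem_primeFactors hp)
    rw [Nat.mem_primeFactors]
    refine ⟨hpp, ?_, hW.ne'⟩
    unfold Wm primorial
    apply Finset.dvd_prod_of_mem
    rw [mem_filter, mem_range]
    exact ⟨by omega, hpp⟩
  have h1 := Nat.totient_eq_mul_prod_factors (q * Wm X)
  have h2 := Nat.totient_eq_mul_prod_factors (Wm X)
  rw [hpf] at h1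
  have h3 : ((Nat.totient (q * Wm X) : ℕ) : ℚ) = q * Nat.totient (Wm X) := by
    rw [h1, h2]
    push_cast
    ring
  unfold Wq
  exact_mod_cast h3

theorem It1 {Λ : ℝ} {X a : ℕ} (ha : a ∈ It Λ X) : 1 ≤ a := (Finset.mem_Icc.1 ha).1

/-- the conclusion of `S_SMq` for one class -/
def SMq {t : ℕ} (q : ℕ) (Λ δ θ s γ : ℝ) (X b N : ℕ) (β : Fin t → ℝ) (S : Fin t → Finset (Finset ℕ)) :
    Prop :=
  ∀ U ⊆ It Λ X, U.card ≤ N → ∀ B ⊆ U,
  ∀ c : (Fin t → Option ℕ) → ℝ, (∀ σ, |c σ| ≤ (1 + γ) ^ 2) →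
    |∑ n ∈ SIq q X b, rU δ X U n * WW B c (xh γ β S n) ^ 2 -
      Omq q δ X U.card * ∑ σ ∈ cfg t B, c σ ^ 2 * term (qh γ β S) σ| ≤ s * Omq q δ X U.card ∧
    ∀ a₀ ∈ Bq q Λ X b \ U,
      |∑ n ∈ SPq q X b a₀, rU δ X U n * WW B c (xh γ β S n) ^ 2 -
        OmPq q δ X U.card * ∑ σ ∈ cfg t B, c σ ^ 2 * term (qh γ β S) σ| ≤ s * OmPq q δ X U.card ∧
      ∀ a₁ ∈ U \ B,
      |∑ n ∈ SPq q X b a₀, rU δ X U n * (FS (S1 δ θ X) a₁ n * WW B c (xh γ β S n)) ^ 2 -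
        OmPq q δ X U.card * (GG (S1 δ θ X) * ∑ σ ∈ cfg t B, c σ ^ 2 * term (qh γ β S) σ)| ≤
          s * OmPq q δ X U.card

/-- the standing situation -/
structure Wsq {t : ℕ} (q : ℕ) (δ θ s η γ : ℝ) (X N : ℕ) (β : Fin t → ℝ)
    (S : Fin t → Finset (Finset ℕ)) : Prop where
  q0 : 0 < q
  tot : (Nat.totient (Wq q X) : ℝ) = q * Nat.totient (Wm X)
  s0 : 0 ≤ s
  γ0 : 0 ≤ γ
  β0 : ∀ τ, 0 ≤ β τ
  β1 : ∑ τ, β τ = 1
  gg : ∀ τ, 1 ≤ GG (S τ)
  hS : ∀ τ, ∀ R ∈ S τ, R ⊆ P2 (JJ δ X) X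
  η0 : 0 ≤ η
  hη : ∀ τ, (N : ℝ) * (γ ^ 2 * (β τ ^ 2 / GG (S τ))) ≤ η
  hq : ∑ τ, γ ^ 2 * (β τ ^ 2 / GG (S τ)) ≤ η
  pJ : 2 ^ 2 ^ JJ δ X ≤ X
  v0 : 0 < VV δ X
  hX : 1 ≤ X
  g1 : 1 ≤ GG (S1 δ θ X)

theorem mem_SPq {q X b a n : ℕ} : n ∈ SPq q X b a ↔
    X ≤ n ∧ n < 2 * X ∧ n % Wq q X = b ∧ (n + a).Prime := by
  unfold SPq
  rw [mem_filter, mem_Ico]
  tauto

section

variable {t : ℕ} {q : ℕ} {Λ δ θ s η γ : ℝ} {X b N N' : ℕ} {β : Fin t → ℝ}
  {S : Fin t → Finset (Finset ℕ)}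

theorem xh_primeq (h : Wsq q δ θ s η γ X N β S) {n a : ℕ} (hn : X ≤ n) (ha : 1 ≤ a)
    (hp : (n + a).Prime) (τ : Fin t) : xh γ β S n τ a = γ * β τ := by
  unfold xh
  rw [FS_prime (P2_lt hn ha) (h.hS τ) hp]
  have h1 := h.gg τ
  have : GG (S τ) ≠ 0 := by linarith
  field_simp

theorem rU_eraseq (h : Wsq q δ θ s η γ X N β S) {U : Finset ℕ} {n a : ℕ} (ha : a ∈ U)
    (hn : X ≤ n) (ha1 : 1 ≤ a) (hp : (n + a).Prime) : rU δ X U n = rU δ X (U.erase a) n := by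
  unfold rU
  rw [← mul_prod_erase U _ ha, rg_prime (P1_lt h.pJ hn ha1) hp, one_mul]

theorem qh_nonnegq (h : Wsq q δ θ s η γ X N β S) (τ : Fin t) (a : ℕ) : 0 ≤ qh γ β S τ a := by
  unfold qh
  have := h.gg τ
  positivity

theorem termq_nonnegq (h : Wsq q δ θ s η γ X N β S) (σ : Fin t → Option ℕ) :
    0 ≤ term (qh γ β S) σ := by
  unfold term
  refine prod_nonneg fun τ _ => ?_
  cases σ τ with
  | none => exact zero_le_one
  | some a => exact qh_nonnegq h τ a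

theorem OmPq_nonneg (h : Wsq q δ θ s η γ X N β S) (m : ℕ) : 0 ≤ OmPq q δ X m := by
  unfold OmPq
  exact mul_nonneg (div_nonneg (Nat.cast_nonneg _) (Nat.cast_nonneg _)) (pow_nonneg h.v0.le _)

theorem Omq_pos (h : Wsq q δ θ s η γ X N β S) (m : ℕ) : 0 < Omq q δ X m := by
  unfold Omq
  have h1 : (0 : ℝ) < X := by exact_mod_cast h.hX
  have h2 : (0 : ℝ) < Wq q X := by
    have : 0 < Wq q X := Nat.mul_pos h.q0 (primorial_pos _)
    exact_mod_cast this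
  exact mul_pos (div_pos h1 h2) (pow_pos h.v0 _)

theorem OmPq_eq (h : Wsq q δ θ s η γ X N β S) (m : ℕ) :
    OmPq q δ X m = vp δ X * Omq q δ X (m + 1) := by
  have h1 : (0 : ℝ) < X := by exact_mod_cast h.hX
  have h2 : (0 : ℝ) < Wm X := by exact_mod_cast Pool.Agent.H361R2.PP.Wm_pos X
  have h3 := h.v0
  have h4 : (0 : ℝ) < q := by exact_mod_cast h.q0
  have h5 : (0 : ℝ) < Nat.totient (Wm X) := by
    exact_mod_cast Nat.totient_pos.2 (Pool.Agent.H361R2.PP.Wm_pos X)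
  have h6 := h.tot
  have h7 : ((Wq q X : ℕ) : ℝ) = q * Wm X := by unfold Wq; push_cast; ring
  unfold OmPq vp Omq
  rw [h6, h7, pow_succ]
  field_simp

theorem mni_ofq (hMni : Mni) (h : Wsq q δ θ s η γ X N β S) {B : Finset ℕ} (hB : B.card = N) :
    1 ≤ ZB γ β S B ∧ ∀ B' ⊆ B,
    ∑ σ ∈ cfg t B', coef β σ * term (qh γ β S) σ ≤ η * ZB γ β S B ∧
    ∑ σ ∈ cfg t B', term (qh γ β S) σ ≤ ZB γ β S B ∧
    (1 - ∑ τ, ∑ a ∈ B \ B', qh γ β S τ a) * ZB γ β S B ≤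
      ∑ σ ∈ cfg t B', term (qh γ β S) σ := by
  obtain ⟨h1, -, h2⟩ := hMni t B β (qh γ β S) η h.η0 h.β0 h.β1 (fun τ a => qh_nonnegq h τ a)
    (fun τ => by rw [sumq, hB]; exact h.hη τ)
  refine ⟨h1, fun B' hB' => ?_⟩
  obtain ⟨h3, -, h4, h5⟩ := h2 B' hB'
  exact ⟨h3, h4, h5⟩

/-- the weights with the additional rough positions of `U` -/
noncomputable def wwq (δ γ : ℝ) (X : ℕ) (β : Fin t → ℝ) (S : Fin t → Finset (Finset ℕ))
    (B U : Finset ℕ) (n : ℕ) : ℝ := rU δ X U n * WW B (fun _ => 1) (xh γ β S n) ^ 2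

theorem wwq_nonneg (B U : Finset ℕ) (n : ℕ) : 0 ≤ wwq δ γ X β S B U n :=
  mul_nonneg (rU_nonneg U n) (sq_nonneg _)

/-- total mass of the weights -/
theorem W1q (hMni : Mni) (h : Wsq q δ θ s η γ X N β S) (hsm : SMq q Λ δ θ s γ X b N' β S)
    {B U : Finset ℕ} (hB : B.card = N) (hBU : B ⊆ U) (hUN : U.card ≤ N') (hUs : U ⊆ It Λ X) (hBs : B ⊆ Bq q Λ X b) :
    ∑ n ∈ SIq q X b, wwq δ γ X β S B U n ≤ (1 + s) * (Omq q δ X U.card * ZB γ β S B) := by
  have hγ := h.γ0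
  have h1 := (hsm U hUs hUN B hBU (fun _ => 1) (fun σ => by
    rw [abs_one]; nlinarith)).1
  have hZ := (mni_ofq hMni h hB).1
  have h2 := (abs_le.1 h1).2
  have h3 : ∑ σ ∈ cfg t B, (1 : ℝ) ^ 2 * term (qh γ β S) σ = ZB γ β S B := by
    unfold ZB
    refine sum_congr rfl fun σ _ => by ring
  rw [h3] at h2
  have h4 := (Omq_pos h U.card).le
  have h5 : s * Omq q δ X U.card ≤ s * (Omq q δ X U.card * ZB γ β S B) := by
    apply mul_le_mul_of_nonneg_left _ h.s0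
    nlinarith
  unfold wwq
  linarith

/-- sums over primes -/
theorem W2q (hCol : Col) (hCob : Cob) (hMni : Mni) (h : Wsq q δ θ s η γ X N β S)
    (hsm : SMq q Λ δ θ s γ X b N' β S) {B U : Finset ℕ}
    (hB : B.card = N) (hBU : B ⊆ U) (hUN : U.card ≤ N') (hUs : U ⊆ It Λ X) (hBs : B ⊆ Bq q Λ X b) {a : ℕ}
    (ha : a ∈ B) :
    (1 - 3 * η - s) * (vp δ X * (1 + γ) ^ 2 * (Omq q δ X U.card * ZB γ β S B)) ≤
      ∑ n ∈ SPq q X b a, wwq δ γ X β S B U n ∧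
    ∑ n ∈ SPq q X b a, wwq δ γ X β S B U n ≤
      (1 + s) * (vp δ X * (1 + γ) ^ 2 * (Omq q δ X U.card * ZB γ β S B)) := by
  have haU : a ∈ U := hBU ha
  have ha1 : 1 ≤ a := It1 (hUs haU)
  have hc := h.γ0
  have hs := h.s0
  have hcoll : ∀ n ∈ SPq q X b a, wwq δ γ X β S B U n =
      rU δ X (U.erase a) n * WW (B.erase a) (co1 γ β) (xh γ β S n) ^ 2 := by
    intro n hn
    rw [mem_SPq] at hn
    unfold wwq
    rw [(hCol t B β (xh γ β S n) (fun _ => γ)).1 a ha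
      (fun τ => xh_primeq h hn.1 ha1 hn.2.2.2 τ), rU_eraseq h haU hn.1 ha1 hn.2.2.2]
  rw [sum_congr rfl hcoll]
  have hcob := (hCob t β h.β0 h.β1)
  have hc0 : ∀ σ, |co1 γ β σ| ≤ (1 + γ) ^ 2 := by
    intro σ
    obtain ⟨-, h1, h2, -, -⟩ := hcob.2 γ hc σ
    rw [abs_of_nonneg h1]
    nlinarith
  have hcard : (U.erase a).card + 1 = U.card := by
    rw [card_erase_of_mem haU]
    have : 0 < U.card := card_pos.2 ⟨a, haU⟩
    omega
  have h3 := ((hsm (U.erase a) ((erase_subset _ _).trans hUs) (by omega) (B.erase a)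
    (erase_subset_erase a hBU)
    (co1 γ β) hc0).2 a (by rw [mem_sdiff]; exact ⟨hBs ha, notMem_erase a U⟩)).1
  set Ω := OmPq q δ X (U.erase a).card with hΩ
  have hΩ0 : 0 ≤ Ω := OmPq_nonneg h _
  have hΩe : Ω = vp δ X * Omq q δ X U.card := by rw [hΩ, OmPq_eq h, hcard]
  obtain ⟨hM1, hM⟩ := mni_ofq hMni h hB
  obtain ⟨hm1, hm3, hm4⟩ := hM (B.erase a) (erase_subset _ _)
  set M := ZB γ β S B with hMdef
  set M' := ∑ σ ∈ cfg t (B.erase a), term (qh γ β S) σ with hM'def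
  have hsd : B \ B.erase a = {a} := by
    ext x
    simp only [mem_sdiff, mem_erase, mem_singleton]
    constructor
    · rintro ⟨h1, h2⟩
      by_contra h3
      exact h2 ⟨h3, h1⟩
    · rintro rfl
      exact ⟨ha, fun h => h.1 rfl⟩
  rw [hsd] at hm4
  simp only [sum_singleton] at hm4
  have hMq : ∑ τ, qh γ β S τ a ≤ η := h.hq
  have hη := h.η0
  have hM'1 : (1 - η) * M ≤ M' := by
    refine le_trans ?_ hm4
    apply mul_le_mul_of_nonneg_right _ (by linarith)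
    linarith
  set Z' := ∑ σ ∈ cfg t (B.erase a), co1 γ β σ ^ 2 * term (qh γ β S) σ with hZ'
  -- upper and lower bounds for the main term
  have hup : Z' ≤ (1 + γ) ^ 2 * M := by
    calc Z' ≤ ∑ σ ∈ cfg t (B.erase a), (1 + γ) ^ 2 * term (qh γ β S) σ := by
          refine sum_le_sum fun σ _ => ?_
          obtain ⟨-, h1, h2, -, -⟩ := hcob.2 γ hc σ
          apply mul_le_mul_of_nonneg_right _ (termq_nonnegq h σ)
          exact pow_le_pow_left₀ h1 h2 2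
      _ = (1 + γ) ^ 2 * M' := by rw [mul_sum]
      _ ≤ _ := mul_le_mul_of_nonneg_left hm3 (by positivity)
  have hlow : (1 + γ) ^ 2 * M' - 2 * γ * (1 + γ) * (η * M) ≤ Z' := by
    calc (1 + γ) ^ 2 * M' - 2 * γ * (1 + γ) * (η * M) ≤
        (1 + γ) ^ 2 * M' - 2 * γ * (1 + γ) *
          ∑ σ ∈ cfg t (B.erase a), coef β σ * term (qh γ β S) σ := by
          have := mul_le_mul_of_nonneg_left hm1 (by positivity : 0 ≤ 2 * γ * (1 + γ))
          linarith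
      _ = ∑ σ ∈ cfg t (B.erase a), ((1 + γ) ^ 2 - 2 * γ * (1 + γ) * coef β σ) *
            term (qh γ β S) σ := by
          rw [hM'def, mul_sum, mul_sum, ← sum_sub_distrib]
          refine sum_congr rfl fun σ _ => ?_
          ring
      _ ≤ _ := by
          refine sum_le_sum fun σ _ => ?_
          obtain ⟨h1, -, -, -, -⟩ := hcob.2 γ hc σ
          exact mul_le_mul_of_nonneg_right h1 (termq_nonnegq h σ)
  have hM0 : 0 ≤ M := by linarith
  have h1c : (1 : ℝ) ≤ (1 + γ) ^ 2 := by nlinarith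
  have hsM : s ≤ s * ((1 + γ) ^ 2 * M) := by
    have : (1 : ℝ) ≤ (1 + γ) ^ 2 * M := by nlinarith
    nlinarith
  have h4 := abs_le.1 h3
  have hre : vp δ X * (1 + γ) ^ 2 * (Omq q δ X U.card * M) = Ω * ((1 + γ) ^ 2 * M) := by
    rw [hΩe]; ring
  rw [hre]
  constructor
  · have h5 : (1 - 3 * η - s) * ((1 + γ) ^ 2 * M) ≤ Z' - s := by
      have h6 : (1 + γ) ^ 2 * ((1 - η) * M) ≤ (1 + γ) ^ 2 * M' :=
        mul_le_mul_of_nonneg_left hM'1 (by positivity)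
      have h7 : 2 * γ * (1 + γ) * (η * M) ≤ 2 * (1 + γ) ^ 2 * (η * M) := by
        apply mul_le_mul_of_nonneg_right _ (by positivity)
        nlinarith
      nlinarith
    have h6 := mul_le_mul_of_nonneg_left h5 hΩ0
    rw [mul_sub] at h6
    have h7 : (1 - 3 * η - s) * (Ω * ((1 + γ) ^ 2 * M)) =
      Ω * ((1 - 3 * η - s) * ((1 + γ) ^ 2 * M)) := by ring
    rw [h7]
    linarith [h4.1]
  · have h5 : Z' + s ≤ (1 + s) * ((1 + γ) ^ 2 * M) := by nlinarith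
    have h6 := mul_le_mul_of_nonneg_left h5 hΩ0
    rw [mul_add] at h6
    have h7 : (1 + s) * (Ω * ((1 + γ) ^ 2 * M)) =
      Ω * ((1 + s) * ((1 + γ) ^ 2 * M)) := by ring
    rw [h7]
    linarith [h4.2]

/-- sums over pairs of primes -/
theorem W3q (hCol : Col) (hCob : Cob) (hMni : Mni) (h : Wsq q δ θ s η γ X N β S)
    (hsm : SMq q Λ δ θ s γ X b N' β S) {B U : Finset ℕ}
    (hB : B.card = N) (hBU : B ⊆ U) (hUN : U.card ≤ N') (hUs : U ⊆ It Λ X) (hBs : B ⊆ Bq q Λ X b) {a a' : ℕ}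
    (ha : a ∈ B) (ha' : a' ∈ B) (hne : a ≠ a') :
    ∑ n ∈ (SPq q X b a).filter (fun n => (n + a').Prime), wwq δ γ X β S B U n ≤
      (1 + s) * (vp δ X * (1 / GG (S1 δ θ X)) * (1 + γ) ^ 4 * (Omq q δ X U.card * ZB γ β S B)) := by
  have haU : a ∈ U := hBU ha
  have haU' : a' ∈ U := hBU ha'
  have ha1 : 1 ≤ a := It1 (hUs haU)
  have ha1' : 1 ≤ a' := It1 (hUs haU')
  have hc := h.γ0
  have hs := h.s0
  set G := GG (S1 δ θ X) with hG
  have hG1 : 1 ≤ G := h.g1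
  have hcob := (hCob t β h.β0 h.β1)
  set B' := (B.erase a).erase a' with hB'
  have hB's : B' ⊆ B := (erase_subset _ _).trans (erase_subset _ _)
  have hc0 : ∀ σ, |co2 γ γ β σ| ≤ (1 + γ) ^ 2 := by
    intro σ
    obtain ⟨-, -, -, h1, h2⟩ := hcob.2 γ hc σ
    rw [abs_of_nonneg h1]
    exact h2
  have h1 : ∑ n ∈ (SPq q X b a).filter (fun n => (n + a').Prime), wwq δ γ X β S B U n ≤
      1 / G ^ 2 * ∑ n ∈ SPq q X b a, rU δ X (U.erase a) n *
        (FS (S1 δ θ X) a' n * WW B' (co2 γ γ β) (xh γ β S n)) ^ 2 := by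
    rw [mul_sum]
    calc ∑ n ∈ (SPq q X b a).filter (fun n => (n + a').Prime), wwq δ γ X β S B U n =
        ∑ n ∈ (SPq q X b a).filter (fun n => (n + a').Prime),
          1 / G ^ 2 * (rU δ X (U.erase a) n *
            (FS (S1 δ θ X) a' n * WW B' (co2 γ γ β) (xh γ β S n)) ^ 2) := by
          refine sum_congr rfl fun n hn => ?_
          rw [mem_filter, mem_SPq] at hn
          unfold wwq
          rw [(hCol t B β (xh γ β S n) (fun _ => γ)).2 a ha a' ha' hne (fun τ =>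
            ⟨xh_primeq h hn.1.1 ha1 hn.1.2.2.2 τ, xh_primeq h hn.1.1 ha1' hn.2 τ⟩),
            rU_eraseq h haU hn.1.1 ha1 hn.1.2.2.2,
            FS_prime (P2_lt hn.1.1 ha1') S1_sub hn.2, ← hB', ← hG]
          have : G ≠ 0 := by linarith
          field_simp
      _ ≤ _ := sum_le_sum_of_subset_of_nonneg (filter_subset _ _) fun n _ _ => by
          have := rU_nonneg (δ := δ) (X := X) (U.erase a) n
          positivity
  have hcard : (U.erase a).card + 1 = U.card := by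
    rw [card_erase_of_mem haU]
    have : 0 < U.card := card_pos.2 ⟨a, haU⟩
    omega
  have h2 := ((hsm (U.erase a) ((erase_subset _ _).trans hUs) (by omega) B'
    ((erase_subset _ _).trans (erase_subset_erase a hBU)) (co2 γ γ β) hc0).2 a
      (by rw [mem_sdiff]; exact ⟨hBs ha, notMem_erase a U⟩)).2 a'
    (by
      rw [mem_sdiff]
      exact ⟨mem_erase.2 ⟨hne.symm, haU'⟩, fun h => (mem_erase.1 h).1 rfl⟩)
  set Ω := OmPq q δ X (U.erase a).card with hΩ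
  have hΩ0 : 0 ≤ Ω := OmPq_nonneg h _
  have hΩe : Ω = vp δ X * Omq q δ X U.card := by rw [hΩ, OmPq_eq h, hcard]
  obtain ⟨hM1, hM⟩ := mni_ofq hMni h hB
  obtain ⟨-, hm3, -⟩ := hM B' hB's
  set M := ZB γ β S B with hMdef
  set Z' := ∑ σ ∈ cfg t B', co2 γ γ β σ ^ 2 * term (qh γ β S) σ with hZ'
  have hup : Z' ≤ (1 + γ) ^ 4 * M := by
    calc Z' ≤ ∑ σ ∈ cfg t B', (1 + γ) ^ 4 * term (qh γ β S) σ := by
          refine sum_le_sum fun σ _ => ?_
          obtain ⟨-, -, -, h1, h2⟩ := hcob.2 γ hc σ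
          apply mul_le_mul_of_nonneg_right _ (termq_nonnegq h σ)
          calc co2 γ γ β σ ^ 2 ≤ ((1 + γ) ^ 2) ^ 2 := pow_le_pow_left₀ h1 h2 2
            _ = (1 + γ) ^ 4 := by ring
      _ = (1 + γ) ^ 4 * ∑ σ ∈ cfg t B', term (qh γ β S) σ := by rw [mul_sum]
      _ ≤ _ := mul_le_mul_of_nonneg_left hm3 (by positivity)
  have h4 := (abs_le.1 h2).2
  have h1c : (1 : ℝ) ≤ (1 + γ) ^ 4 := one_le_pow₀ (by linarith)
  have hM0 : 0 ≤ M := by linarith
  have hsM : s ≤ s * ((1 + γ) ^ 4 * M) := by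
    have : (1 : ℝ) ≤ (1 + γ) ^ 4 * M := by nlinarith
    nlinarith
  refine h1.trans ?_
  have h5 : ∑ n ∈ SPq q X b a, rU δ X (U.erase a) n *
      (FS (S1 δ θ X) a' n * WW B' (co2 γ γ β) (xh γ β S n)) ^ 2 ≤
      Ω * G * ((1 + γ) ^ 4 * M * (1 + s)) := by
    have h6 : s * Ω ≤ Ω * G * s := by
      have h0 : 0 ≤ s * Ω := mul_nonneg hs hΩ0
      nlinarith
    have h7 : Ω * (G * Z') ≤ Ω * G * ((1 + γ) ^ 4 * M) := by
      rw [← mul_assoc]
      exact mul_le_mul_of_nonneg_left hup (by positivity)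
    have h8 : Ω * G * s ≤ Ω * G * (s * ((1 + γ) ^ 4 * M)) :=
      mul_le_mul_of_nonneg_left hsM (by positivity)
    have h9 : Ω * G * ((1 + γ) ^ 4 * M * (1 + s)) =
      Ω * G * ((1 + γ) ^ 4 * M) + Ω * G * (s * ((1 + γ) ^ 4 * M)) := by
      ring
    rw [h9]
    linarith
  calc 1 / G ^ 2 * ∑ n ∈ SPq q X b a, rU δ X (U.erase a) n *
      (FS (S1 δ θ X) a' n * WW B' (co2 γ γ β) (xh γ β S n)) ^ 2
      ≤ 1 / G ^ 2 * (Ω * G * ((1 + γ) ^ 4 * M * (1 + s))) :=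
        mul_le_mul_of_nonneg_left h5 (by positivity)
    _ = _ := by
        have : G ≠ 0 := by linarith
        rw [hΩe]
        field_simp

end

/-- good weights, with at most `M` additional rough positions -/
def S_WTq : Prop := ∀ (T : ℕ) (μ s : ℝ), 1 ≤ T → 0 < μ → 0 < s → ∃ K : ℕ, 1 ≤ K ∧
  ∀ (Λ : ℝ) (M : ℕ), 0 < Λ → ∃ δ : ℝ, 0 < δ ∧ δ ≤ 1 / 8 ∧ ∃ M₀ : ℝ, 0 < M₀ ∧
  ∀ q : ℕ, 0 < q → ∃ X₀ : ℕ, ∀ X : ℕ, X₀ ≤ X → ∀ b : ℕ, b < Wq q X →
  0 < VV δ X ∧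
  ∀ B U : Finset ℕ, B ⊆ U → U ⊆ It Λ X → B ⊆ Bq q Λ X b → B.card = T * K →
    U.card ≤ T * K + M →
    ∃ (w : ℕ → ℝ) (A : ℝ),
    (∀ n ∈ SIq q X b, 0 ≤ w n ∧ w n ≤ M₀ * rU δ X U n) ∧ Omq q δ X U.card ≤ A ∧
    ∑ n ∈ SIq q X b, w n ≤ (1 + s) * A ∧
    (∀ a ∈ B, (1 - s) * (μ / K) * A ≤ ∑ n ∈ SPq q X b a, w n ∧
      ∑ n ∈ SPq q X b a, w n ≤ (1 + s) * (μ / K) * A) ∧
    ∀ a ∈ B, ∀ a' ∈ B, a ≠ a' →
      ∑ n ∈ (SPq q X b a).filter (fun n => (n + a').Prime), w n ≤ (4 + s) * (μ / K) ^ 2 * A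

theorem wtq_of (hSM : S_SMq) (hPT : S_PT) (hPAR : S_PAR) (hCol : Col) (hCob : Cob)
    (hMni : Mni) (hWtx : Wtx) : S_WTq := by
  intro T μ s hT hμ hs
  set σ : ℝ := min s 1 / 10 with hσ
  have hσ0 : 0 < σ := by rw [hσ]; positivity
  have hσs : 10 * σ ≤ s := by
    rw [hσ]
    have := min_le_left s 1
    linarith
  have hσ1 : 10 * σ ≤ 1 := by
    rw [hσ]
    have := min_le_right s 1
    linarith
  obtain ⟨θ, t, K, u, β, hθ0, hθ, hK, hub, hβ1, hu, δa, hδa, hpar⟩ := hPAR T μ σ hT hμ hσ0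
  refine ⟨K, hK, fun Λ M hΛ => ?_⟩
  obtain ⟨δb, hδb, hsm⟩ := hSM (T * K + M) 2 t u β Λ θ σ hub hβ1 hu hΛ hθ0 hθ hσ0
  obtain ⟨δ, hδ⟩ : ∃ δ : ℝ, δ = min (min δa δb) (1 / 8) := ⟨_, rfl⟩
  have hδ0 : 0 < δ := by rw [hδ]; positivity
  have h1 : δ ≤ δa := by rw [hδ]; exact (min_le_left _ _).trans (min_le_left _ _)
  have h2 : δ ≤ δb := by rw [hδ]; exact (min_le_left _ _).trans (min_le_right _ _)
  have h4 : δ ≤ 1 / 8 := by rw [hδ]; exact (min_le_right _ _)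
  obtain ⟨Xa, hpar⟩ := hpar δ hδ0 h1
  obtain ⟨M₁, hM₁, Xd, hpt⟩ := hPT Λ δ hΛ hδ0 h4
  obtain ⟨Xe, hwtx⟩ := hWtx.2 δ hδ0 (by linarith)
  set Q : ℝ := 1 + (1 / δ) ^ 2 * M₁ with hQ
  have hQ1 : 1 ≤ Q := by
    rw [hQ]
    have : 0 ≤ (1 / δ) ^ 2 * M₁ := by positivity
    linarith
  set M₀ : ℝ := ((((T * K : ℕ) : ℝ) + 1) ^ t * Q ^ t) ^ 2 with hM₀
  have hM₀0 : 0 < M₀ := by positivity
  refine ⟨δ, hδ0, h4, M₀, hM₀0, fun q hq0 => ?_⟩
  obtain ⟨Xb, hsm⟩ := hsm δ hδ0 h2 q hq0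
  obtain ⟨Xf, htot⟩ := tot_q q hq0
  refine ⟨max (max (max Xa Xb) (max Xd (max Xe 1))) Xf, ?_⟩
  intro X hX0 b hb
  have hXf : Xf ≤ X := (le_max_right _ _).trans hX0
  have hX : max (max Xa Xb) (max Xd (max Xe 1)) ≤ X := (le_max_left _ _).trans hX0
  have hXa : Xa ≤ X := ((le_max_left _ _).trans (le_max_left _ _)).trans hX
  have hXb : Xb ≤ X := ((le_max_right _ _).trans (le_max_left _ _)).trans hX
  have hXd : Xd ≤ X := ((le_max_left _ _).trans (le_max_right _ _)).trans hX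
  have hXe : Xe ≤ X := ((le_max_left _ _).trans ((le_max_right _ _).trans (le_max_right _ _))).trans hX
  have hX1 : 1 ≤ X := ((le_max_right _ _).trans ((le_max_right _ _).trans (le_max_right _ _))).trans hX
  obtain ⟨S, γ, hFam, hS0, hSd, hSG, hγ0, hγ1, hV, hvp, hγμ, hη, hq, hG1, hG2⟩ := hpar X hXa
  have hPJ : 2 ^ 2 ^ JJ δ X ≤ X := by
    have h5 := (hwtx X hXe).1
    have h6 : (X : ℝ) ^ δ ≤ (X : ℝ) ^ (1 : ℝ) := by
      apply Real.rpow_le_rpow_of_exponent_le _ (by linarith)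
      exact_mod_cast hX1
    rw [Real.rpow_one] at h6
    have h7 := h5.trans h6
    exact_mod_cast h7
  have hSMb' : SMq q Λ δ θ σ γ X b (T * K + M) β S := by
    intro U hU hN B hB c hc
    exact hsm X hXb b hb S hFam hS0 hSd hSG γ hγ0 hγ1 U hU hN B hB c hc
  have hst : Wsq q δ θ σ σ γ X (T * K) β S :=
    { q0 := hq0
      tot := htot X hXf
      s0 := hσ0.le
      γ0 := hγ0
      β0 := fun τ => (hub τ).2.le
      β1 := hβ1
      gg := hSG
      hS := fun τ R hR => (hFam τ R hR).1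
      η0 := hσ0.le
      hη := fun τ => by
        have := hη τ
        push_cast
        exact this
      hq := hq
      pJ := hPJ
      v0 := hV
      hX := hX1
      g1 := hG1 }
  refine ⟨hV, fun B U hBU hUs hBs hB hUN => ?_⟩
  have hZ := (mni_ofq hMni hst hB).1
  have hOm := Omq_pos hst U.card
  set A : ℝ := Omq q δ X U.card * ZB γ β S B with hA
  have hA0 : 0 < A := by rw [hA]; positivity
  have hμK : 0 < μ / K := by
    have : (0 : ℝ) < K := by exact_mod_cast hK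
    positivity
  refine ⟨wwq δ γ X β S B U, A, fun n hn => ⟨wwq_nonneg B U n, ?_⟩, ?_, ?_, fun a ha => ?_,
    fun a ha a' ha' hne => ?_⟩
  · have hW : |WW B (fun _ => 1) (xh γ β S n)| ≤ (((T * K : ℕ) : ℝ) + 1) ^ t * Q ^ t := by
      have := WW_bound (t := t) (B := B) (x := xh γ β S n) hQ1 (by
        intro τ a ha
        have ha' := hUs (hBU ha)
        have haΛ : (a : ℝ) ≤ Λ * Real.log X := by
          have h5 : a ≤ ⌊Λ * Real.log X⌋₊ := (Finset.mem_Icc.1 ha').2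
          have h6 : 0 ≤ Λ * Real.log X := by
            have : 0 ≤ Real.log X := Real.log_nonneg (by exact_mod_cast hX1)
            positivity
          exact (Nat.le_floor_iff h6).1 h5
        have hnI : n ∈ SI X (n % Wm X) := by
          unfold SI
          rw [mem_filter]
          unfold SIq at hn
          exact ⟨(mem_filter.1 hn).1, rfl⟩
        have h5 := hpt X hXd (n % Wm X) n a hnI (It1 ha') haΛ (S τ) (fun R hR => (hFam τ R hR).1)
        unfold xh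
        have hg := hSG τ
        have hβ := hub τ
        have hβ1' : β τ ≤ 1 := by
          rw [← hβ1]
          exact single_le_sum (f := β) (fun τ _ => (hub τ).2.le) (mem_univ τ)
        have hbg : 0 ≤ β τ / GG (S τ) := div_nonneg hβ.2.le (by linarith)
        rw [abs_mul, abs_mul, abs_of_nonneg hγ0, abs_of_nonneg hbg]
        have h6 : β τ / GG (S τ) ≤ 1 := by
          rw [div_le_one (by linarith)]
          linarith
        have h7 : γ ≤ (1 / δ) ^ 2 := by linarith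
        have h8 : β τ / GG (S τ) * |FS (S τ) a n| ≤ M₁ := by
          calc β τ / GG (S τ) * |FS (S τ) a n| ≤ 1 * M₁ := by
                apply mul_le_mul h6 h5 (abs_nonneg _) zero_le_one
            _ = M₁ := one_mul _
        calc γ * (β τ / GG (S τ) * |FS (S τ) a n|) ≤ (1 / δ) ^ 2 * M₁ := by
              apply mul_le_mul h7 h8 _ (by positivity)
              exact mul_nonneg hbg (abs_nonneg _)
          _ ≤ Q := by rw [hQ]; linarith)
      rw [hB] at this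
      exact this
    unfold wwq
    rw [mul_comm]
    apply mul_le_mul_of_nonneg_right _ (rU_nonneg U n)
    rw [hM₀, ← sq_abs]
    exact pow_le_pow_left₀ (abs_nonneg _) hW 2
  · rw [hA]
    nlinarith
  · refine (W1q hMni hst hSMb' hB hBU hUN hUs hBs).trans ?_
    rw [← hA]
    apply mul_le_mul_of_nonneg_right _ hA0.le
    linarith
  · obtain ⟨h5, h6⟩ := W2q hCol hCob hMni hst hSMb' hB hBU hUN hUs hBs ha
    rw [hγμ, ← hA] at h5 h6
    have h7 : 0 < μ / K * A := by positivity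
    constructor
    · refine le_trans ?_ h5
      rw [mul_assoc]
      apply mul_le_mul_of_nonneg_right _ h7.le
      linarith
    · refine h6.trans ?_
      rw [mul_assoc (1 + s)]
      apply mul_le_mul_of_nonneg_right _ h7.le
      linarith
  · refine (W3q hCol hCob hMni hst hSMb' hB hBU hUN hUs hBs ha ha' hne).trans ?_
    rw [← hA]
    have h5 : vp δ X * (1 / GG (S1 δ θ X)) * (1 + γ) ^ 4 ≤ (4 + σ) * (μ / K) ^ 2 := by
      rw [← hγμ]
      calc vp δ X * (1 / GG (S1 δ θ X)) * (1 + γ) ^ 4 ≤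
          vp δ X * ((4 + σ) * vp δ X) * (1 + γ) ^ 4 := by
            apply mul_le_mul_of_nonneg_right _ (by positivity)
            exact mul_le_mul_of_nonneg_left hG2 hvp.le
        _ = _ := by ring
    calc (1 + σ) * (vp δ X * (1 / GG (S1 δ θ X)) * (1 + γ) ^ 4 * A) ≤
        (1 + σ) * ((4 + σ) * (μ / K) ^ 2 * A) := by
          apply mul_le_mul_of_nonneg_left _ (by linarith)
          exact mul_le_mul_of_nonneg_right h5 hA0.le
      _ = (1 + σ) * (4 + σ) * ((μ / K) ^ 2 * A) := by ring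
      _ ≤ (4 + s) * ((μ / K) ^ 2 * A) := by
          apply mul_le_mul_of_nonneg_right _ (by positivity)
          nlinarith
      _ = _ := by ring

end Pool.Agent.TH816.MQ
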