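import Pool.Agent.W70.HR.Stm

/-!
The coloured Maynard-Tao theorem of project HR (helper70 and others) with a fixed additional modulus
`q` and with arbitrary rough positions: definitions and statements.
-/

set_option autoImplicit false

open Finset

namespace Pool.Agent.TH816.MQ

open Pool.Agent.H361R2.PP
open Pool.Agent.W70.HR
open Pool.Agent.H410R2.AC (wt GG cfg term WW pos Inj coef)

/-- the modulus -/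
noncomputable def Wq (q X : ℕ) : ℕ := q * Wm X

/-- the positions up to `Λ log X` -/
noncomputable def It (Λ : ℝ) (X : ℕ) : Finset ℕ := Icc 1 ⌊Λ * Real.log X⌋₊

/-- the positions admissible for primes -/
noncomputable def Bq (q : ℕ) (Λ : ℝ) (X b : ℕ) : Finset ℕ :=
  (It Λ X).filter (fun a => (b + a).Coprime (Wq q X))

/-- the integers of the class -/
noncomputable def SIq (q X b : ℕ) : Finset ℕ := (Ico X (2 * X)).filter (fun n => n % Wq q X = b)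

/-- the integers of the class with `n + a` prime -/
noncomputable def SPq (q X b a : ℕ) : Finset ℕ :=
  (Ico X (2 * X)).filter (fun n => n % Wq q X = b ∧ (n + a).Prime)

/-- expected number of integers of the class with `N` rough positions -/
noncomputable def Omq (q : ℕ) (δ : ℝ) (X N : ℕ) : ℝ := (X : ℝ) / Wq q X * VV δ X ^ N

/-- the same with one further position where the value is prime -/
noncomputable def OmPq (q : ℕ) (δ : ℝ) (X N : ℕ) : ℝ := Pr X / Nat.totient (Wq q X) * VV δ X ^ N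

/-- EQI: the integers in a class -/
def EqIntq (q : ℕ) : Prop := ∀ (K A : ℕ) (θ : ℝ), 0 < θ → ∃ X₀ : ℕ, ∀ X : ℕ, X₀ ≤ X →
  ∀ b : ℕ, b < Wq q X →
  ∃ Er : Finset ℕ → ℝ,
    Eqd none ((PX X).filter (fun p : ℕ => (p : ℝ) ≤ (X : ℝ) ^ (1 / 2 : ℝ)))
      (SIq q X b) ((X : ℝ) / Wq q X) Er ∧
    ∑ D ∈ (PX X).powerset.filter (fun D : Finset ℕ => ∏ p ∈ D, (p : ℝ) ≤ (X : ℝ) ^ (1 - θ)),
      (K : ℝ) ^ D.card * Er D ≤ (X : ℝ) / Wq q X / Real.log X ^ A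

/-- EQP: the integers `n` in a class with `n + a₀` prime (Bombieri-Vinogradov) -/
def EqPrimeq (q : ℕ) : Prop := ∀ (K A : ℕ) (θ Λ : ℝ), 0 < θ → 0 < Λ → ∃ X₀ : ℕ, ∀ X : ℕ, X₀ ≤ X →
  ∀ b : ℕ, b < Wq q X → ∀ a₀ ∈ Bq q Λ X b,
  ∃ Er : Finset ℕ → ℝ,
    Eqd (some a₀) ((PX X).filter (fun p : ℕ => (p : ℝ) ≤ (X : ℝ) ^ (1 / 2 : ℝ)))
      (SPq q X b a₀) (Pr X / Nat.totient (Wq q X)) Er ∧
    ∑ D ∈ (PX X).powerset.filter (fun D : Finset ℕ => ∏ p ∈ D, (p : ℝ) ≤ (X : ℝ) ^ (1 / 2 - θ)),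
      (K : ℝ) ^ D.card * Er D ≤ Pr X / Nat.totient (Wq q X) / Real.log X ^ A

open Classical in
/-- ML: correlations of products of Selberg type functions, all positions rough -/
def S_MLq : Prop := ∀ (N m : ℕ) (Λ θ s : ℝ), 0 < Λ → 0 < θ → θ ≤ 1 / 32 → 0 < s →
  ∃ δ₀ : ℝ, 0 < δ₀ ∧ ∀ δ : ℝ, 0 < δ → δ ≤ δ₀ → ∀ q : ℕ, 0 < q → ∃ X₀ : ℕ, ∀ X : ℕ, X₀ ≤ X →
  ∀ b : ℕ, b < Wq q X →
  ∀ U ⊆ It Λ X, U.card ≤ N → ∀ (F F' : ℕ → Finset (Finset ℕ)) (u u' : ℕ → ℝ),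
  (∀ a ∈ U, 0 ≤ u a ∧ Fam δ X (u a) (F a)) → (∀ a ∈ U, 0 ≤ u' a ∧ Fam δ X (u' a) (F' a)) →
  ∑ a ∈ U, (u a + u' a) ≤ 1 / 2 - 2 * θ →
  ((∀ a ∈ U, F a = F' a) ∨ ∃ a ∈ U, Disjoint (F a) (F' a)) →
  |∑ n ∈ SIq q X b, rU δ X U n * ((∏ a ∈ U, FS (F a) a n) * ∏ a ∈ U, FS (F' a) a n) -
    (if ∀ a ∈ U, F a = F' a then Omq q δ X U.card * ∏ a ∈ U, GG (F a) else 0)| ≤
      s * δ ^ m * Omq q δ X U.card ∧
  ∀ a₀ ∈ Bq q Λ X b \ U,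
  |∑ n ∈ SPq q X b a₀, rU δ X U n * ((∏ a ∈ U, FS (F a) a n) * ∏ a ∈ U, FS (F' a) a n) -
    (if ∀ a ∈ U, F a = F' a then OmPq q δ X U.card * ∏ a ∈ U, GG (F a) else 0)| ≤
      s * δ ^ m * OmPq q δ X U.card

/-- SM: second moments of the weights `WW`, all the positions of `U` rough -/
def S_SMq : Prop := ∀ (N m t : ℕ) (u β : Fin t → ℝ) (Λ θ s : ℝ), (∀ τ, 0 < u τ ∧ 0 < β τ) →
  ∑ τ, β τ = 1 → ∑ τ, u τ ≤ θ / 2 → 0 < Λ → 0 < θ → θ ≤ 1 / 32 → 0 < s →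
  ∃ δ₀ : ℝ, 0 < δ₀ ∧ ∀ δ : ℝ, 0 < δ → δ ≤ δ₀ → ∀ q : ℕ, 0 < q → ∃ X₀ : ℕ, ∀ X : ℕ, X₀ ≤ X →
  ∀ b : ℕ, b < Wq q X →
  ∀ S : Fin t → Finset (Finset ℕ), (∀ τ, Fam δ X (u τ) (S τ)) → (∀ τ, ∅ ∉ S τ) →
  (∀ τ τ', τ ≠ τ' → Disjoint (S τ) (S τ')) → (∀ τ, 1 ≤ GG (S τ)) →
  ∀ γ : ℝ, 0 ≤ γ → 1 + γ ≤ (1 / δ) ^ m → ∀ U ⊆ It Λ X, U.card ≤ N → ∀ B ⊆ U,
  ∀ c : (Fin t → Option ℕ) → ℝ, (∀ σ, |c σ| ≤ (1 + γ) ^ 2) →
    |∑ n ∈ SIq q X b, rU δ X U n * WW B c (xh γ β S n) ^ 2 -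
      Omq q δ X U.card * ∑ σ ∈ cfg t B, c σ ^ 2 * term (qh γ β S) σ| ≤ s * Omq q δ X U.card ∧
    ∀ a₀ ∈ Bq q Λ X b \ U,
      |∑ n ∈ SPq q X b a₀, rU δ X U n * WW B c (xh γ β S n) ^ 2 -
        OmPq q δ X U.card * ∑ σ ∈ cfg t B, c σ ^ 2 * term (qh γ β S) σ| ≤ s * OmPq q δ X U.card ∧
      ∀ a₁ ∈ U \ B,
      |∑ n ∈ SPq q X b a₀, rU δ X U n * (FS (S1 δ θ X) a₁ n * WW B c (xh γ β S n)) ^ 2 -
        OmPq q δ X U.card * (GG (S1 δ θ X) * ∑ σ ∈ cfg t B, c σ ^ 2 * term (qh γ β S) σ)| ≤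
          s * OmPq q δ X U.card

end Pool.Agent.TH816.MQ
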